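import Pool.Agent.Uhy.Defs
import Pool.Agent.Lgp.FinOrb

namespace Pool.Agent.Uhy

open Pool.Agent.CTm Pool.Agent.Grm Pool.Agent.Lgp Filter Nat

variable {N m : ℕ}

-- BEGIN af1
theorem Aff.mono {k k' : ℕ} (hk : k ≤ k') {h : Equiv.Perm ℤ} (hh : Aff N m k h) : Aff N m k' h := by
  intro n
  obtain ⟨u, v, hu, hv, huv⟩ := hh n
  refine ⟨u, v, hu.trans (pow_dvd_pow m hk), hv.trans (pow_dvd_pow m hk), fun t => ?_⟩
  obtain ⟨d, rfl⟩ := Nat.exists_eq_add_of_le hk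
  have e1 : ((N * m ^ (k + d) : ℕ) : ℤ) * t = ((N * m ^ k : ℕ) : ℤ) * ((m : ℤ) ^ d * t) := by
    push_cast
    ring
  rw [e1]
  exact huv _

private theorem af1_cancel {v : ℕ} (hv : v ≠ 0) {a b : ℤ} (h : (v : ℤ) * a = v * b) : a = b :=
  mul_left_cancel₀ (by exact_mod_cast hv) h

private theorem af1_ne {m k v : ℕ} (hm : 0 < m) (hv : v ∣ m ^ k) : v ≠ 0 := by
  rintro rfl
  exact (pow_pos hm k).ne' (Nat.eq_zero_of_zero_dvd hv)

/-- the increments of an affine map -/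
private theorem af1_incr (hm : 0 < m) {k : ℕ} {u v : ℕ} (hv : v ∣ m ^ k) {a b t : ℤ}
    (h : (v : ℤ) * (a - b) = u * (((N * m ^ k : ℕ) : ℤ) * t)) :
    ∃ w : ℕ, v * w = m ^ k ∧ a = b + N * (u * w * t) := by
  obtain ⟨w, hw⟩ := hv
  refine ⟨w, hw.symm, ?_⟩
  have h0 : v ≠ 0 := af1_ne hm ⟨w, hw⟩
  have e1 : a - b = N * (u * w * t) := by
    apply af1_cancel h0
    rw [h, hw]
    push_cast
    ring
  linarith

theorem Aff.mul (hm : 0 < m) {k k' : ℕ} {f g : Equiv.Perm ℤ} (hf : Aff N m k f) (hg : Aff N m k' g) :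
    Aff N m (k + k') (f * g) := by
  intro n
  obtain ⟨u, v, hu, hv, huv⟩ := hg n
  obtain ⟨u', v', hu', hv', huv'⟩ := hf (g n)
  refine ⟨u' * u, v' * v, ?_, ?_, fun t => ?_⟩
  · rw [pow_add]
    exact mul_dvd_mul hu' hu
  · rw [pow_add]
    exact mul_dvd_mul hv' hv
  have e1 : ((N * m ^ (k + k') : ℕ) : ℤ) * t = ((N * m ^ k' : ℕ) : ℤ) * ((m : ℤ) ^ k * t) := by
    push_cast
    ring
  obtain ⟨w, hw, e2⟩ := af1_incr hm hv (huv ((m : ℤ) ^ k * t))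
  have e3 : g (n + ((N * m ^ (k + k') : ℕ) : ℤ) * t) =
      g n + ((N * m ^ k : ℕ) : ℤ) * (u * w * t) := by
    rw [e1, e2]
    push_cast
    ring
  have e4 := huv' (u * w * t)
  rw [← e3] at e4
  show ((v' * v : ℕ) : ℤ) * (f (g (n + ((N * m ^ (k + k') : ℕ) : ℤ) * t)) - f (g n)) =
    ((u' * u : ℕ) : ℤ) * (((N * m ^ (k + k') : ℕ) : ℤ) * t)
  have hw' : (v : ℤ) * w = (m : ℤ) ^ k' := by exact_mod_cast hw
  push_cast at e4 ⊢
  linear_combination (v : ℤ) * e4 + (u' : ℤ) * N * (m : ℤ) ^ k * u * t * hw'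

theorem Aff.inv (hN : 0 < N) (hm : 0 < m) {k : ℕ} {f : Equiv.Perm ℤ} (hf : Aff N m k f) :
    Aff N m (2 * k) f⁻¹ := by
  intro n
  obtain ⟨u, v, hu, hv, huv⟩ := hf (f⁻¹ n)
  have hfn : f (f⁻¹ n) = n := f.apply_symm_apply n
  have hk : k ≤ 2 * k := by omega
  refine ⟨v, u, hv.trans (pow_dvd_pow m hk), hu.trans (pow_dvd_pow m hk), fun t => ?_⟩
  obtain ⟨w, hw⟩ := hu
  have h0 : v ≠ 0 := af1_ne hm hv
  have hw' : (u : ℤ) * w = (m : ℤ) ^ k := by exact_mod_cast hw.symm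
  have e1 := huv (v * w * t)
  rw [hfn] at e1
  have e2 : f (f⁻¹ n + ((N * m ^ k : ℕ) : ℤ) * (v * w * t)) =
      n + ((N * m ^ (2 * k) : ℕ) : ℤ) * t := by
    have e3 : f (f⁻¹ n + ((N * m ^ k : ℕ) : ℤ) * (v * w * t)) - n =
        ((N * m ^ (2 * k) : ℕ) : ℤ) * t := by
      apply af1_cancel h0
      rw [e1]
      push_cast
      rw [two_mul, pow_add]
      linear_combination (N : ℤ) * (m : ℤ) ^ k * v * t * hw'
    linarith
  have e4 : f⁻¹ (n + ((N * m ^ (2 * k) : ℕ) : ℤ) * t) =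
      f⁻¹ n + ((N * m ^ k : ℕ) : ℤ) * (v * w * t) := by
    rw [← e2]
    exact f.symm_apply_apply _
  rw [e4]
  push_cast
  rw [two_mul, pow_add]
  linear_combination (N : ℤ) * (m : ℤ) ^ k * v * t * hw'

/-- continuity -/
theorem Aff.cont (hm : 0 < m) {k j : ℕ} {h : Equiv.Perm ℤ} (hh : Aff N m k h) {n n' : ℤ}
    (hn : ((N * m ^ (k + j) : ℕ) : ℤ) ∣ n' - n) : ((N * m ^ j : ℕ) : ℤ) ∣ h n' - h n := by
  obtain ⟨q, hq⟩ := hn
  obtain ⟨u, v, _, hv, huv⟩ := hh n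
  obtain ⟨w, _, e2⟩ := af1_incr hm hv (huv ((m : ℤ) ^ j * q))
  have e1 : n' = n + ((N * m ^ k : ℕ) : ℤ) * ((m : ℤ) ^ j * q) := by
    have e3 : n' = n + ((N * m ^ (k + j) : ℕ) : ℤ) * q := by linarith
    rw [e3]
    push_cast
    ring
  refine ⟨u * w * q, ?_⟩
  rw [e1, e2]
  push_cast
  ring

/-- an affine map which is the identity on a smaller class is the identity on the class -/
theorem Aff.id_class (hN : 0 < N) (hm : 0 < m) {k : ℕ} {h : Equiv.Perm ℤ} (hh : Aff N m k h) {n M : ℤ}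
    (hM : 0 < M) (hn : ∀ t : ℤ, h (n + M * t) = n + M * t) (t : ℤ) :
    h (n + ((N * m ^ k : ℕ) : ℤ) * t) = n + ((N * m ^ k : ℕ) : ℤ) * t := by
  obtain ⟨u, v, _, hv, huv⟩ := hh n
  have h0 : v ≠ 0 := af1_ne hm hv
  have hL : (0 : ℤ) < ((N * m ^ k : ℕ) : ℤ) := by
    exact_mod_cast Nat.mul_pos hN (pow_pos hm k)
  have e0 : h n = n := by
    have := hn 0
    simpa using this
  have e1 := huv M
  have e2 : h (n + ((N * m ^ k : ℕ) : ℤ) * M) = n + ((N * m ^ k : ℕ) : ℤ) * M := by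
    have := hn ((N * m ^ k : ℕ) : ℤ)
    rwa [mul_comm M] at this
  rw [e2, e0] at e1
  have e3 : (v : ℤ) = u := by
    have e4 : (((N * m ^ k : ℕ) : ℤ) * M) ≠ 0 := (mul_pos hL hM).ne'
    apply mul_right_cancel₀ e4
    linarith
  have e5 := huv t
  rw [e0, ← e3] at e5
  have e6 := af1_cancel h0 e5
  linarith
-- END af1

-- BEGIN af2
/-- a modulus and an exponent for one element -/
private theorem af2_one {f : Equiv.Perm ℤ} (hf : SlopeUnit m f) : ∃ M E : ℕ, 0 < M ∧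
    ∀ N k : ℕ, M ∣ N * m ^ k → E ≤ k → Aff N m k f := by
  obtain ⟨M, hM, h⟩ := hf
  choose u v e hu hv huv using h
  refine ⟨M.toNat, (Finset.range M.toNat).sup (fun r => e (r : ℤ)), by omega, ?_⟩
  intro N k hdvd hk n
  have hMn : ((M.toNat : ℕ) : ℤ) = M := Int.toNat_of_nonneg hM.le
  obtain ⟨c, hc⟩ := hdvd
  -- the representative
  set r : ℕ := (n % M).toNat with hr
  have hr0 : (r : ℤ) = n % M := Int.toNat_of_nonneg (Int.emod_nonneg n hM.ne')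
  have hrM : r < M.toNat := by
    have h1 := Int.emod_lt_of_pos n hM
    omega
  have hre : e (r : ℤ) ≤ k := (Finset.le_sup (f := fun r : ℕ => e (r : ℤ)) (Finset.mem_range.2 hrM)).trans hk
  refine ⟨u r, v r, (hu r).trans (pow_dvd_pow m hre), (hv r).trans (pow_dvd_pow m hre), fun t => ?_⟩
  have hn : n = r + M * (n / M) := by
    rw [hr0]
    exact (Int.emod_add_mul_ediv n M).symm
  have e1 := huv r (n / M)
  have e2 := huv r (n / M + c * t)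
  have e3 : ((N * m ^ k : ℕ) : ℤ) = M * c := by
    rw [hc]
    push_cast
    rw [hMn]
  have e4 : n + ((N * m ^ k : ℕ) : ℤ) * t = r + M * (n / M + c * t) := by
    rw [e3]
    linear_combination hn
  rw [← hn] at e1
  rw [← e4] at e2
  rw [e3] at e4 ⊢
  rw [e3] at e2
  linear_combination e2 - e1

/-- the common modulus; `Q` is an arbitrary further period -/
theorem exists_aff (hm : 2 ≤ m) (S : Finset (Equiv.Perm ℤ)) (hU : ∀ s ∈ S, SlopeUnit m s)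
    (Q : ℕ) (hQ : 0 < Q) : ∃ N e : ℕ, 0 < N ∧ Q ∣ N * m ^ e ∧
      ∀ h ∈ Subgroup.closure (S : Set (Equiv.Perm ℤ)), ∃ k : ℕ, Aff N m k h := by
  classical
  have h1 : ∀ s ∈ S, ∃ M E : ℕ, 0 < M ∧ ∀ N k : ℕ, M ∣ N * m ^ k → E ≤ k → Aff N m k s :=
    fun s hs => af2_one (hU s hs)
  choose! M E hM hA using h1
  have hP : 0 < Q * ∏ s ∈ S, M s := Nat.mul_pos hQ (Finset.prod_pos hM)
  obtain ⟨N, e, hN, _, hdvd⟩ := exists_split m _ hP
  refine ⟨N, e, hN, (Dvd.intro _ rfl).trans hdvd, ?_⟩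
  intro h hh
  induction hh using Subgroup.closure_induction with
  | mem s hs =>
    refine ⟨max e (E s), hA s hs N _ ?_ (le_max_right _ _)⟩
    have h2 : M s ∣ Q * ∏ s ∈ S, M s := (Finset.dvd_prod_of_mem M hs).trans (Dvd.intro_left _ rfl)
    exact (h2.trans hdvd).trans (mul_dvd_mul_left _ (pow_dvd_pow m (le_max_left _ _)))
  | one =>
    refine ⟨0, fun n => ⟨1, 1, one_dvd _, one_dvd _, fun t => ?_⟩⟩
    simp
  | mul a b _ _ ha hb =>
    obtain ⟨k, hk⟩ := ha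
    obtain ⟨k', hk'⟩ := hb
    exact ⟨k + k', Aff.mul (by omega) hk hk'⟩
  | inv a _ ha =>
    obtain ⟨k, hk⟩ := ha
    exact ⟨2 * k, Aff.inv hN (by omega) hk⟩
-- END af2

end Pool.Agent.Uhy
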