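import Pool.Agent.Uhy.Count
import Pool.Agent.Uhy.Aff

namespace Pool.Agent.Uhy

open Pool.Agent.CTm Pool.Agent.Grm Pool.Agent.Lgp Filter Nat

variable {N m c : ℕ}

-- BEGIN lm1
/-- a limit point of a sequence of integers in the profinite integers, along an ultrafilter -/
theorem exists_lim (u : ℕ → ℤ) : ∃ (F : Ultrafilter ℕ) (z : ℕ → ℤ), Pro z ∧ (F : Filter ℕ) ≤ atTop ∧
    ∀ j : ℕ, ∀ᶠ k in F, ((j ! : ℕ) : ℤ) ∣ u k - z j := by
  have key : ∀ j : ℕ, ∃ r : ℤ, ∀ᶠ k in (hyperfilter ℕ : Filter ℕ), ((j ! : ℕ) : ℤ) ∣ u k - r := by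
    intro j
    have hpos : (0 : ℤ) < ((j ! : ℕ) : ℤ) := by exact_mod_cast Nat.factorial_pos j
    have h : (⋃ r ∈ Set.Ico (0 : ℤ) ((j ! : ℕ) : ℤ), {k : ℕ | ((j ! : ℕ) : ℤ) ∣ u k - r}) ∈
        hyperfilter ℕ := by
      have hu : (⋃ r ∈ Set.Ico (0 : ℤ) ((j ! : ℕ) : ℤ), {k : ℕ | ((j ! : ℕ) : ℤ) ∣ u k - r}) =
          Set.univ := by
        apply Set.eq_univ_of_forall
        intro k
        simp only [Set.mem_iUnion]
        refine ⟨u k % ((j ! : ℕ) : ℤ), ⟨Int.emod_nonneg _ hpos.ne', Int.emod_lt_of_pos _ hpos⟩, ?_⟩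
        exact Int.dvd_self_sub_emod
      rw [hu]
      exact Filter.univ_mem
    obtain ⟨r, _, hr⟩ := (Ultrafilter.finite_biUnion_mem_iff (Set.finite_Ico _ _)).1 h
    exact ⟨r, hr⟩
  choose z hz using key
  refine ⟨hyperfilter ℕ, z, fun j => ?_, Nat.hyperfilter_le_atTop, hz⟩
  obtain ⟨k, h1, h2⟩ := ((hz j).and (hz (j + 1))).exists
  have h3 : ((j ! : ℕ) : ℤ) ∣ u k - z (j + 1) :=
    (Int.natCast_dvd_natCast.2 (Nat.factorial_dvd_factorial (Nat.le_succ j))).trans h2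
  have h4 : z (j + 1) - z j = (u k - z j) - (u k - z (j + 1)) := by ring
  rw [h4]
  exact dvd_sub h1 h3
-- END lm1

-- BEGIN lm2
private theorem lm2_wand_mono {k k' : ℕ} (hk : k ≤ k') {T : Equiv.Perm ℤ} {r : ℤ}
    (h : Wand N m k T r) : Wand N m k' T r := by
  have hd : ((N * m ^ k : ℕ) : ℤ) ∣ ((N * m ^ k' : ℕ) : ℤ) :=
    Int.natCast_dvd_natCast.2 (Nat.mul_dvd_mul_left N (pow_dvd_pow m hk))
  intro x hx q hq hT
  exact h x (hd.trans hx) q hq (hd.trans hT)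

private theorem lm2_wand_congr {k : ℕ} {T : Equiv.Perm ℤ} {r r' : ℤ}
    (hr : ((N * m ^ k : ℕ) : ℤ) ∣ r' - r) (h : Wand N m k T r) : Wand N m k T r' := by
  intro x hx q hq hT
  refine h x ?_ q hq ?_
  · have h1 : x - r = (x - r') + (r' - r) := by ring
    rw [h1]
    exact dvd_add hx hr
  · have h1 : (T ^ q) x - r = ((T ^ q) x - r') + (r' - r) := by ring
    rw [h1]
    exact dvd_add hT hr

private theorem lm2_cont (hm : 0 < m) {k : ℕ} {h : Equiv.Perm ℤ} (hh : Aff N m k h) (L : ℕ) {n n' : ℤ}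
    (hn : ((N * m ^ k * (m ^ k * L) : ℕ) : ℤ) ∣ n' - n) : (L : ℤ) ∣ h n' - h n := by
  obtain ⟨u, v, _, hv, ht⟩ := hh n
  obtain ⟨t, ht'⟩ := hn
  obtain ⟨w, hw⟩ := hv
  have hn' : n' = n + ((N * m ^ k : ℕ) : ℤ) * (((m ^ k * L : ℕ) : ℤ) * t) := by
    have h1 : n' = n + ((N * m ^ k * (m ^ k * L) : ℕ) : ℤ) * t := by linarith
    rw [h1]
    push_cast
    ring
  have h2 := ht (((m ^ k * L : ℕ) : ℤ) * t)
  rw [← hn'] at h2
  have hmk : 0 < m ^ k := Nat.pow_pos hm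
  have hv0 : 0 < v := by
    rcases Nat.eq_zero_or_pos v with h0 | h0
    · rw [h0, zero_mul] at hw
      omega
    · exact h0
  have h3 : (v : ℤ) * (h n' - h n) =
      (v : ℤ) * ((L : ℤ) * ((u : ℤ) * ((N * m ^ k : ℕ) : ℤ) * ((w : ℤ) * t))) := by
    rw [h2]
    have h4 : ((m ^ k : ℕ) : ℤ) = (v : ℤ) * (w : ℤ) := by rw [hw]; push_cast; ring
    rw [Nat.cast_mul (m ^ k) L, h4]
    ring
  have h5 := mul_left_cancel₀ (by exact_mod_cast hv0.ne') h3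
  rw [h5]
  exact dvd_mul_right _ _

private theorem lm2_dvd_fact {M : ℕ} (hM : 0 < M) {i : ℕ} (hi : M ≤ i) : ((M : ℕ) : ℤ) ∣ ((i ! : ℕ) : ℤ) :=
  Int.natCast_dvd_natCast.2 (Nat.dvd_factorial hM hi)

private theorem lm2_ball {S : Set (Equiv.Perm ℤ)} {n : ℕ} {g : Equiv.Perm ℤ} (hg : g ∈ ball S n) :
    g ∈ Subgroup.closure S := by
  obtain ⟨l, _, h2, rfl⟩ := hg
  refine Subgroup.list_prod_mem _ fun x hx => ?_
  rcases h2 x hx with h | h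
  · exact Subgroup.subset_closure h
  · have h3 := inv_mem (Subgroup.subset_closure h : x⁻¹ ∈ Subgroup.closure S)
    rwa [inv_inv] at h3

/-- the class of `g y` modulo `Q` is eventually constant -/
private theorem lm2_class (hm : 0 < m) (hN : 0 < N) {S : Finset (Equiv.Perm ℤ)}
    (haff : ∀ h ∈ Subgroup.closure (S : Set (Equiv.Perm ℤ)), ∃ k : ℕ, Aff N m k h)
    {y : ℕ → ℤ} (hy : Pro y) {g : Equiv.Perm ℤ} (hg : g ∈ Subgroup.closure (S : Set (Equiv.Perm ℤ)))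
    {L : ℕ} (hL : 0 < L) :
    ∃ I : ℕ, ∀ i : ℕ, I ≤ i → ∀ n : ℤ, ((i ! : ℕ) : ℤ) ∣ n - y i → (L : ℤ) ∣ g n - g (y i) ∧
      (L : ℤ) ∣ g (y i) - g (y I) := by
  obtain ⟨k, hk⟩ := haff g hg
  have hM : 0 < N * m ^ k * (m ^ k * L) :=
    Nat.mul_pos (Nat.mul_pos hN (Nat.pow_pos hm)) (Nat.mul_pos (Nat.pow_pos hm) hL)
  refine ⟨N * m ^ k * (m ^ k * L), fun i hi n hn => ⟨?_, ?_⟩⟩
  · exact lm2_cont hm hk L ((lm2_dvd_fact hM hi).trans hn)
  · exact lm2_cont hm hk L ((lm2_dvd_fact hM le_rfl).trans (Pro.coh hy hi))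

/-- counting: some `g` moves `y` to a place where no element of a ball leads to a wandering class -/
private theorem lm2_step (hN : 0 < N) (hm : 0 < m) {S : Finset (Equiv.Perm ℤ)}
    (hexp : NoExp (S : Set (Equiv.Perm ℤ)))
    (haff : ∀ h ∈ Subgroup.closure (S : Set (Equiv.Perm ℤ)), ∃ k : ℕ, Aff N m k h)
    {T : Equiv.Perm ℤ} (hTS : T ∈ Subgroup.closure (S : Set (Equiv.Perm ℤ))) {y : ℕ → ℤ} (hy : Pro y)
    (R : ℕ) :
    ∃ g ∈ Subgroup.closure (S : Set (Equiv.Perm ℤ)), ∃ i : ℕ,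
      (∀ h ∈ ball (S : Set (Equiv.Perm ℤ)) R, ¬ Wand N m R T (h (g (y i)))) ∧
      ∀ n : ℤ, ((i ! : ℕ) : ℤ) ∣ n - y i → ((R ! : ℕ) : ℤ) ∣ g n - g (y i) := by
  have hQ : 0 < N * m ^ R := Nat.mul_pos hN (Nat.pow_pos hm)
  let P : Fin (N * m ^ R) → Set (Equiv.Perm ℤ) := fun c =>
    {g | Wand N m R T ((c : ℕ) : ℤ) ∧ ∀ᶠ i in atTop, ((N * m ^ R : ℕ) : ℤ) ∣ g (y i) - ((c : ℕ) : ℤ)}
  have hw : ∀ c, ∀ g ∈ P c, ∀ q : ℕ, 1 ≤ q → T ^ q * g ∉ P c := by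
    intro c g hg q hq hT
    obtain ⟨i, h1, h2⟩ := (hg.2.and hT.2).exists
    exact hg.1 (g (y i)) h1 q hq h2
  have hncov : ¬ ∀ g ∈ Subgroup.closure (S : Set (Equiv.Perm ℤ)),
      ∃ h ∈ ball (S : Set (Equiv.Perm ℤ)) R, ∃ c, h * g ∈ P c := fun hcov =>
    hexp (exp_of_wandering S.finite_toSet hTS P hw R hcov)
  push Not at hncov
  obtain ⟨g, hg, hgP⟩ := hncov
  have hev : ∀ h ∈ ball (S : Set (Equiv.Perm ℤ)) R, ∀ᶠ i in atTop, ¬ Wand N m R T (h (g (y i))) := by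
    intro h hh
    have hhg : h * g ∈ Subgroup.closure (S : Set (Equiv.Perm ℤ)) := mul_mem (lm2_ball hh) hg
    obtain ⟨I, hI⟩ := lm2_class hm hN haff hy hhg hQ
    have hQ' : (0 : ℤ) < ((N * m ^ R : ℕ) : ℤ) := by exact_mod_cast hQ
    have hc0 := Int.emod_nonneg ((h * g) (y I)) hQ'.ne'
    have hc1 := Int.emod_lt_of_pos ((h * g) (y I)) hQ'
    obtain ⟨c, hc⟩ := Int.eq_ofNat_of_zero_le hc0
    have hcQ : c < N * m ^ R := by
      rw [hc] at hc1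
      exact_mod_cast hc1
    have hcd : ((N * m ^ R : ℕ) : ℤ) ∣ (h * g) (y I) - (c : ℤ) := by
      rw [← hc]
      exact Int.dvd_self_sub_emod
    have hcl : ∀ i : ℕ, I ≤ i → ((N * m ^ R : ℕ) : ℤ) ∣ (h * g) (y i) - (c : ℤ) := by
      intro i hi
      have h1 := (hI i hi (y i) (by rw [sub_self]; exact dvd_zero _)).2
      have h2 : (h * g) (y i) - (c : ℤ) = ((h * g) (y i) - (h * g) (y I)) + ((h * g) (y I) - (c : ℤ)) := by
        ring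
      rw [h2]
      exact dvd_add h1 hcd
    have hnw : ¬ Wand N m R T (c : ℤ) := by
      intro hW
      refine hgP h hh ⟨c, hcQ⟩ ⟨hW, ?_⟩
      exact eventually_atTop.2 ⟨I, hcl⟩
    refine eventually_atTop.2 ⟨I, fun i hi hW => hnw (lm2_wand_congr ?_ hW)⟩
    have h3 := (dvd_neg (a := ((N * m ^ R : ℕ) : ℤ))).2 (hcl i hi)
    rwa [neg_sub] at h3
  have hev2 : ∀ᶠ i in atTop, ∀ h ∈ ball (S : Set (Equiv.Perm ℤ)) R, ¬ Wand N m R T (h (g (y i))) :=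
    (Filter.eventually_all_finite (ball_finite S.finite_toSet R)).2 hev
  obtain ⟨J, hJ⟩ := lm2_class hm hN haff hy hg (Nat.factorial_pos R)
  obtain ⟨i, hi1, hi2⟩ := (hev2.and (eventually_ge_atTop J)).exists
  exact ⟨g, hg, i, hi1, fun n hn => (hJ i hi2 n hn).1⟩

/-- In every orbit closure there is a point all of whose translates lie in no `T`-wandering class. -/
theorem exists_good (hN : 0 < N) (hm : 0 < m) {S : Finset (Equiv.Perm ℤ)}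
    (hexp : NoExp (S : Set (Equiv.Perm ℤ)))
    (haff : ∀ h ∈ Subgroup.closure (S : Set (Equiv.Perm ℤ)), ∃ k : ℕ, Aff N m k h)
    {T : Equiv.Perm ℤ} (hTS : T ∈ Subgroup.closure (S : Set (Equiv.Perm ℤ))) {y : ℕ → ℤ} (hy : Pro y) :
    ∃ z : ℕ → ℤ, Pro z ∧ Clo (Subgroup.closure (S : Set (Equiv.Perm ℤ))) y z ∧
      ∀ g ∈ Subgroup.closure (S : Set (Equiv.Perm ℤ)), ∀ k : ℕ, ∃ i : ℕ, ∀ n : ℤ,
        ((i ! : ℕ) : ℤ) ∣ n - z i → ¬ Wand N m k T (g n) := by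
  choose g hg i hi1 hi2 using fun R => lm2_step hN hm hexp haff hTS hy R
  obtain ⟨F, z, hz, hF, hlim⟩ := exists_lim (fun R => g R (y (i R)))
  refine ⟨z, hz, ?_, ?_⟩
  · intro j
    obtain ⟨R, h1, h2⟩ := ((hlim j).and (hF (eventually_ge_atTop j))).exists
    refine ⟨g R, hg R, i R, fun n hn => ?_⟩
    have h3 : ((j ! : ℕ) : ℤ) ∣ g R n - g R (y (i R)) :=
      (Int.natCast_dvd_natCast.2 (Nat.factorial_dvd_factorial h2)).trans (hi2 R n hn)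
    have h4 : g R n - z j = (g R n - g R (y (i R))) + (g R (y (i R)) - z j) := by ring
    rw [h4]
    exact dvd_add h3 h1
  · intro f hf k
    have hQ : 0 < N * m ^ k := Nat.mul_pos hN (Nat.pow_pos hm)
    obtain ⟨k', hk'⟩ := haff f hf
    have hM : 0 < N * m ^ k' * (m ^ k' * (N * m ^ k)) :=
      Nat.mul_pos (Nat.mul_pos hN (Nat.pow_pos hm)) (Nat.mul_pos (Nat.pow_pos hm) hQ)
    obtain ⟨R0, hR0⟩ := mem_ball_of_closure hf
    refine ⟨N * m ^ k' * (m ^ k' * (N * m ^ k)), fun n hn hW => ?_⟩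
    obtain ⟨R, h1, h2⟩ := ((hlim (N * m ^ k' * (m ^ k' * (N * m ^ k)))).and
      (hF (eventually_ge_atTop (max R0 k)))).exists
    have h3 : ((N * m ^ k' * (m ^ k' * (N * m ^ k)) : ℕ) : ℤ) ∣ g R (y (i R)) - n := by
      have h4 : g R (y (i R)) - n = (g R (y (i R)) - z (N * m ^ k' * (m ^ k' * (N * m ^ k)))) -
          (n - z (N * m ^ k' * (m ^ k' * (N * m ^ k)))) := by ring
      rw [h4]
      exact (lm2_dvd_fact hM le_rfl).trans (dvd_sub h1 hn)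
    have h5 := lm2_cont hm hk' (N * m ^ k) h3
    have h6 := lm2_wand_congr h5 hW
    exact hi1 R f (ball_mono ((le_max_left _ _).trans h2) hR0)
      (lm2_wand_mono ((le_max_right _ _).trans h2) h6)
-- END lm2

end Pool.Agent.Uhy
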