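import Pool.Agent.Uhy.Uni
import Pool.Agent.Uhy.Limit

/-!
# Every orbit closure contains an almost periodic point
-/

namespace Pool.Agent.Uhy

open Pool.Agent.CTm Pool.Agent.Grm Pool.Agent.Lgp Filter Nat

/-- uniform continuity of the elements of `CT(ℤ)` -/
theorem ucont {h : Equiv.Perm ℤ} (hh : h ∈ CT) (j : ℕ) : ∃ i : ℕ, j ≤ i ∧ ∀ n n' : ℤ,
    ((i ! : ℕ) : ℤ) ∣ n' - n → ((j ! : ℕ) : ℤ) ∣ h n' - h n := by
  obtain ⟨M, hM, hr⟩ := rcwa_of_CT hh
  refine ⟨M + j, by omega, fun n n' hn => ?_⟩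
  obtain ⟨σ, τ, _, hf⟩ := hr n
  have hd : M * j ! ∣ (M + j) ! :=
    (mul_dvd_mul_right (Nat.dvd_factorial hM le_rfl) (j !)).trans
      (Nat.factorial_mul_factorial_dvd_factorial_add M j)
  obtain ⟨q, hq⟩ := (Int.natCast_dvd_natCast.2 hd).trans hn
  have e1 := hf n (by simp)
  have e2 := hf (n + M) (by simp)
  have e3 := hf n' (by
    rw [hq]
    push_cast
    exact ⟨(j ! : ℕ) * q, by push_cast; ring⟩)
  refine ⟨(h (n + M) - h n) * q, ?_⟩
  have e4 : ((h n' - h n : ℤ) : ℚ) = (((j ! : ℕ) : ℤ) * ((h (n + M) - h n) * q) : ℤ) := by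
    have e5 : ((n' - n : ℤ) : ℚ) = (((M * j ! : ℕ) : ℤ) * q : ℤ) := by rw [hq]
    push_cast at e5 e2 ⊢
    rw [e3, e1, e2]
    linear_combination σ * e5
  exact_mod_cast e4

/-- `h x` lies in the class `r + j! ℤ` -/
def InC (x : ℕ → ℤ) (h : Equiv.Perm ℤ) (r : ℤ) (j : ℕ) : Prop :=
  ∃ i : ℕ, ∀ n : ℤ, ((i ! : ℕ) : ℤ) ∣ n - x i → ((j ! : ℕ) : ℤ) ∣ h n - r

theorem inC_iff {h : Equiv.Perm ℤ} {i j : ℕ}
    (hi : ∀ n n' : ℤ, ((i ! : ℕ) : ℤ) ∣ n' - n → ((j ! : ℕ) : ℤ) ∣ h n' - h n)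
    {x : ℕ → ℤ} (hx : Pro x) (r : ℤ) : InC x h r j ↔ ((j ! : ℕ) : ℤ) ∣ h (x i) - r := by
  constructor
  · rintro ⟨k, hk⟩
    have h1 := hk (x (max i k)) (pro_deep hx (le_max_right i k) (by rw [sub_self]; exact dvd_zero _))
    have h2 := hi (x i) (x (max i k))
      (pro_deep hx (le_max_left i k) (by rw [sub_self]; exact dvd_zero _))
    have e : h (x i) - r = (h (x (max i k)) - r) - (h (x (max i k)) - h (x i)) := by ring
    rw [e]
    exact dvd_sub h1 h2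
  · intro h1
    refine ⟨i, fun n hn => ?_⟩
    have e : h n - r = (h n - h (x i)) + (h (x i) - r) := by ring
    rw [e]
    exact dvd_add (hi _ _ hn) h1

theorem clo_iff {H : Subgroup (Equiv.Perm ℤ)} {x y : ℕ → ℤ} :
    Clo H x y ↔ ∀ j, ∃ h ∈ H, InC x h (y j) j := Iff.rfl

theorem clo_refl {H : Subgroup (Equiv.Perm ℤ)} (x : ℕ → ℤ) : Clo H x x :=
  fun j => ⟨1, one_mem _, j, fun _ hn => hn⟩

/-- limits of sequences of profinite integers -/
theorem exists_lim_pro (u : ℕ → ℕ → ℤ) (hu : ∀ k, Pro (u k)) :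
    ∃ (F : Ultrafilter ℕ) (z : ℕ → ℤ), Pro z ∧ (F : Filter ℕ) ≤ atTop ∧
      ∀ j : ℕ, ∀ᶠ k in F, ((j ! : ℕ) : ℤ) ∣ u k j - z j := by
  obtain ⟨F, z, hz, hF, h⟩ := exists_lim fun k => u k k
  refine ⟨F, z, hz, hF, fun j => ?_⟩
  filter_upwards [h j, hF (eventually_ge_atTop j)] with k h1 h2
  have h3 := Pro.coh (hu k) h2
  have e : u k j - z j = (u k k - z j) - (u k k - u k j) := by ring
  rw [e]
  exact dvd_sub h1 h3

/-- membership in a class passes to the limit -/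
theorem inC_lim {h : Equiv.Perm ℤ} (hh : h ∈ CT) {u : ℕ → ℕ → ℤ} (hu : ∀ k, Pro (u k))
    {F : Ultrafilter ℕ} {z : ℕ → ℤ} (hz : Pro z)
    (hlim : ∀ j : ℕ, ∀ᶠ k in F, ((j ! : ℕ) : ℤ) ∣ u k j - z j) (r : ℤ) (j : ℕ) :
    ∀ᶠ k in F, (InC (u k) h r j ↔ InC z h r j) := by
  obtain ⟨i, _, hi⟩ := ucont hh j
  filter_upwards [hlim i] with k hk
  rw [inC_iff hi (hu k), inC_iff hi hz]
  have h1 := hi _ _ hk
  constructor
  · intro h2
    have e : h (z i) - r = (h (u k i) - r) - (h (u k i) - h (z i)) := by ring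
    rw [e]
    exact dvd_sub h2 h1
  · intro h2
    have e : h (u k i) - r = (h (u k i) - h (z i)) + (h (z i) - r) := by ring
    rw [e]
    exact dvd_add h1 h2

theorem clo_lim {H : Subgroup (Equiv.Perm ℤ)} {x : ℕ → ℤ} {u : ℕ → ℕ → ℤ}
    {F : Ultrafilter ℕ} {z : ℕ → ℤ}
    (hlim : ∀ j : ℕ, ∀ᶠ k in F, ((j ! : ℕ) : ℤ) ∣ u k j - z j)
    (h : ∀ᶠ k in F, Clo H x (u k)) : Clo H x z := by
  intro j
  obtain ⟨k, h1, h2⟩ := ((hlim j).and h).exists
  obtain ⟨g, hg, i, hi⟩ := h2 j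
  refine ⟨g, hg, i, fun n hn => ?_⟩
  have e : g n - z j = (g n - u k j) + (u k j - z j) := by ring
  rw [e]
  exact dvd_add (hi n hn) h1

/-- the image of a profinite integer -/
theorem exists_image {h : Equiv.Perm ℤ} (hh : h ∈ CT) {x : ℕ → ℤ} (hx : Pro x) :
    ∃ y : ℕ → ℤ, Pro y ∧ (∀ j, InC x h (y j) j) ∧
      ∀ (t : Equiv.Perm ℤ), t ∈ CT → ∀ (r : ℤ) (j : ℕ), InC y t r j → InC x (t * h) r j := by
  choose i hij hi using ucont hh
  have hin : ∀ j, InC x h (h (x (i j))) j := fun j => (inC_iff (hi j) hx _).2 (by simp)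
  refine ⟨fun j => h (x (i j)), fun j => ?_, hin, ?_⟩
  · obtain ⟨a, ha⟩ := hin j
    obtain ⟨b, hb⟩ := hin (j + 1)
    have h1 := ha (x (max a b)) (pro_deep hx (le_max_left a b) (by rw [sub_self]; exact dvd_zero _))
    have h2 := hb (x (max a b)) (pro_deep hx (le_max_right a b) (by rw [sub_self]; exact dvd_zero _))
    have h3 : ((j ! : ℕ) : ℤ) ∣ h (x (max a b)) - h (x (i (j + 1))) :=
      (Int.natCast_dvd_natCast.2 (Nat.factorial_dvd_factorial (Nat.le_succ j))).trans h2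
    have e : h (x (i (j + 1))) - h (x (i j)) =
        (h (x (max a b)) - h (x (i j))) - (h (x (max a b)) - h (x (i (j + 1)))) := by ring
    show ((j ! : ℕ) : ℤ) ∣ h (x (i (j + 1))) - h (x (i j))
    rw [e]
    exact dvd_sub h1 h3
  · rintro t _ r j ⟨k, hk⟩
    obtain ⟨a, ha⟩ := hin k
    exact ⟨a, fun n hn => hk (h n) (ha n hn)⟩

/-- every orbit closure contains an almost periodic point -/
theorem exists_almPer (S : Finset (Equiv.Perm ℤ)) (hS : ∀ s ∈ S, s ∈ CT) {x : ℕ → ℤ} (hx : Pro x) :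
    ∃ z : ℕ → ℤ, Pro z ∧ Clo (Subgroup.closure (S : Set (Equiv.Perm ℤ))) x z ∧
      AlmPer (Subgroup.closure (S : Set (Equiv.Perm ℤ))) z := by
  classical
  set H := Subgroup.closure (S : Set (Equiv.Perm ℤ)) with hH
  have hHCT : H ≤ CT := (Subgroup.closure_le _).2 fun s hs => hS s hs
  obtain ⟨c, hc⟩ := exists_surjective_nat (ℤ × ℕ)
  -- the step
  have hstep : ∀ (w : ℕ → ℤ) (n : ℕ), ∃ y : ℕ → ℤ, Pro w → (Pro y ∧ Clo H w y ∧
      ((∃ y', Pro y' ∧ Clo H w y' ∧ ∀ h ∈ H, ¬ InC y' h (c n).1 (c n).2) →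
        ∀ h ∈ H, ¬ InC y h (c n).1 (c n).2)) := by
    intro w n
    by_cases h1 : ∃ y', Pro y' ∧ Clo H w y' ∧ ∀ h ∈ H, ¬ InC y' h (c n).1 (c n).2
    · obtain ⟨y', h2, h3, h4⟩ := h1
      exact ⟨y', fun _ => ⟨h2, h3, fun _ => h4⟩⟩
    · exact ⟨w, fun hw => ⟨hw, clo_refl w, fun h => absurd h h1⟩⟩
  choose f hf using hstep
  let u : ℕ → ℕ → ℤ := fun n => Nat.rec x (fun n w => f w n) n
  have hu0 : u 0 = x := rfl
  have hus : ∀ n, u (n + 1) = f (u n) n := fun n => rfl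
  have huP : ∀ n, Pro (u n) := by
    intro n
    induction n with
    | zero => exact hx
    | succ n ih => rw [hus]; exact (hf _ n ih).1
  have hclo : ∀ n k, n ≤ k → Clo H (u n) (u k) := by
    intro n k hnk
    induction k, hnk using Nat.le_induction with
    | base => exact clo_refl _
    | succ k _ ih =>
      refine clo_trans (huP k) ih ?_
      rw [hus]
      exact (hf _ k (huP k)).2.1
  obtain ⟨F, z, hz, hF, hlim⟩ := exists_lim_pro u huP
  have huz : ∀ n, Clo H (u n) z := fun n => clo_lim hlim (by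
    filter_upwards [hF (eventually_ge_atTop n)] with k hk
    exact hclo n k hk)
  -- minimality
  have hmin : ∀ w, Pro w → Clo H z w → Clo H w z := by
    intro w hw hzw j
    obtain ⟨n, hn⟩ := hc (z j, j)
    by_contra hcon
    have h1 : ∀ h ∈ H, ¬ InC w h (c n).1 (c n).2 := by
      intro h hh hin
      rw [hn] at hin
      exact hcon ⟨h, hh, hin⟩
    have h2 := (hf _ n (huP n)).2.2 ⟨w, hw, clo_trans hz (huz n) hzw, h1⟩
    rw [← hus] at h2
    obtain ⟨h, hh, hin⟩ := huz (n + 1) j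
    exact h2 h hh (by rw [hn]; exact hin)
  refine ⟨z, hz, by have := huz 0; rwa [hu0] at this, ?_⟩
  intro j
  by_contra hcon
  push Not at hcon
  have hbad : ∀ k : ℕ, ∃ g ∈ H, ∀ t ∈ ball (S : Set (Equiv.Perm ℤ)) k, ¬ InC z (t * g) (z j) j := by
    intro k
    have hfin := ball_finite S.finite_toSet k
    obtain ⟨g, hg, h1⟩ := hcon hfin.toFinset (fun t ht =>
      ball_sub_closure _ k ((Set.Finite.mem_toFinset hfin).1 ht))
    refine ⟨g, hg, fun t ht hin => ?_⟩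
    obtain ⟨i, hi⟩ := hin
    obtain ⟨n, hn1, hn2⟩ := h1 t ((Set.Finite.mem_toFinset hfin).2 ht) i
    exact hn2 (hi n hn1)
  choose g hg hgb using hbad
  have himg : ∀ k, ∃ y : ℕ → ℤ, Pro y ∧ (∀ j, InC z (g k) (y j) j) ∧
      ∀ (t : Equiv.Perm ℤ), t ∈ CT → ∀ (r : ℤ) (j : ℕ), InC y t r j → InC z (t * g k) r j :=
    fun k => exists_image (hHCT (hg k)) hz
  choose w hwP hw1 hw2 using himg
  obtain ⟨F', w', hw'P, hF', hlim'⟩ := exists_lim_pro w hwP
  have h3 : Clo H z w' := clo_lim hlim' (Eventually.of_forall fun k j => ⟨g k, hg k, hw1 k j⟩)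
  obtain ⟨t, ht, hin⟩ := hmin w' hw'P h3 j
  obtain ⟨l, hl⟩ := mem_ball_of_closure ht
  have h4 := inC_lim (hHCT ht) hwP hw'P hlim' (z j) j
  obtain ⟨k, h5, h6⟩ := (h4.and (hF' (eventually_ge_atTop l))).exists
  exact hgb k t (ball_mono h6 hl) (hw2 k t (hHCT ht) _ _ (h5.2 hin))

/-- the points of a minimal set are almost periodic -/
theorem almPer_of_clo {H : Subgroup (Equiv.Perm ℤ)} (hHCT : H ≤ CT) {y z : ℕ → ℤ} (hy : Pro y)
    (hz : Pro z) (hap : AlmPer H y) (hyz : Clo H y z) : AlmPer H z := by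
  classical
  intro j
  -- `h y` is in the class of `z` modulo `j!`
  obtain ⟨h, hh, J, hJ⟩ := hyz j
  obtain ⟨F, hF, hF2⟩ := hap J
  refine ⟨F.image fun t => h * t, ?_, fun g hg => ?_⟩
  · intro t ht
    obtain ⟨s, hs, rfl⟩ := Finset.mem_image.1 ht
    exact mul_mem hh (hF s hs)
  -- a common modulus for the `t g`
  have huc : ∀ t ∈ F, ∃ i : ℕ, ∀ n n' : ℤ, ((i ! : ℕ) : ℤ) ∣ n' - n →
      ((J ! : ℕ) : ℤ) ∣ (t * g) n' - (t * g) n := fun t ht => by
    obtain ⟨i, _, hi⟩ := ucont (hHCT (mul_mem (hF t ht) hg)) J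
    exact ⟨i, hi⟩
  choose! I hI using huc
  set K := F.sup I with hK
  obtain ⟨k, hk, i, hi⟩ := hyz K
  obtain ⟨t, ht, i', hi'⟩ := hF2 (g * k) (mul_mem hg hk)
  refine ⟨h * t, Finset.mem_image_of_mem _ ht, K, fun n hn => ?_⟩
  set w := y (max i i') with hw
  have h1 : ((K ! : ℕ) : ℤ) ∣ k w - z K := hi w
    (pro_deep hy (le_max_left i i') (by rw [hw, sub_self]; exact dvd_zero _))
  have h2 : ((J ! : ℕ) : ℤ) ∣ t ((g * k) w) - y J := hi' w
    (pro_deep hy (le_max_right i i') (by rw [hw, sub_self]; exact dvd_zero _))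
  have h3 : (((I t)! : ℕ) : ℤ) ∣ n - k w := by
    have e : n - k w = (n - z K) - (k w - z K) := by ring
    rw [e]
    exact (Int.natCast_dvd_natCast.2 (Nat.factorial_dvd_factorial (Finset.le_sup (f := I) ht))).trans
      (dvd_sub hn h1)
  have h4 := hI t ht (k w) n h3
  have h5 : ((J ! : ℕ) : ℤ) ∣ t (g n) - y J := by
    have e : t (g n) - y J = ((t * g) n - (t * g) (k w)) + (t ((g * k) w) - y J) := by
      simp only [Equiv.Perm.mul_apply]
      ring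
    rw [e]
    exact dvd_add h4 h2
  exact hJ _ h5

end Pool.Agent.Uhy
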