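import Pool.Agent.Uhy.Sat

namespace Pool.Agent.Uhy

open Pool.Agent.CTm Pool.Agent.Grm Pool.Agent.Lgp Filter Nat

variable {N m c : ℕ}

-- BEGIN cl1
private theorem cl1_dvd {j j' : ℕ} (h : j ≤ j') :
    ((N * m ^ j : ℕ) : ℤ) ∣ ((N * m ^ j' : ℕ) : ℤ) :=
  Int.natCast_dvd_natCast.2 (mul_dvd_mul_left _ (pow_dvd_pow _ h))

/-- `h` is the identity on a class around `n` -/
private def cl1_Near (N m : ℕ) (n : ℤ) (h : Equiv.Perm ℤ) : Prop :=
  ∃ j : ℕ, ∀ n' : ℤ, ((N * m ^ j : ℕ) : ℤ) ∣ n' - n → h n' = n'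

private theorem cl1_mul {n : ℤ} {a b : Equiv.Perm ℤ} (ha : cl1_Near N m n a) (hb : cl1_Near N m n b) :
    cl1_Near N m n (a * b) := by
  obtain ⟨i, hi⟩ := ha
  obtain ⟨j, hj⟩ := hb
  refine ⟨max i j, fun n' hn' => ?_⟩
  show a (b n') = n'
  rw [hj n' ((cl1_dvd (le_max_right i j)).trans hn'), hi n' ((cl1_dvd (le_max_left i j)).trans hn')]

/-- the elements which are the identity near `n` -/
private def cl1_K (N m : ℕ) (n : ℤ) : Subgroup (Equiv.Perm ℤ) where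
  carrier := {h | cl1_Near N m n h}
  one_mem' := ⟨0, fun _ _ => rfl⟩
  mul_mem' := fun ha hb => cl1_mul ha hb
  inv_mem' := by
    rintro a ⟨i, hi⟩
    refine ⟨i, fun n' hn' => ?_⟩
    calc a⁻¹ n' = a⁻¹ (a n') := by rw [hi n' hn']
      _ = n' := a.symm_apply_apply n'

private theorem cl1_mem {n : ℤ} {h : Equiv.Perm ℤ} : h ∈ cl1_K N m n ↔ cl1_Near N m n h := Iff.rfl

private theorem cl1_class (hN : 0 < N) (hm : 0 < m) {k : ℕ} {h : Equiv.Perm ℤ} (hh : Aff N m k h) {n : ℤ}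
    (hn : cl1_Near N m n h) {n' : ℤ} (hn' : ((N * m ^ k : ℕ) : ℤ) ∣ n' - n) : cl1_Near N m n' h := by
  obtain ⟨j, hj⟩ := hn
  have hM : (0 : ℤ) < ((N * m ^ j : ℕ) : ℤ) := by
    have : 0 < N * m ^ j := by positivity
    exact_mod_cast this
  refine ⟨k, fun n'' hn'' => ?_⟩
  have h1 : ((N * m ^ k : ℕ) : ℤ) ∣ n'' - n := by
    have h2 : n'' - n = (n'' - n') + (n' - n) := by ring
    rw [h2]
    exact dvd_add hn'' hn'
  obtain ⟨t, ht⟩ := h1
  have h3 := Aff.id_class hN hm hh hM (n := n) (fun t => hj _ ⟨t, by ring⟩) t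
  have h4 : n'' = n + ((N * m ^ k : ℕ) : ℤ) * t := by rw [← ht]; ring
  rw [h4]
  exact h3

private theorem cl1_conj (hm : 0 < m) {k : ℕ} {g : Equiv.Perm ℤ} (hg : Aff N m k g) {h : Equiv.Perm ℤ} {n : ℤ}
    (hh : cl1_Near N m (g n) h) : cl1_Near N m n (g⁻¹ * h * g) := by
  obtain ⟨j, hj⟩ := hh
  refine ⟨k + j, fun n' hn' => ?_⟩
  show g⁻¹ (h (g n')) = n'
  rw [hj (g n') (Aff.cont hm hg hn')]
  exact g.symm_apply_apply n'

/-- Milnor: the set `A` of the `n` such that `f` is the identity near `g^i n` for all `i` is a periodic set, and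
membership can be tested with finitely many `i`. -/
theorem exists_inv_set (hN : 0 < N) (hm : 0 < m) {S : Finset (Equiv.Perm ℤ)}
    (hexp : NoExp (S : Set (Equiv.Perm ℤ)))
    (haff : ∀ h ∈ Subgroup.closure (S : Set (Equiv.Perm ℤ)), ∃ k : ℕ, Aff N m k h)
    {f g : Equiv.Perm ℤ} (hf : f ∈ Subgroup.closure (S : Set (Equiv.Perm ℤ)))
    (hg : g ∈ Subgroup.closure (S : Set (Equiv.Perm ℤ))) :
    ∃ (A : Set ℤ) (k I : ℕ), (∀ n ∈ A, ∀ n' : ℤ, ((N * m ^ k : ℕ) : ℤ) ∣ n' - n → n' ∈ A) ∧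
      (∀ n, g n ∈ A ↔ n ∈ A) ∧ (∀ n ∈ A, f n = n) ∧
      ∀ n : ℤ, ∀ j : ℕ, (∀ i : ℤ, |i| ≤ I → ∀ t : ℤ,
        f ((g ^ i) n + ((N * m ^ j : ℕ) : ℤ) * t) = (g ^ i) n + ((N * m ^ j : ℕ) : ℤ) * t) → n ∈ A := by
  classical
  obtain ⟨E, hE, hE1, hE2⟩ := conj_fg S.finite_toSet hexp {f} (Set.finite_singleton f)
    (by
      intro x hx
      rw [Set.mem_singleton_iff] at hx
      rw [hx]
      exact hf) hg
  have hE1' : ∀ y ∈ E, ∃ i : ℤ, y = g ^ i * f * (g ^ i)⁻¹ := by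
    intro y hy
    obtain ⟨f', hf', i, hi⟩ := hE1 y hy
    rw [Set.mem_singleton_iff] at hf'
    rw [hf'] at hi
    exact ⟨i, hi⟩
  have hE2' : ∀ i : ℤ, g ^ i * f * (g ^ i)⁻¹ ∈ Subgroup.closure E := hE2 f rfl
  choose! e he using hE1'
  have hgH : ∀ i : ℤ, g ^ i ∈ Subgroup.closure (S : Set (Equiv.Perm ℤ)) := fun i => zpow_mem hg i
  have hEH : ∀ y ∈ E, y ∈ Subgroup.closure (S : Set (Equiv.Perm ℤ)) := by
    intro y hy
    rw [he y hy]
    exact mul_mem (mul_mem (hgH _) hf) (inv_mem (hgH _))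
  choose! lev hlev using haff
  -- the two descriptions of the set
  have hA : ∀ n : ℤ, (∀ i : ℤ, cl1_Near N m ((g ^ i) n) f) ↔ ∀ y ∈ E, cl1_Near N m n y := by
    intro n
    constructor
    · intro h y hy
      have h1 := cl1_conj hm (hlev _ (hgH (-e y))) (h (-e y))
      have h2 : (g ^ (-e y))⁻¹ * f * g ^ (-e y) = y := by
        have h6 := he y hy
        rw [zpow_neg, inv_inv]
        exact h6.symm
      rwa [h2] at h1
    · intro h i
      have h1 : Subgroup.closure E ≤ cl1_K N m n := by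
        rw [Subgroup.closure_le]
        exact h
      have h2 : cl1_Near N m n (g ^ (-i) * f * (g ^ (-i))⁻¹) := h1 (hE2' (-i))
      have h3 : (g ^ (-i)) ((g ^ i) n) = n := by
        rw [← Equiv.Perm.mul_apply, ← zpow_add]
        simp
      rw [← h3] at h2
      have h4 := cl1_conj hm (hlev _ (hgH (-i))) h2
      have h5 : (g ^ (-i))⁻¹ * (g ^ (-i) * f * (g ^ (-i))⁻¹) * g ^ (-i) = f := by group
      rwa [h5] at h4
  refine ⟨{n | ∀ i : ℤ, cl1_Near N m ((g ^ i) n) f}, hE.toFinset.sup lev, hE.toFinset.sup (fun y => (e y).natAbs),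
    ?_, ?_, ?_, ?_⟩
  · intro n hn n' hn'
    have h1 := (hA n).1 hn
    refine (hA n').2 fun y hy => ?_
    refine cl1_class hN hm (hlev y (hEH y hy)) (h1 y hy) ?_
    exact (cl1_dvd (Finset.le_sup (f := lev) (hE.mem_toFinset.2 hy))).trans hn'
  · intro n
    constructor
    · intro h i
      have h1 := h (i - 1)
      have h2 : (g ^ (i - 1)) (g n) = (g ^ i) n := by
        rw [← Equiv.Perm.mul_apply, ← zpow_add_one, sub_add_cancel]
      rwa [h2] at h1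
    · intro h i
      have h1 := h (i + 1)
      have h2 : (g ^ i) (g n) = (g ^ (i + 1)) n := by
        rw [← Equiv.Perm.mul_apply, ← zpow_add_one]
      show cl1_Near N m ((g ^ i) (g n)) f
      rwa [h2]
  · intro n hn
    obtain ⟨j, hj⟩ := hn 0
    exact hj n (by simp)
  · intro n j h
    refine (hA n).2 fun y hy => ?_
    have h0 : |(-e y)| ≤ ((hE.toFinset.sup (fun y => (e y).natAbs) : ℕ) : ℤ) := by
      rw [abs_neg, Int.abs_eq_natAbs]
      exact_mod_cast Finset.le_sup (f := fun y => (e y).natAbs) (hE.mem_toFinset.2 hy)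
    have h1 := h (-e y) h0
    have h2 : cl1_Near N m ((g ^ (-e y)) n) f := by
      refine ⟨j, fun n' hn' => ?_⟩
      obtain ⟨t, ht⟩ := hn'
      have h3 : n' = (g ^ (-e y)) n + ((N * m ^ j : ℕ) : ℤ) * t := by rw [← ht]; ring
      rw [h3]
      exact h1 t
    have h4 := cl1_conj hm (hlev _ (hgH (-e y))) h2
    have h5 : (g ^ (-e y))⁻¹ * f * g ^ (-e y) = y := by
      have h6 := he y hy
      rw [zpow_neg, inv_inv]
      exact h6.symm
    rwa [h5] at h4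
-- END cl1

-- BEGIN cl2
private theorem cl2_iter (hN : 0 < N) (hm : 0 < m) {T : Equiv.Perm ℤ} (hT : Aff N m c T)
    {a b : ℕ} (hab : a * b = m) (hcop : Nat.Coprime a b) {x : ℤ} (hp : Pat T a b x) (i : ℕ) :
    ∃ U V : ℕ, (1 ≤ i → a ∣ U) ∧ (∃ e, U ∣ a ^ e) ∧ (1 ≤ i → b ∣ V) ∧ (∃ e, V ∣ b ^ e) ∧ ∀ t : ℤ,
      (T ^ i) (x + ((N * m ^ c : ℕ) : ℤ) * (V * t)) = (T ^ i) x + U * (((N * m ^ c : ℕ) : ℤ) * t) := by
  induction i with
  | zero => exact ⟨1, 1, by omega, ⟨0, by simp⟩, by omega, ⟨0, by simp⟩, fun t => by simp⟩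
  | succ i ih =>
    obtain ⟨U, V, _, ⟨e1, h2⟩, _, ⟨e2, h4⟩, h5⟩ := ih
    obtain ⟨u, v, h6, h7, h8, h9, h10⟩ := exists_pat hN hm hT hab hcop hp (i : ℤ)
    have hv0 : (v : ℤ) ≠ 0 := by
      have hb : 0 < b := Nat.pos_of_ne_zero fun h => by rw [h, Nat.mul_zero] at hab; omega
      exact_mod_cast (Nat.pos_of_dvd_of_pos h9 (Nat.pow_pos hb)).ne'
    refine ⟨u * U, V * v, fun _ => h6.mul_right U, ⟨c + e1, ?_⟩, fun _ => h8.mul_left V, ⟨e2 + c, ?_⟩,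
      fun t => ?_⟩
    · rw [pow_add]; exact mul_dvd_mul h7 h2
    · rw [pow_add]; exact mul_dvd_mul h4 h9
    · have e3 := h5 (v * t)
      have e4 : x + ((N * m ^ c : ℕ) : ℤ) * (((V * v : ℕ) : ℤ) * t) =
          x + ((N * m ^ c : ℕ) : ℤ) * (V * (v * t)) := by push_cast; ring
      rw [e4, _root_.pow_succ', Equiv.Perm.mul_apply, Equiv.Perm.mul_apply, e3]
      have e5 := h10 (U * (v * t))
      rw [zpow_natCast] at e5
      have e6 : (T ^ i) x + U * (((N * m ^ c : ℕ) : ℤ) * (v * t)) =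
          (T ^ i) x + ((N * m ^ c : ℕ) : ℤ) * (U * (v * t)) := by ring
      rw [e6]
      refine mul_left_cancel₀ hv0 ?_
      push_cast at e5 ⊢
      linear_combination e5

/-- the almost periodic point: an approximate fixed point of `T^q` -/
theorem exists_fix (hN : 0 < N) (hm : 0 < m) {T : Equiv.Perm ℤ} (hT : Aff N m c T)
    {a b : ℕ} (hab : a * b = m) (hcop : Nat.Coprime a b) {x : ℤ} (hp : Pat T a b x)
    {j : ℕ} (hj : c ≤ j) {q : ℕ} (hq : 1 ≤ q) (hx : ((N * m ^ j : ℕ) : ℤ) ∣ (T ^ q) x - x) (K : ℕ) :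
    ∃ y : ℤ, ((N * m ^ j : ℕ) : ℤ) ∣ y - x ∧ ((N * m ^ (j + K) : ℕ) : ℤ) ∣ (T ^ q) y - y := by
  obtain ⟨U, V, h1, ⟨e1, h2⟩, h3, ⟨e2, h4⟩, h5⟩ := cl2_iter hN hm hT hab hcop hp q
  have hcopz : IsCoprime (a : ℤ) (b : ℤ) := Nat.isCoprime_iff_coprime.2 hcop
  have hUa : (a : ℤ) ∣ (U : ℤ) := by exact_mod_cast h1 hq
  have hVb : (b : ℤ) ∣ (V : ℤ) := by exact_mod_cast h3 hq
  have hU : (U : ℤ) ∣ (a : ℤ) ^ e1 := by exact_mod_cast h2
  have hV : (V : ℤ) ∣ (b : ℤ) ^ e2 := by exact_mod_cast h4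
  have c1 : IsCoprime ((V : ℤ) - U) (a : ℤ) := by
    obtain ⟨r, hr⟩ := hUa
    have hc : IsCoprime (V : ℤ) (a : ℤ) :=
      (IsCoprime.of_isCoprime_of_dvd_right (hcopz.pow_right (n := e2)) hV).symm
    have h : (V : ℤ) - U = V + a * (-r) := by rw [hr]; ring
    rw [h]
    exact hc.add_mul_left_left (-r)
  have c2 : IsCoprime ((V : ℤ) - U) (b : ℤ) := by
    obtain ⟨r, hr⟩ := hVb
    have hc : IsCoprime (U : ℤ) (b : ℤ) :=
      IsCoprime.of_isCoprime_of_dvd_left (hcopz.pow_left (m := e1)) hU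
    have h : (V : ℤ) - U = -U + b * r := by rw [hr]; ring
    rw [h]
    exact hc.neg_left.add_mul_left_left r
  have c3 : IsCoprime ((V : ℤ) - U) ((m : ℤ) ^ K) := by
    have h : (m : ℤ) = a * b := by rw [← hab]; push_cast; ring
    rw [h]
    exact (c1.mul_right c2).pow_right
  obtain ⟨w, z, hwz⟩ := c3
  obtain ⟨d, hd⟩ := hx
  have hQ : ((N * m ^ j : ℕ) : ℤ) = ((N * m ^ c : ℕ) : ℤ) * (m : ℤ) ^ (j - c) := by
    push_cast
    rw [mul_assoc, ← pow_add, Nat.add_sub_cancel' hj]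
  refine ⟨x + ((N * m ^ j : ℕ) : ℤ) * (d * V * w), ⟨d * V * w, by ring⟩, d * z, ?_⟩
  have h6 := h5 ((m : ℤ) ^ (j - c) * d * w)
  have h7 : x + ((N * m ^ c : ℕ) : ℤ) * (V * ((m : ℤ) ^ (j - c) * d * w)) =
      x + ((N * m ^ j : ℕ) : ℤ) * (d * V * w) := by rw [hQ]; ring
  rw [h7] at h6
  rw [h6]
  have h8 : ((N * m ^ (j + K) : ℕ) : ℤ) = ((N * m ^ j : ℕ) : ℤ) * (m : ℤ) ^ K := by
    push_cast
    rw [pow_add]
    ring
  have h9 : (U : ℤ) * (((N * m ^ c : ℕ) : ℤ) * ((m : ℤ) ^ (j - c) * d * w)) =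
      ((N * m ^ j : ℕ) : ℤ) * (U * d * w) := by rw [hQ]; ring
  rw [h8, h9]
  linear_combination hd - ((N * m ^ j : ℕ) : ℤ) * d * hwz
-- END cl2

-- BEGIN cl3
/-- CLOSING -/
theorem closing (hN : 0 < N) (hm : 2 ≤ m) (hsq : Squarefree m) {S : Finset (Equiv.Perm ℤ)}
    (hexp : NoExp (S : Set (Equiv.Perm ℤ)))
    (haff : ∀ h ∈ Subgroup.closure (S : Set (Equiv.Perm ℤ)), ∃ k : ℕ, Aff N m k h)
    {f T : Equiv.Perm ℤ} (hf : f ∈ Subgroup.closure (S : Set (Equiv.Perm ℤ)))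
    (hTS : T ∈ Subgroup.closure (S : Set (Equiv.Perm ℤ)))
    (hT : Aff N m c T) (hT' : Aff N m c T⁻¹) {Y : Set ℤ}
    (hY : ∀ n ∈ Y, ∀ n' : ℤ, ((N * m ^ c : ℕ) : ℤ) ∣ n' - n → n' ∈ Y)
    (hyp : ∀ n ∈ Y, HypAt m T n) {j : ℕ} (hj : c ≤ j) {x : ℤ} (hxY : x ∈ Y)
    (hfix : ∀ t : ℤ, f (x + ((N * m ^ j : ℕ) : ℤ) * t) = x + ((N * m ^ j : ℕ) : ℤ) * t)
    (hw : ¬ Wand N m j T x) (t : ℤ) :
    f (x + ((N * m ^ c : ℕ) : ℤ) * t) = x + ((N * m ^ c : ℕ) : ℤ) * t := by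
  have hm0 : 0 < m := by omega
  have hcj : ((N * m ^ c : ℕ) : ℤ) ∣ ((N * m ^ j : ℕ) : ℤ) := by
    exact_mod_cast Nat.mul_dvd_mul_left N (pow_dvd_pow m hj)
  unfold Wand at hw
  push Not at hw
  obtain ⟨x', hx', q, hq, hqx⟩ := hw
  have hx'Y : x' ∈ Y := hY x hxY x' (hcj.trans hx')
  obtain ⟨a, b, hab, hp⟩ := hyp x' hx'Y
  have hcop : Nat.Coprime a b := Nat.coprime_of_squarefree_mul (hab ▸ hsq)
  have hTq : T ^ q ∈ Subgroup.closure (S : Set (Equiv.Perm ℤ)) := pow_mem hTS q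
  obtain ⟨A, k, I, hA1, hA2, hA3, hA4⟩ := exists_inv_set hN hm0 hexp haff hf hTq
  have hki : ∀ i : ℤ, ∃ k : ℕ, Aff N m k ((T ^ q) ^ i) := fun i => haff _ (zpow_mem hTq i)
  choose kk hkk using hki
  obtain ⟨K, hK⟩ : ∃ K : ℕ, ∀ i : ℤ, |i| ≤ I → kk i ≤ K := by
    refine ⟨(Finset.Icc (-(I : ℤ)) I).sup kk, fun i hi => ?_⟩
    exact Finset.le_sup (f := kk) (Finset.mem_Icc.2 (abs_le.1 hi))
  have hqx' : ((N * m ^ j : ℕ) : ℤ) ∣ (T ^ q) x' - x' := by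
    have h1 := dvd_sub hqx hx'
    rwa [sub_sub_sub_cancel_right] at h1
  obtain ⟨y, hy1, hy2⟩ := exists_fix hN hm0 hT hab hcop hp hj hq hqx' K
  have hstep : ∀ i : ℤ, |i| ≤ I →
      ((N * m ^ j : ℕ) : ℤ) ∣ ((T ^ q) ^ i) ((T ^ q) y) - ((T ^ q) ^ i) y := by
    intro i hi
    refine (hkk i).cont hm0 (dvd_trans ?_ hy2)
    have h1 : kk i + j ≤ j + K := by
      have := hK i hi
      omega
    exact_mod_cast Nat.mul_dvd_mul_left N (pow_dvd_pow m h1)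
  have hpos : ∀ n : ℕ, n ≤ I → ((N * m ^ j : ℕ) : ℤ) ∣ ((T ^ q) ^ (n : ℤ)) y - y := by
    intro n
    induction n with
    | zero => intro _; simp
    | succ n ih =>
      intro hn
      have h1 := ih (by omega)
      have h2 := hstep n (by rw [abs_of_nonneg (by positivity)]; exact_mod_cast (by omega : n ≤ I))
      have h3 : ((T ^ q) ^ ((n + 1 : ℕ) : ℤ)) y = ((T ^ q) ^ (n : ℤ)) ((T ^ q) y) := by
        rw [Nat.cast_succ, zpow_add_one, Equiv.Perm.mul_apply]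
      rw [h3]
      have h4 := dvd_add h2 h1
      rwa [sub_add_sub_cancel] at h4
  have hneg : ∀ n : ℕ, n ≤ I → ((N * m ^ j : ℕ) : ℤ) ∣ ((T ^ q) ^ (-(n : ℤ))) y - y := by
    intro n
    induction n with
    | zero => intro _; simp
    | succ n ih =>
      intro hn
      have h1 := ih (by omega)
      have h2 := hstep (-((n + 1 : ℕ) : ℤ)) (by
        rw [abs_neg, abs_of_nonneg (by positivity)]
        exact_mod_cast hn)
      have h3 : ((T ^ q) ^ (-((n + 1 : ℕ) : ℤ))) ((T ^ q) y) = ((T ^ q) ^ (-(n : ℤ))) y := by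
        rw [← Equiv.Perm.mul_apply, ← zpow_add_one]
        congr 2
        push_cast
        ring
      rw [h3] at h2
      have h4 := dvd_sub h1 h2
      rwa [sub_sub_sub_cancel_left] at h4
  have hall : ∀ i : ℤ, |i| ≤ I → ((N * m ^ j : ℕ) : ℤ) ∣ ((T ^ q) ^ i) y - y := by
    intro i hi
    rcases Int.natAbs_eq i with h1 | h1
    · rw [h1]
      refine hpos _ ?_
      have := hi
      rw [Int.abs_eq_natAbs] at this
      exact_mod_cast this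
    · rw [h1]
      refine hneg _ ?_
      have := hi
      rw [Int.abs_eq_natAbs] at this
      exact_mod_cast this
  have hyA : y ∈ A := by
    refine hA4 y j fun i hi s => ?_
    obtain ⟨s1, hs1⟩ := hall i hi
    obtain ⟨s2, hs2⟩ := hy1
    obtain ⟨s3, hs3⟩ := hx'
    have h1 : ((T ^ q) ^ i) y + ((N * m ^ j : ℕ) : ℤ) * s =
        x + ((N * m ^ j : ℕ) : ℤ) * (s1 + s2 + s3 + s) := by
      linear_combination hs1 + hs2 + hs3
    rw [h1]
    exact hfix _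
  have hyY : y ∈ Y := hY x' hx'Y y (hcj.trans hy1)
  have hxy : ((N * m ^ c : ℕ) : ℤ) ∣ (x + ((N * m ^ c : ℕ) : ℤ) * t) - y := by
    have h1 : (x + ((N * m ^ c : ℕ) : ℤ) * t) - y =
        ((N * m ^ c : ℕ) : ℤ) * t - (x' - x) - (y - x') := by ring
    rw [h1]
    exact dvd_sub (dvd_sub (dvd_mul_right _ _) (hcj.trans hx')) (hcj.trans hy1)
  exact hA3 _ (saturation hN hm hsq hT hT' hY hyp hA1 hq hA2 hyY hxy hyA)
-- END cl3

end Pool.Agent.Uhy
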