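import Pool.Agent.Uhy.Fin
import Pool.Agent.Lgp.Core

/-!
# The local-global principle with polynomial quotients
-/

namespace Pool.Agent.Uhy

open Pool.Agent.CTm Pool.Agent.Grm Pool.Agent.Lgp Filter Nat

/-- a normal subgroup with polynomial coset growth is trivial on the class `r + j! ℤ` -/
def Gd (S : Finset (Equiv.Perm ℤ)) (r : ℤ) (j : ℕ) : Prop :=
  ∃ V : Subgroup (Equiv.Perm ℤ),
    (∀ g ∈ Subgroup.closure (S : Set (Equiv.Perm ℤ)), ∀ v ∈ V, g * v * g⁻¹ ∈ V) ∧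
    PolyQ (S : Set (Equiv.Perm ℤ)) V ∧ ∀ v ∈ V, ∀ n : ℤ, ((j ! : ℕ) : ℤ) ∣ n - r → v n = n

-- BEGIN gd1
theorem gd1_normal {H L : Subgroup (Equiv.Perm ℤ)} (hLn : ∀ h ∈ H, ∀ l ∈ L, h * l * h⁻¹ ∈ L) :
    ∀ g ∈ H, ∀ v ∈ Subgroup.closure {v : Equiv.Perm ℤ | ∃ a ∈ L, ∃ b ∈ L, v = a * b * a⁻¹ * b⁻¹},
      g * v * g⁻¹ ∈
        Subgroup.closure {v : Equiv.Perm ℤ | ∃ a ∈ L, ∃ b ∈ L, v = a * b * a⁻¹ * b⁻¹} := by
  intro g hg v hv
  induction hv using Subgroup.closure_induction with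
  | mem v hv =>
    obtain ⟨a, ha, b, hb, rfl⟩ := hv
    apply Subgroup.subset_closure
    refine ⟨g * a * g⁻¹, hLn g hg a ha, g * b * g⁻¹, hLn g hg b hb, ?_⟩
    group
  | one =>
    rw [mul_one, mul_inv_cancel]
    exact one_mem _
  | mul a b _ _ ha hb =>
    have e1 : g * (a * b) * g⁻¹ = (g * a * g⁻¹) * (g * b * g⁻¹) := by group
    rw [e1]
    exact mul_mem ha hb
  | inv a _ ha =>
    have e1 : g * a⁻¹ * g⁻¹ = (g * a * g⁻¹)⁻¹ := by group
    rw [e1]
    exact inv_mem ha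

/-- from a virtually abelian groupoid of germs -/
theorem gd_of_good (S : Finset (Equiv.Perm ℤ)) {r : ℤ} {j : ℕ}
    (h : Good (Subgroup.closure (S : Set (Equiv.Perm ℤ))) r j) : Gd S r j := by
  obtain ⟨K, hKH, hfi, hK⟩ := h
  obtain ⟨L, hLK, hLH, hLfi, hLn⟩ := exists_core hfi
  refine ⟨Subgroup.closure {v | ∃ a ∈ L, ∃ b ∈ L, v = a * b * a⁻¹ * b⁻¹}, ?_, ?_, ?_⟩
  · exact gd1_normal hLn
  · refine polyQ_of_virtAb S hLH hLfi ?_ (gd1_normal hLn) ?_
    · rw [Subgroup.closure_le]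
      rintro v ⟨a, ha, b, hb, rfl⟩
      exact mul_mem (mul_mem (mul_mem ha hb) (inv_mem ha)) (inv_mem hb)
    · intro a ha b hb
      exact Subgroup.subset_closure ⟨a, ha, b, hb, rfl⟩
  · intro v hv
    induction hv using Subgroup.closure_induction with
    | mem v hv =>
      obtain ⟨a, ha, b, hb, rfl⟩ := hv
      exact hK a (hLK ha) b (hLK hb)
    | one => intro n _; rfl
    | mul a b _ _ ha hb =>
      intro n hn
      show a (b n) = n
      rw [hb n hn, ha n hn]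
    | inv a _ ha =>
      intro n hn
      have h1 := ha n hn
      calc a⁻¹ n = a⁻¹ (a n) := by rw [h1]
        _ = n := a.symm_apply_apply n
-- END gd1

-- BEGIN gd2
private theorem gd2_top {G : Type*} [Group G] (S : Set G) : PolyQ S (⊤ : Subgroup G) := by
  refine ⟨1, 0, fun n _ => ?_⟩
  have : Subsingleton (G ⧸ (⊤ : Subgroup G)) := QuotientGroup.subsingleton_quotient_top
  rw [pow_zero, mul_one]
  exact Set.ncard_le_one_of_subsingleton _

private theorem gd2_step (S : Finset (Equiv.Perm ℤ)) {r : ℤ} {j : ℕ}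
    (h : ∀ k ∈ Finset.range (j + 1), Gd S (r + ((j ! : ℕ) : ℤ) * k) (j + 1)) : Gd S r j := by
  classical
  unfold Gd at h
  choose! V h1 h2 h3 using h
  refine ⟨(Finset.range (j + 1)).inf V, ?_, ?_, ?_⟩
  · intro g hg v hv
    rw [Finset.inf_eq_iInf] at hv ⊢
    simp only [Subgroup.mem_iInf] at hv ⊢
    exact fun k hk => h1 k hk g hg v (hv k hk)
  · have key : ∀ T ⊆ Finset.range (j + 1), PolyQ (S : Set (Equiv.Perm ℤ)) (T.inf V) := by
      intro T
      induction T using Finset.induction_on with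
      | empty =>
        intro _
        rw [Finset.inf_empty]
        exact gd2_top _
      | insert a T _ ih =>
        intro hsub
        rw [Finset.inf_insert]
        exact polyQ_inf S (h2 a (hsub (Finset.mem_insert_self _ _)))
          (ih ((Finset.subset_insert _ _).trans hsub))
    exact key _ (Finset.Subset.refl _)
  · intro v hv n hn
    -- the class of `n`
    obtain ⟨q, hq⟩ := hn
    have hj1 : (0 : ℤ) < ((j + 1 : ℕ) : ℤ) := by positivity
    have hk : (q % ((j + 1 : ℕ) : ℤ)).toNat ∈ Finset.range (j + 1) := by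
      rw [Finset.mem_range]
      have h4 := Int.emod_lt_of_pos q hj1
      have h5 := Int.emod_nonneg q hj1.ne'
      omega
    have hkc : (((q % ((j + 1 : ℕ) : ℤ)).toNat : ℕ) : ℤ) = q % ((j + 1 : ℕ) : ℤ) :=
      Int.toNat_of_nonneg (Int.emod_nonneg q hj1.ne')
    refine h3 _ hk v ((Finset.inf_le hk : (Finset.range (j + 1)).inf V ≤ _) hv) n ?_
    rw [hkc, Nat.factorial_succ]
    refine ⟨q / ((j + 1 : ℕ) : ℤ), ?_⟩
    have h6 := Int.emod_add_mul_ediv q ((j + 1 : ℕ) : ℤ)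
    push_cast at h6 ⊢
    linear_combination hq - ((j ! : ℕ) : ℤ) * h6

/-- compactness (proof: `Lgp.good_step`, `Lgp.good_zero`) -/
theorem gd_zero (S : Finset (Equiv.Perm ℤ))
    (h : ∀ x : ℕ → ℤ, Pro x → ∃ i : ℕ, Gd S (x i) i) : Gd S 0 0 := by
  classical
  by_contra h0
  have hstep : ∀ (j : ℕ) (r : ℤ), ¬ Gd S r j → ∃ k : ℕ, ¬ Gd S (r + ((j ! : ℕ) : ℤ) * k) (j + 1) := by
    intro j r hr
    by_contra h1
    push Not at h1
    exact hr (gd2_step S fun k _ => h1 k)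
  choose! f hf using hstep
  let x : ℕ → ℤ := fun j => Nat.rec 0 (fun j r => r + ((j ! : ℕ) : ℤ) * f j r) j
  have hx0 : x 0 = 0 := rfl
  have hxs : ∀ j, x (j + 1) = x j + ((j ! : ℕ) : ℤ) * f j (x j) := fun j => rfl
  have hx : Pro x := by
    intro j
    rw [hxs]
    exact ⟨f j (x j), by ring⟩
  have hbad : ∀ j, ¬ Gd S (x j) j := by
    intro j
    induction j with
    | zero => rw [hx0]; exact h0
    | succ j ih =>
      rw [hxs]
      exact hf j (x j) ih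
  obtain ⟨i, hi⟩ := h x hx
  exact hbad i hi

theorem growth_of_gd (S : Finset (Equiv.Perm ℤ)) (h : Gd S 0 0) :
    ∃ C d : ℕ, ∀ n : ℕ, 1 ≤ n → growth (S : Set (Equiv.Perm ℤ)) n ≤ C * n ^ d := by
  obtain ⟨V, _, h2, h3⟩ := h
  refine growth_of_polyQ_bot S (polyQ_mono S ?_ h2)
  intro v hv
  rw [Subgroup.mem_bot]
  ext n
  exact h3 v hv n (by simp)
-- END gd2

-- BEGIN gd3
/-- transport along the closure of an orbit -/
theorem gd_of_clo (S : Finset (Equiv.Perm ℤ)) {x z : ℕ → ℤ}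
    (hxz : Clo (Subgroup.closure (S : Set (Equiv.Perm ℤ))) x z) {j : ℕ} (h : Gd S (z j) j) :
    ∃ i : ℕ, Gd S (x i) i := by
  obtain ⟨V, h1, h2, h3⟩ := h
  obtain ⟨g, hg, i, hi⟩ := hxz j
  refine ⟨i, V, h1, h2, fun v hv n hn => ?_⟩
  have h4 := h3 _ (h1 g hg v hv) (g n) (hi n hn)
  have h5 : (g * v * g⁻¹) (g n) = g (v n) := by
    simp [Equiv.Perm.mul_apply]
  rw [h5] at h4
  exact g.injective h4

theorem clo_trans {H : Subgroup (Equiv.Perm ℤ)} {x y z : ℕ → ℤ} (hy : Pro y) (h1 : Clo H x y)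
    (h2 : Clo H y z) : Clo H x z := by
  intro j
  obtain ⟨g2, hg2, i2, hi2⟩ := h2 j
  obtain ⟨g1, hg1, i1, hi1⟩ := h1 i2
  refine ⟨g2 * g1, mul_mem hg2 hg1, i1, fun n hn => ?_⟩
  exact hi2 (g1 n) (hi1 n hn)
-- END gd3

end Pool.Agent.Uhy
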