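import Pool.Agent.Uhy.End
import Pool.Agent.Uhy.Good
import Pool.Agent.Uhy.Limit
import Pool.Agent.Uhy.Clos
import Pool.Agent.Uhy.Ap
import Pool.Agent.LgpE.Last
import Pool.Agent.Lgo.Center
import Pool.Agent.Lgp.Rone

/-!
# Assembly
-/

namespace Pool.Agent.Uhy

open Pool.Agent.CTm Pool.Agent.Grm Pool.Agent.Lgp Filter Nat
open Pool.Agent.LgpE (SlIn FinKey)
open Pool.Agent.Lgo (BigImage)

/-- Some `T ∈ H` is hyperbolic on a neighbourhood `Y` (a union of classes modulo `Q`) of the closure of the orbit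
of `y`. -/
def HypPt (m : ℕ) (H : Subgroup (Equiv.Perm ℤ)) (y : ℕ → ℤ) : Prop :=
  ∃ T ∈ H, ∃ (Q : ℕ) (Y : Set ℤ), 0 < Q ∧ (∀ n ∈ Y, ∀ n' : ℤ, (Q : ℤ) ∣ n' - n → n' ∈ Y) ∧
    (∀ n ∈ Y, HypAt m T n) ∧ ∀ g ∈ H, ∃ i : ℕ, ∀ n : ℤ, ((i ! : ℕ) : ℤ) ∣ n - y i → g n ∈ Y

private theorem ndvd {a b : ℕ} (h : a ∣ b) : ((a : ℕ) : ℤ) ∣ ((b : ℕ) : ℤ) :=
  Int.natCast_dvd_natCast.2 h

/-- the classes modulo `Q` along `z` -/
private theorem fac_dvd {Q i : ℕ} (hQ : 0 < Q) (hi : Q ≤ i) : ((Q : ℕ) : ℤ) ∣ ((i ! : ℕ) : ℤ) :=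
  ndvd (Nat.dvd_factorial hQ hi)

/-- the orbit of the limit point is in `Y` -/
private theorem orbit_in {N m c : ℕ} (hN : 0 < N) (hm : 0 < m) {H : Subgroup (Equiv.Perm ℤ)}
    (haff : ∀ h ∈ H, ∃ k : ℕ, Aff N m k h) {Y : Set ℤ}
    (hY : ∀ n ∈ Y, ∀ n' : ℤ, ((N * m ^ c : ℕ) : ℤ) ∣ n' - n → n' ∈ Y) {y z : ℕ → ℤ} (hy : Pro y)
    (hyY : ∀ g ∈ H, ∃ i : ℕ, ∀ n : ℤ, ((i ! : ℕ) : ℤ) ∣ n - y i → g n ∈ Y) (hyz : Clo H y z)
    {g : Equiv.Perm ℤ} (hg : g ∈ H) :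
    ∃ i : ℕ, ∀ n : ℤ, ((i ! : ℕ) : ℤ) ∣ n - z i → g n ∈ Y := by
  obtain ⟨k, hk⟩ := haff g hg
  have hpos : 0 < N * m ^ (k + c) := by positivity
  set j := N * m ^ (k + c) with hj
  obtain ⟨h, hh, i, hi⟩ := hyz j
  obtain ⟨i', hi'⟩ := hyY (g * h) (mul_mem hg hh)
  refine ⟨j, fun n hn => ?_⟩
  set w := y (max i i') with hw
  have h1 : ((j ! : ℕ) : ℤ) ∣ h w - z j := hi w (by
    refine pro_deep hy (le_max_left i i') ?_
    rw [hw]; simp)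
  have h2 : g (h w) ∈ Y := hi' w (by
    refine pro_deep hy (le_max_right i i') ?_
    rw [hw]; simp)
  have h3 : ((N * m ^ (k + c) : ℕ) : ℤ) ∣ n - h w := by
    have e : n - h w = (n - z j) - (h w - z j) := by ring
    rw [e]
    exact (fac_dvd hpos le_rfl).trans (dvd_sub hn h1)
  exact hY _ h2 _ (hk.cont hm h3)

/-- (★) -/
private theorem star {N m c : ℕ} (hN : 0 < N) (hm : 2 ≤ m) (hsq : Squarefree m)
    {S : Finset (Equiv.Perm ℤ)} (hexp : NoExp (S : Set (Equiv.Perm ℤ)))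
    (haff : ∀ h ∈ Subgroup.closure (S : Set (Equiv.Perm ℤ)), ∃ k : ℕ, Aff N m k h)
    {T : Equiv.Perm ℤ} (hTS : T ∈ Subgroup.closure (S : Set (Equiv.Perm ℤ)))
    (hT : Aff N m c T) (hT' : Aff N m c T⁻¹) {Y : Set ℤ}
    (hY : ∀ n ∈ Y, ∀ n' : ℤ, ((N * m ^ c : ℕ) : ℤ) ∣ n' - n → n' ∈ Y)
    (hyp : ∀ n ∈ Y, HypAt m T n) {z : ℕ → ℤ} (hz : Pro z)
    (hzY : ∀ g ∈ Subgroup.closure (S : Set (Equiv.Perm ℤ)), ∃ i : ℕ, ∀ n : ℤ,
      ((i ! : ℕ) : ℤ) ∣ n - z i → g n ∈ Y)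
    (hzw : ∀ g ∈ Subgroup.closure (S : Set (Equiv.Perm ℤ)), ∀ k : ℕ, ∃ i : ℕ, ∀ n : ℤ,
        ((i ! : ℕ) : ℤ) ∣ n - z i → ¬ Wand N m k T (g n))
    {f g : Equiv.Perm ℤ} (hf : f ∈ Subgroup.closure (S : Set (Equiv.Perm ℤ)))
    (hg : g ∈ Subgroup.closure (S : Set (Equiv.Perm ℤ))) (hfix : FixNear z (g⁻¹ * f * g)) :
    ∃ i : ℕ, ∀ n : ℤ, ((i ! : ℕ) : ℤ) ∣ n - z i → ∀ t : ℤ,
      f (g n + ((N * m ^ c : ℕ) : ℤ) * t) = g n + ((N * m ^ c : ℕ) : ℤ) * t := by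
  have hm0 : 0 < m := by omega
  have hh : g⁻¹ * f * g ∈ Subgroup.closure (S : Set (Equiv.Perm ℤ)) :=
    mul_mem (mul_mem (inv_mem hg) hf) hg
  obtain ⟨k, hk⟩ := haff _ hh
  obtain ⟨k', hk'⟩ := haff _ (inv_mem hg)
  obtain ⟨i0, hi0⟩ := hfix
  set J := k' + (k + c) with hJ
  obtain ⟨i1, hi1⟩ := hzw g hg J
  obtain ⟨i2, hi2⟩ := hzY g hg
  refine ⟨max i0 (max i1 i2), fun n hn => ?_⟩
  have hn0 := pro_deep hz (le_max_left i0 (max i1 i2)) hn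
  have hn1 := pro_deep hz ((le_max_left i1 i2).trans (le_max_right i0 (max i1 i2))) hn
  have hn2 := pro_deep hz ((le_max_right i1 i2).trans (le_max_right i0 (max i1 i2))) hn
  -- the conjugate is the identity on the class of `n` modulo `N m^k`
  have hid : ∀ t : ℤ, (g⁻¹ * f * g) (n + ((N * m ^ k : ℕ) : ℤ) * t) =
      n + ((N * m ^ k : ℕ) : ℤ) * t := by
    refine hk.id_class hN hm0 (M := ((i0 ! : ℕ) : ℤ)) (by exact_mod_cast Nat.factorial_pos _) ?_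
    intro t
    refine hi0 _ ?_
    have e : n + ((i0 ! : ℕ) : ℤ) * t - z i0 = (n - z i0) + ((i0 ! : ℕ) : ℤ) * t := by ring
    rw [e]
    exact dvd_add hn0 (dvd_mul_right _ _)
  have hfJ : ∀ t : ℤ, f (g n + ((N * m ^ J : ℕ) : ℤ) * t) = g n + ((N * m ^ J : ℕ) : ℤ) * t := by
    intro t
    set n' := g n + ((N * m ^ J : ℕ) : ℤ) * t with hn'
    have h1 : ((N * m ^ (k + c) : ℕ) : ℤ) ∣ g⁻¹ n' - g⁻¹ (g n) := by
      refine hk'.cont hm0 ?_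
      rw [hn']
      exact ⟨t, by ring⟩
    have h2 : g⁻¹ (g n) = n := g.symm_apply_apply n
    rw [h2] at h1
    have h3 : ((N * m ^ k : ℕ) : ℤ) ∣ g⁻¹ n' - n :=
      (ndvd (mul_dvd_mul_left N (pow_dvd_pow m (Nat.le_add_right k c)))).trans h1
    obtain ⟨s, hs⟩ := h3
    have h4 := hid s
    rw [← hs, add_sub_cancel, Equiv.Perm.mul_apply, Equiv.Perm.mul_apply] at h4
    have h5 : g (g⁻¹ n') = n' := g.apply_symm_apply n'
    rw [h5] at h4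
    calc f n' = g (g⁻¹ (f n')) := (g.apply_symm_apply _).symm
      _ = g (g⁻¹ n') := by rw [h4]
      _ = n' := h5
  intro t
  exact closing hN hm hsq hexp haff hf hTS hT hT' hY hyp (j := J) (by omega) (hi2 n hn2) hfJ (hi1 n hn1) t

/-- hyperbolic points are good -/
theorem gd_of_hyp {m : ℕ} (hm : 2 ≤ m) (hsq : Squarefree m) (S : Finset (Equiv.Perm ℤ))
    (hS : ∀ s ∈ S, s ∈ CT) (hU : ∀ s ∈ S, SlopeUnit m s)
    (hexp : NoExp (S : Set (Equiv.Perm ℤ))) {x y : ℕ → ℤ} (hy : Pro y)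
    (hxy : Clo (Subgroup.closure (S : Set (Equiv.Perm ℤ))) x y)
    (h : HypPt m (Subgroup.closure (S : Set (Equiv.Perm ℤ))) y) : ∃ i : ℕ, Gd S (x i) i := by
  classical
  set H := Subgroup.closure (S : Set (Equiv.Perm ℤ)) with hH
  have hm0 : 0 < m := by omega
  obtain ⟨T, hTH, Q, Y, hQ, hYQ, hyp, hyY⟩ := h
  obtain ⟨N, e, hN, hQe, haff⟩ := exists_aff hm S hU Q hQ
  obtain ⟨k1, hk1⟩ := haff T hTH
  obtain ⟨k2, hk2⟩ := haff T⁻¹ (inv_mem hTH)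
  set c := max e (max k1 k2) with hc
  have hT : Aff N m c T := hk1.mono ((le_max_left _ _).trans (le_max_right _ _))
  have hT' : Aff N m c T⁻¹ := hk2.mono ((le_max_right _ _).trans (le_max_right _ _))
  have hY : ∀ n ∈ Y, ∀ n' : ℤ, ((N * m ^ c : ℕ) : ℤ) ∣ n' - n → n' ∈ Y := by
    intro n hn n' hn'
    refine hYQ n hn n' ((ndvd ?_).trans hn')
    exact hQe.trans (mul_dvd_mul_left N (pow_dvd_pow m (le_max_left _ _)))
  obtain ⟨z, hz, hyz, hzw⟩ := exists_good hN hm0 hexp haff hTH hy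
  have hzY : ∀ g ∈ H, ∃ i : ℕ, ∀ n : ℤ, ((i ! : ℕ) : ℤ) ∣ n - z i → g n ∈ Y :=
    fun g hg => orbit_in hN hm0 haff hY hy hyY hyz hg
  have hst : ∀ f ∈ H, ∀ g ∈ H, FixNear z (g⁻¹ * f * g) → ∃ i : ℕ, ∀ n : ℤ,
      ((i ! : ℕ) : ℤ) ∣ n - z i → ∀ t : ℤ,
      f (g n + ((N * m ^ c : ℕ) : ℤ) * t) = g n + ((N * m ^ c : ℕ) : ℤ) * t :=
    fun f hf g hg hfix => star hN hm hsq hexp haff hTH hT hT' hY hyp hz hzY hzw hf hg hfix
  have hcpos : 0 < N * m ^ c := by positivity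
  -- the residue of `g z`
  have hres : ∀ g : Equiv.Perm ℤ, ∃ r : ZMod (N * m ^ c), g ∈ H → ∃ i : ℕ, ∀ n : ℤ,
      ((i ! : ℕ) : ℤ) ∣ n - z i → ((g n : ℤ) : ZMod (N * m ^ c)) = r := by
    intro g
    by_cases hg : g ∈ H
    · obtain ⟨k, hk⟩ := haff g hg
      have hp : 0 < N * m ^ (k + c) := by positivity
      set i := N * m ^ (k + c) with hi
      refine ⟨((g (z i) : ℤ) : ZMod (N * m ^ c)), fun _ => ⟨i, fun n hn => ?_⟩⟩
      have h1 : ((N * m ^ (k + c) : ℕ) : ℤ) ∣ n - z i := (fac_dvd hp le_rfl).trans hn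
      have h2 := hk.cont hm0 h1
      rw [← sub_eq_zero, ← Int.cast_sub, ZMod.intCast_zmod_eq_zero_iff_dvd]
      exact h2
    · exact ⟨0, fun h => absurd h hg⟩
  choose ρ hρ using hres
  have hne : NeZero (N * m ^ c) := ⟨hcpos.ne'⟩
  obtain ⟨L, hL1, hL2, hL3⟩ := exists_normaliser S hz ρ (by
    intro g hg g' hg' hgg f hf hfix
    obtain ⟨i, hi⟩ := hst f hf g hg hfix
    obtain ⟨i1, hi1⟩ := hρ g hg
    obtain ⟨i2, hi2⟩ := hρ g' hg'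
    refine ⟨max i (max i1 i2), fun n hn => ?_⟩
    have hn0 := pro_deep hz (le_max_left i (max i1 i2)) hn
    have hn1 := pro_deep hz ((le_max_left i1 i2).trans (le_max_right i (max i1 i2))) hn
    have hn2 := pro_deep hz ((le_max_right i1 i2).trans (le_max_right i (max i1 i2))) hn
    have h1 : ((g' n : ℤ) : ZMod (N * m ^ c)) = ((g n : ℤ) : ZMod (N * m ^ c)) := by
      rw [hi1 n hn1, hi2 n hn2, hgg]
    rw [← sub_eq_zero, ← Int.cast_sub, ZMod.intCast_zmod_eq_zero_iff_dvd] at h1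
    obtain ⟨t, ht⟩ := h1
    have h2 := hi n hn0 t
    have h3 : g n + ((N * m ^ c : ℕ) : ℤ) * t = g' n := by rw [← ht]; ring
    rw [h3] at h2
    rw [Equiv.Perm.mul_apply, Equiv.Perm.mul_apply, h2]
    exact g'.symm_apply_apply n)
  have hcore := polyQ_core S hS hexp hz hL1 hL2 hL3
  have hgd : Gd S (z (N * m ^ c)) (N * m ^ c) := by
    refine ⟨germCore H hz, ?_, hcore, ?_⟩
    · rintro g hg v ⟨hv, hv'⟩
      refine ⟨mul_mem (mul_mem hg hv) (inv_mem hg), fun g' hg' => ?_⟩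
      have e : g'⁻¹ * (g * v * g⁻¹) * g' = (g⁻¹ * g')⁻¹ * v * (g⁻¹ * g') := by group
      rw [e]
      exact hv' _ (mul_mem (inv_mem hg) hg')
    · rintro v ⟨hv, hv'⟩ n hn
      obtain ⟨i, hi⟩ := hst v hv 1 (one_mem _) (hv' 1 (one_mem _))
      set w := z (max i (N * m ^ c)) with hw
      have h1 : ((i ! : ℕ) : ℤ) ∣ w - z i :=
        pro_deep hz (le_max_left i (N * m ^ c)) (by rw [hw, sub_self]; exact dvd_zero _)
      have h2 : (((N * m ^ c) ! : ℕ) : ℤ) ∣ w - z (N * m ^ c) :=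
        pro_deep hz (le_max_right i (N * m ^ c)) (by rw [hw, sub_self]; exact dvd_zero _)
      have h3 : ((N * m ^ c : ℕ) : ℤ) ∣ n - w := by
        have e : n - w = (n - z (N * m ^ c)) - (w - z (N * m ^ c)) := by ring
        rw [e]
        exact (fac_dvd hcpos le_rfl).trans (dvd_sub hn h2)
      obtain ⟨t, ht⟩ := h3
      have h4 := hi w h1 t
      have h5 : (1 : Equiv.Perm ℤ) w + ((N * m ^ c : ℕ) : ℤ) * t = n := by
        rw [← ht]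
        show w + (n - w) = n
        ring
      rw [h5] at h4
      exact h4
  exact gd_of_clo S (clo_trans hy hxy hyz) hgd

/-- `y` is tame: one of six conditions on the germs near `y` of the elements of the group `H` generated by `S` -/
def Tame (S : Finset (Equiv.Perm ℤ)) (y : ℕ → ℤ) : Prop :=
  LocAb (Subgroup.closure (S : Set (Equiv.Perm ℤ))) y ∨
    UniStab (Subgroup.closure (S : Set (Equiv.Perm ℤ))) y ∨
    (∃ (m₁ m₂ : ℕ) (F : Finset ℚ), 1 ≤ m₁ ∧ 1 ≤ m₂ ∧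
      SlIn F m₁ m₂ (Subgroup.closure (S : Set (Equiv.Perm ℤ))) y ∧
      FinKey m₁ (Subgroup.closure (S : Set (Equiv.Perm ℤ))) y) ∨
    (∃ lam : ℚ, 1 < lam ∧ CyclicSlopes (Subgroup.closure (S : Set (Equiv.Perm ℤ))) lam y ∧
      NoCap (Subgroup.closure (S : Set (Equiv.Perm ℤ))) y) ∨
    BigImage (Subgroup.closure (S : Set (Equiv.Perm ℤ))) y ∨
    ∃ m : ℕ, 2 ≤ m ∧ Squarefree m ∧ (∀ s ∈ S, SlopeUnit m s) ∧
      HypPt m (Subgroup.closure (S : Set (Equiv.Perm ℤ))) y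

/-- the alternative -/
theorem tame_alt (S : Finset (Equiv.Perm ℤ)) (hS : ∀ s ∈ S, s ∈ CT)
    (h : ∀ x : ℕ → ℤ, Pro x → AlmPer (Subgroup.closure (S : Set (Equiv.Perm ℤ))) x →
      ∃ y : ℕ → ℤ, Pro y ∧ Clo (Subgroup.closure (S : Set (Equiv.Perm ℤ))) x y ∧ Tame S y) :
    (∃ C d : ℕ, ∀ n : ℕ, 1 ≤ n → growth (S : Set (Equiv.Perm ℤ)) n ≤ C * n ^ d) ∨
      ∃ c : ℝ, 1 < c ∧ ∀ᶠ n : ℕ in atTop, c ^ n ≤ growth (S : Set (Equiv.Perm ℤ)) n := by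
  by_cases hexp : ∃ c : ℝ, 1 < c ∧ ∀ᶠ n : ℕ in atTop, c ^ n ≤ growth (S : Set (Equiv.Perm ℤ)) n
  · exact Or.inr hexp
  left
  refine growth_of_gd S (gd_zero S fun x₀ hx₀ => ?_)
  set H := Subgroup.closure (S : Set (Equiv.Perm ℤ)) with hH
  have hHCT : H ≤ CT := (Subgroup.closure_le _).2 fun s hs => hS s hs
  obtain ⟨x, hx, hx0x, hap⟩ := exists_almPer S hS hx₀
  obtain ⟨y, hy, hxy, ht⟩ := h x hx hap
  have hxy' : Clo H x₀ y := clo_trans hx hx0x hxy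
  have hapy : AlmPer H y := almPer_of_clo hHCT hx hy hap hxy
  have hloc : ∀ z : ℕ → ℤ, Pro z → Clo H y z → LocAb H z → ∃ i : ℕ, Gd S (x₀ i) i := by
    intro z hz hyz h3
    obtain ⟨i, hi⟩ := good_of_locAb hexp hz (clo_trans hy hxy' hyz) h3
    exact ⟨i, gd_of_good S hi⟩
  rcases ht with h1 | h1 | ⟨m₁, m₂, F, hm₁, hm₂, h1, h2⟩ | ⟨lam, hlam, h1, h2⟩ | h1 |
    ⟨m, hm, hsq, hU, h1⟩
  · exact hloc y hy (clo_refl y) h1
  · exact gd_of_uni S hS hexp hy hxy' hapy h1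
  · obtain ⟨z, hz, hyz, h3⟩ := Pool.Agent.LgpE.exists_locAb S hS hexp hy hm₁ hm₂ h1 h2
    exact hloc z hz hyz h3
  · obtain ⟨z, hz, hyz, h3⟩ := locAb_of_cyclic S hS hexp hy hlam h1 (Or.inr h2)
    exact hloc z hz hyz h3
  · exact hloc y hy (clo_refl y) (Pool.Agent.Lgo.locAb_of_bigImage_almPer S hS hexp hy hapy h1)
  · exact gd_of_hyp hm hsq S hS hU hexp hy hxy' h1

end Pool.Agent.Uhy
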