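import Pool.Agent.Uhy.Defs
import Pool.Agent.Grm.Abs
import Pool.Agent.Grm.Inst
import Pool.Agent.Grm.RcwaCT

namespace Pool.Agent.Uhy

open Pool.Agent.CTm Pool.Agent.Grm Pool.Agent.Lgp Filter Nat

-- BEGIN qt1
private theorem qt1_germ {S : Set (Equiv.Perm ℤ)} {M : ℕ} {A : Finset (ℚ × ℚ)} (hd : Data S M A)
    {x : ℕ → ℤ} (hx : Pro x) {Q : Set ℚ} (h1 : 1 ∈ Q)
    (hQ : ∀ a ∈ A.image Prod.fst, ∀ q ∈ Q, a * q ∈ Q) {h : Equiv.Perm ℤ}
    (hh : h ∈ Subgroup.closure S) : ∃ a : ℚ × ℚ, Germ x h a ∧ a.1 ∈ Q := by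
  induction hh using Subgroup.closure_induction_left with
  | one => exact ⟨(1, 0), Germ.one, h1⟩
  | mul_left s hs y _ ih =>
    obtain ⟨a, ha, haQ⟩ := ih
    obtain ⟨b, hb, hb'⟩ := Germ.step hx hd ha (Or.inl hs)
    exact ⟨_, hb', hQ _ (Finset.mem_image_of_mem _ hb) _ haQ⟩
  | inv_mul_cancel s hs y _ ih =>
    obtain ⟨a, ha, haQ⟩ := ih
    obtain ⟨b, hb, hb'⟩ := Germ.step hx hd ha (s := s⁻¹) (Or.inr (by rwa [inv_inv]))
    exact ⟨_, hb', hQ _ (Finset.mem_image_of_mem _ hb) _ haQ⟩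

private theorem qt1_fix {x : ℕ → ℤ} (hx : Pro x) {h k : Equiv.Perm ℤ} {a : ℚ × ℚ}
    (ha : Germ x h a) (hk : FixNear x k) : Germ x (h * k) a := by
  obtain ⟨i, hi⟩ := ha
  obtain ⟨j, hj⟩ := hk
  refine ⟨max i j, fun n hn => ?_⟩
  rw [Equiv.Perm.mul_apply, hj n (pro_deep hx (le_max_right _ _) hn)]
  exact hi n (pro_deep hx (le_max_left _ _) hn)

/-- Theorem A for a quotient: coordinates on `closure B ⧸ K`, where `K` is the stabiliser of the germ at `x`. Same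
proof as `Grm.exists_coord` (the germ of `h` at `x` depends only on the coset `h K`, and determines it). -/
theorem exists_coord_quot {B : Set (Equiv.Perm ℤ)} {M : ℕ} {A : Finset (ℚ × ℚ)} (hd : Data B M A)
    {x : ℕ → ℤ} (hx : Pro x) {Γ : Type} [Group Γ] (π : Subgroup.closure B →* Γ)
    (hπ : Function.Surjective π)
    (hker : ∀ g : Subgroup.closure B, π g = 1 ↔ FixNear x (g : Equiv.Perm ℤ)) :
    ∃ (ι : Type) (_ : Fintype ι) (v : Γ → ι → ℤ) (ξ w : Γ → ℝ) (D : ℕ) (C : ℝ) (κ : ℕ),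
      Coord (π '' {g | (g : Equiv.Perm ℤ) ∈ B}) v ξ w D C κ := by
  classical
  obtain ⟨ι, hι, v, D, Q, hQ1, hQpos, hQmul, hQlip, hQinj⟩ := val_coord (A.image Prod.fst) (by
    intro a ha
    obtain ⟨b, hb, rfl⟩ := Finset.mem_image.1 ha
    exact hd.slope b hb)
  choose σ hσ using hπ
  have hex : ∀ γ : Γ, ∃ a : ℚ × ℚ, Germ x (σ γ : Equiv.Perm ℤ) a ∧ a.1 ∈ Q :=
    fun γ => qt1_germ hd hx hQ1 hQmul (SetLike.coe_mem (σ γ))
  choose g hg using hex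
  have hgerm : ∀ (γ : Γ) (h : Subgroup.closure B), π h = γ → Germ x (h : Equiv.Perm ℤ) (g γ) := by
    intro γ h hh
    have h1 : π ((σ γ)⁻¹ * h) = 1 := by rw [map_mul, map_inv, hσ, hh, inv_mul_cancel]
    have h2 := qt1_fix hx (hg γ).1 ((hker _).1 h1)
    have h3 : ((σ γ : Subgroup.closure B) : Equiv.Perm ℤ) *
        (((σ γ)⁻¹ * h : Subgroup.closure B) : Equiv.Perm ℤ) = (h : Equiv.Perm ℤ) := by
      rw [Subgroup.coe_mul, Subgroup.coe_inv, mul_inv_cancel_left]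
    rwa [h3] at h2
  have hginj : Function.Injective g := by
    intro γ γ' he
    have h1 := Germ.fix hx (hg γ).1 (by rw [he]; exact (hg γ').1)
    have h2 : π ((σ γ)⁻¹ * σ γ') = 1 := (hker _).2 (by
      rw [Subgroup.coe_mul, Subgroup.coe_inv]
      exact h1)
    rw [map_mul, map_inv, hσ, hσ] at h2
    exact (inv_mul_eq_one.1 h2)
  obtain ⟨C, hC0, hC⟩ : ∃ C : ℝ, 0 ≤ C ∧ ∀ a ∈ A, |(a.2 : ℝ)| / (a.1 : ℝ) ≤ C := by
    refine ⟨∑ a ∈ A, |(a.2 : ℝ)| / (a.1 : ℝ), ?_, fun a ha => ?_⟩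
    · exact Finset.sum_nonneg fun a ha => div_nonneg (abs_nonneg _) (by
        have := hd.slope a ha
        exact_mod_cast this.le)
    · exact Finset.single_le_sum (f := fun a : ℚ × ℚ => |(a.2 : ℝ)| / (a.1 : ℝ))
        (fun a ha => div_nonneg (abs_nonneg _) (by
          have := hd.slope a ha
          exact_mod_cast this.le)) ha
  have hgpos : ∀ γ : Γ, (0 : ℝ) < ((g γ).1 : ℝ) := by
    intro γ
    exact_mod_cast hQpos _ (hg γ).2
  have hstep : ∀ (γ s : Γ), (s ∈ (π '' {g | (g : Equiv.Perm ℤ) ∈ B}) ∨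
      s⁻¹ ∈ (π '' {g | (g : Equiv.Perm ℤ) ∈ B})) →
      ∃ b ∈ A, g (s * γ) = (b.1 * (g γ).1, b.1 * (g γ).2 + b.2) := by
    intro γ s hs
    obtain ⟨s0, hs0, hs1⟩ : ∃ s0 : Subgroup.closure B, ((s0 : Equiv.Perm ℤ) ∈ B ∨
        (s0 : Equiv.Perm ℤ)⁻¹ ∈ B) ∧ π s0 = s := by
      rcases hs with ⟨s0, h1, h2⟩ | ⟨s0, h1, h2⟩
      · exact ⟨s0, Or.inl h1, h2⟩
      · refine ⟨s0⁻¹, Or.inr ?_, by rw [map_inv, h2, inv_inv]⟩
        rw [Subgroup.coe_inv, inv_inv]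
        exact h1
    obtain ⟨b, hb, hb'⟩ := Germ.step hx hd (hg γ).1 hs0
    refine ⟨b, hb, Germ.unique hx (hgerm (s * γ) (s0 * σ γ) ?_) ?_⟩
    · rw [map_mul, hs1, hσ]
    · rw [Subgroup.coe_mul]
      exact hb'
  set N : ℕ := ⌊2 * C⌋₊ with hN
  have hbound : ∀ (v0 : ι → ℤ) (c : ℝ), ∃ a : ℚ × ℚ,
      ∀ γ : Γ, v (g γ).1 = v0 → |((g γ).2 : ℝ) / ((g γ).1 : ℝ) - c| ≤ C * (1 / ((g γ).1 : ℝ)) →
      g γ ∈ (Finset.Icc (-(N : ℤ)) N).image fun k : ℤ => ((a.1, a.2 + (k : ℚ)) : ℚ × ℚ) := by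
    intro v0 c
    by_cases hne : ∃ γ0 : Γ, v (g γ0).1 = v0 ∧
        |((g γ0).2 : ℝ) / ((g γ0).1 : ℝ) - c| ≤ C * (1 / ((g γ0).1 : ℝ))
    · obtain ⟨h0, hh0, h3⟩ := hne
      refine ⟨g h0, fun h hh h2 => ?_⟩
      have h1 : (g h).1 = (g h0).1 := hQinj _ (hg h).2 _ (hg h0).2
        (hh.trans hh0.symm)
      obtain ⟨k, hk⟩ := Germ.int hx (hg h).1 (hg h0).1 h1
      have hpos := hgpos h0
      rw [h1] at h2
      have h4 : |((g h).2 : ℝ) / ((g h0).1 : ℝ) - ((g h0).2 : ℝ) / ((g h0).1 : ℝ)| ≤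
          2 * C * (1 / ((g h0).1 : ℝ)) := by
        have h5 := abs_sub_le (((g h).2 : ℝ) / ((g h0).1 : ℝ)) c (((g h0).2 : ℝ) / ((g h0).1 : ℝ))
        rw [abs_sub_comm c] at h5
        linarith
      have h6 : |(k : ℝ)| ≤ 2 * C := by
        have h7 : ((g h).2 : ℝ) / ((g h0).1 : ℝ) - ((g h0).2 : ℝ) / ((g h0).1 : ℝ) =
            (k : ℝ) / ((g h0).1 : ℝ) := by
          rw [← sub_div]
          congr 1
          exact_mod_cast hk
        rw [h7, abs_div, abs_of_pos hpos, mul_one_div] at h4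
        exact (div_le_div_iff_of_pos_right hpos).1 h4
      have h8 : |k| ≤ (N : ℤ) := by
        have h9 : ((|k|).toNat : ℝ) ≤ 2 * C := by
          have h10 : ((|k|).toNat : ℝ) = |(k : ℝ)| := by
            have h11 : (((|k|).toNat : ℤ) : ℝ) = ((|k| : ℤ) : ℝ) := by
              rw [Int.toNat_of_nonneg (abs_nonneg k)]
            rw [Int.cast_abs] at h11
            exact_mod_cast h11
          rw [h10]
          exact h6
        have h12 := Nat.le_floor h9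
        omega
      refine Finset.mem_image.2 ⟨k, Finset.mem_Icc.2 (abs_le.1 h8), ?_⟩
      refine Prod.ext h1.symm ?_
      show (g h0).2 + (k : ℚ) = (g h).2
      rw [← hk]
      ring
    · exact ⟨(0, 0), fun γ h1 h2 => absurd ⟨γ, h1, h2⟩ hne⟩
  have hcount : ∀ (v0 : ι → ℤ) (c : ℝ), {h : Γ | h ∈ Subgroup.closure (π '' {g | (g : Equiv.Perm ℤ) ∈ B}) ∧
      v (g h).1 = v0 ∧ |((g h).2 : ℝ) / ((g h).1 : ℝ) - c| ≤ C * (1 / ((g h).1 : ℝ))}.Finite ∧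
      {h : Γ | h ∈ Subgroup.closure (π '' {g | (g : Equiv.Perm ℤ) ∈ B}) ∧
      v (g h).1 = v0 ∧ |((g h).2 : ℝ) / ((g h).1 : ℝ) - c| ≤ C * (1 / ((g h).1 : ℝ))}.ncard ≤ 2 * N + 1 := by
    intro v0 c
    obtain ⟨a, ha⟩ := hbound v0 c
    have hmaps : ∀ h ∈ {h : Γ | h ∈ Subgroup.closure (π '' {g | (g : Equiv.Perm ℤ) ∈ B}) ∧
        v (g h).1 = v0 ∧ |((g h).2 : ℝ) / ((g h).1 : ℝ) - c| ≤ C * (1 / ((g h).1 : ℝ))},
        g h ∈ (((Finset.Icc (-(N : ℤ)) N).image fun k : ℤ => ((a.1, a.2 + (k : ℚ)) : ℚ × ℚ) :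
          Finset (ℚ × ℚ)) : Set (ℚ × ℚ)) := fun h hh => ha h hh.2.1 hh.2.2
    refine ⟨Set.Finite.of_injOn hmaps hginj.injOn (Finset.finite_toSet _), ?_⟩
    refine (Set.ncard_le_ncard_of_injOn g hmaps hginj.injOn (Finset.finite_toSet _)).trans ?_
    rw [Set.ncard_coe_finset]
    refine Finset.card_image_le.trans ?_
    rw [Int.card_Icc]
    omega
  refine ⟨ι, hι, fun h => v (g h).1, fun h => ((g h).2 : ℝ) / ((g h).1 : ℝ),
    fun h => 1 / ((g h).1 : ℝ), D, C, 2 * N + 1, ?_⟩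
  refine ⟨?_, ?_, fun v0 c => (hcount v0 c).1, fun v0 c => (hcount v0 c).2⟩
  · intro h _ s hs p
    obtain ⟨b, hb, he⟩ := hstep h s hs
    show |v (g (s * h)).1 p - v (g h).1 p| ≤ D
    rw [he]
    exact hQlip _ (Finset.mem_image_of_mem _ hb) _ (hg h).2 p
  · intro h _ s hs
    obtain ⟨b, hb, he⟩ := hstep h s hs
    show |((g (s * h)).2 : ℝ) / ((g (s * h)).1 : ℝ) - ((g h).2 : ℝ) / ((g h).1 : ℝ)| ≤
      C * (1 / ((g h).1 : ℝ))
    rw [he]
    have hpos := hgpos h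
    have hb1 : (0 : ℝ) < (b.1 : ℝ) := by exact_mod_cast hd.slope b hb
    have h1 : (((b.1 * (g h).2 + b.2 : ℚ)) : ℝ) / ((b.1 * (g h).1 : ℚ) : ℝ) -
        ((g h).2 : ℝ) / ((g h).1 : ℝ) = (b.2 : ℝ) / (b.1 : ℝ) * (1 / ((g h).1 : ℝ)) := by
      push_cast
      field_simp
      ring
    show |(((b.1 * (g h).2 + b.2 : ℚ)) : ℝ) / ((b.1 * (g h).1 : ℚ) : ℝ) -
        ((g h).2 : ℝ) / ((g h).1 : ℝ)| ≤ C * (1 / ((g h).1 : ℝ))
    rw [h1, abs_mul, abs_div, abs_of_pos hb1, abs_of_pos (by positivity : 0 < 1 / ((g h).1 : ℝ))]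
    exact mul_le_mul_of_nonneg_right (hC b hb) (by positivity)
-- END qt1

-- BEGIN qt2
/-- Theorem A for a quotient: the coset growth is polynomial or the growth of `B` is exponential. -/
theorem quot_alt (B : Finset (Equiv.Perm ℤ)) (hB : ∀ b ∈ B, b ∈ CT) {x : ℕ → ℤ} (hx : Pro x)
    {K : Subgroup (Equiv.Perm ℤ)}
    (hK : ∀ g ∈ Subgroup.closure (B : Set (Equiv.Perm ℤ)), g ∈ K ↔ FixNear x g)
    (hn : ∀ g ∈ Subgroup.closure (B : Set (Equiv.Perm ℤ)), ∀ k ∈ K, g * k * g⁻¹ ∈ K) :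
    PolyQ (B : Set (Equiv.Perm ℤ)) K ∨
      ∃ c : ℝ, 1 < c ∧ ∀ᶠ n : ℕ in atTop, c ^ n ≤ growth (B : Set (Equiv.Perm ℤ)) n := by
  classical
  obtain ⟨M, A, hd⟩ := exists_data B hB
  set H : Subgroup (Equiv.Perm ℤ) := Subgroup.closure (B : Set (Equiv.Perm ℤ)) with hH
  have hnorm : (K.subgroupOf H).Normal := by
    refine ⟨fun k hk g => ?_⟩
    rw [Subgroup.mem_subgroupOf] at hk ⊢
    rw [Subgroup.coe_mul, Subgroup.coe_mul, Subgroup.coe_inv]
    exact hn _ (SetLike.coe_mem g) _ hk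
  let π : H →* H ⧸ K.subgroupOf H := QuotientGroup.mk' (K.subgroupOf H)
  have hπ : Function.Surjective π := QuotientGroup.mk'_surjective _
  have hker : ∀ g : H, π g = 1 ↔ FixNear x (g : Equiv.Perm ℤ) := by
    intro g
    rw [← hK _ (SetLike.coe_mem g), ← Subgroup.mem_subgroupOf]
    exact QuotientGroup.eq_one_iff g
  -- lists in `H`
  have hlift : ∀ l : List (Equiv.Perm ℤ), (∀ x ∈ l, x ∈ (B : Set (Equiv.Perm ℤ)) ∨
      x⁻¹ ∈ (B : Set (Equiv.Perm ℤ))) → ∃ l1 : List H, l1.map (fun x : H => (x : Equiv.Perm ℤ)) = l := by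
    intro l
    induction l with
    | nil => exact fun _ => ⟨[], rfl⟩
    | cons x l ih =>
      intro h2
      obtain ⟨l1, j1⟩ := ih fun y hy => h2 y (by simp [hy])
      have hx := h2 x (by simp)
      have hxH : x ∈ H := by
        rcases hx with hx | hx
        · exact Subgroup.subset_closure hx
        · exact (Subgroup.inv_mem_iff _).1 (Subgroup.subset_closure hx)
      exact ⟨⟨x, hxH⟩ :: l1, by simp [j1]⟩
  set U : Set (H ⧸ K.subgroupOf H) := π '' {g | (g : Equiv.Perm ℤ) ∈ (B : Set (Equiv.Perm ℤ))} with hU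
  have hUfin : U.Finite := by
    refine Set.Finite.image _ ?_
    exact Set.Finite.preimage Subtype.coe_injective.injOn B.finite_toSet
  have hup : ∀ n : ℕ, ∀ g ∈ ball (B : Set (Equiv.Perm ℤ)) n,
      ∃ h : H, (h : Equiv.Perm ℤ) = g ∧ π h ∈ ball U n := by
    rintro n g ⟨l, h1, h2, rfl⟩
    obtain ⟨l1, j1⟩ := hlift l h2
    refine ⟨l1.prod, ?_, l1.map π, ?_, ?_, ?_⟩
    · rw [← j1]
      exact Subgroup.val_list_prod H l1
    · rw [List.length_map]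
      rw [← j1, List.length_map] at h1
      exact h1
    · intro y hy
      obtain ⟨y', hy', rfl⟩ := List.mem_map.1 hy
      have h3 := h2 (y' : Equiv.Perm ℤ) (by
        rw [← j1]
        exact List.mem_map.2 ⟨y', hy', rfl⟩)
      rcases h3 with h3 | h3
      · exact Or.inl ⟨y', h3, rfl⟩
      · exact Or.inr ⟨y'⁻¹, h3, by rw [map_inv]⟩
    · rw [map_list_prod]
  have hdown : ∀ n : ℕ, ∀ γ ∈ ball U n,
      ∃ h : H, π h = γ ∧ (h : Equiv.Perm ℤ) ∈ ball (B : Set (Equiv.Perm ℤ)) n := by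
    rintro n γ ⟨l, h1, h2, rfl⟩
    have hex : ∃ l1 : List H, l1.map π = l ∧ ∀ y ∈ l1, ((y : Equiv.Perm ℤ) ∈ (B : Set (Equiv.Perm ℤ)) ∨
        (y : Equiv.Perm ℤ)⁻¹ ∈ (B : Set (Equiv.Perm ℤ))) := by
      clear h1
      induction l with
      | nil => exact ⟨[], rfl, by simp⟩
      | cons x l ih =>
        obtain ⟨l1, j1, j2⟩ := ih fun y hy => h2 y (by simp [hy])
        obtain ⟨x0, hx0, hx1⟩ : ∃ x0 : H, π x0 = x ∧ ((x0 : Equiv.Perm ℤ) ∈ (B : Set (Equiv.Perm ℤ)) ∨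
            (x0 : Equiv.Perm ℤ)⁻¹ ∈ (B : Set (Equiv.Perm ℤ))) := by
          rcases h2 x (by simp) with ⟨x0, k1, k2⟩ | ⟨x0, k1, k2⟩
          · exact ⟨x0, k2, Or.inl k1⟩
          · refine ⟨x0⁻¹, by rw [map_inv, k2, inv_inv], Or.inr ?_⟩
            rw [Subgroup.coe_inv, inv_inv]
            exact k1
        refine ⟨x0 :: l1, by rw [List.map_cons, hx0, j1], ?_⟩
        intro y hy
        rcases List.mem_cons.1 hy with rfl | hy
        · exact hx1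
        · exact j2 y hy
    obtain ⟨l1, j1, j2⟩ := hex
    refine ⟨l1.prod, ?_, l1.map (fun x : H => (x : Equiv.Perm ℤ)), ?_, ?_, ?_⟩
    · rw [map_list_prod, j1]
    · rw [List.length_map]
      rw [← j1, List.length_map] at h1
      exact h1
    · intro y hy
      obtain ⟨y', hy', rfl⟩ := List.mem_map.1 hy
      exact j2 y' hy'
    · exact (Subgroup.val_list_prod H l1).symm
  obtain ⟨ι, hι, v, ξ, w, D, C, κ, hc⟩ := exists_coord_quot hd hx π hπ hker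
  rcases abs_alternative hUfin hc with ⟨C', d, h⟩ | ⟨ε, hε, h⟩
  · left
    refine ⟨C', d, fun n hn1 => le_trans ?_ (h n hn1)⟩
    let fq : H ⧸ K.subgroupOf H → Equiv.Perm ℤ ⧸ K := fun γ =>
      QuotientGroup.mk ((γ.out : H) : Equiv.Perm ℤ)
    have hfq : ∀ h : H, fq (π h) = QuotientGroup.mk (h : Equiv.Perm ℤ) := by
      intro h
      obtain ⟨k, hk⟩ := QuotientGroup.mk_out_eq_mul (K.subgroupOf H) h
      show QuotientGroup.mk (((QuotientGroup.mk h : H ⧸ K.subgroupOf H).out : H) : Equiv.Perm ℤ) = _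
      rw [hk, Subgroup.coe_mul]
      exact QuotientGroup.mk_mul_of_mem _ (Subgroup.mem_subgroupOf.1 (SetLike.coe_mem k))
    have hsub : (QuotientGroup.mk : Equiv.Perm ℤ → Equiv.Perm ℤ ⧸ K) '' ball (B : Set (Equiv.Perm ℤ)) n ⊆
        fq '' ball U n := by
      rintro _ ⟨g, hg, rfl⟩
      obtain ⟨h, rfl, h2⟩ := hup n g hg
      exact ⟨π h, h2, hfq h⟩
    exact (Set.ncard_le_ncard hsub ((ball_finite hUfin n).image _)).trans
      (Set.ncard_image_le (ball_finite hUfin n))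
  · right
    refine ⟨1 + ε, by linarith, Eventually.of_forall fun n => ?_⟩
    refine (exp_of_nonAmen hUfin hε h n).trans ?_
    let ψ : Equiv.Perm ℤ → H ⧸ K.subgroupOf H := fun g => if hg : g ∈ H then π ⟨g, hg⟩ else 1
    have hψ : ∀ h : H, ψ (h : Equiv.Perm ℤ) = π h := fun h => dif_pos (SetLike.coe_mem h)
    have hsub : ball U n ⊆ ψ '' ball (B : Set (Equiv.Perm ℤ)) n := by
      intro γ hγ
      obtain ⟨h, rfl, h2⟩ := hdown n γ hγ
      exact ⟨_, h2, hψ h⟩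
    have hle : growth U n ≤ growth (B : Set (Equiv.Perm ℤ)) n :=
      (Set.ncard_le_ncard hsub ((ball_finite B.finite_toSet n).image _)).trans
        (Set.ncard_image_le (ball_finite B.finite_toSet n))
    exact_mod_cast hle
-- END qt2

end Pool.Agent.Uhy
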