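import Pool.Agent.Uhy.Defs

namespace Pool.Agent.Uhy

open Pool.Agent.CTm Pool.Agent.Grm Pool.Agent.Lgp Filter

variable {G : Type*} [Group G]

-- BEGIN fi1
/-- Finite index: every product of `n` generators of `H` is an element of a finite set times a product of at most
`n + 1` elements of a finite subset `B` of `K` (proof of `CTm.poly_growth`). -/
theorem exists_schreier (S : Finset G) (K : Subgroup G) (hK : K ≤ Subgroup.closure (S : Set G))
    (hfi : (K.subgroupOf (Subgroup.closure (S : Set G))).FiniteIndex) :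
    ∃ (B F : Finset G), (∀ b ∈ B, b ∈ K) ∧ (∀ f ∈ F, f ∈ Subgroup.closure (S : Set G)) ∧
      ∀ n : ℕ, ∀ g ∈ ball (S : Set G) n, ∃ f ∈ F, ∃ k ∈ ball (B : Set G) (n + 1), g = f * k := by
  classical
  set H := Subgroup.closure (S : Set G) with hH
  haveI : Finite (H ⧸ K.subgroupOf H) := Subgroup.finite_quotient_of_finiteIndex
  let Q := H ⧸ K.subgroupOf H
  have hdec : ∀ h : H, ∃ a : K, (h : G) = ((QuotientGroup.mk h : Q).out : G) * (a : G) := by
    intro h
    have h1 : ((QuotientGroup.mk h : Q).out)⁻¹ * h ∈ K.subgroupOf H := by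
      rw [← QuotientGroup.eq]
      exact Quotient.out_eq _
    rw [Subgroup.mem_subgroupOf] at h1
    refine ⟨⟨_, h1⟩, ?_⟩
    simp
  choose al hal using hdec
  let U : Set H := {x : H | (x : G) ∈ S ∨ (x : G)⁻¹ ∈ S}
  have hU : U.Finite := by
    have h0 : {x : G | x ∈ (S : Set G) ∨ x⁻¹ ∈ (S : Set G)}.Finite := by
      have h1 : {x : G | x ∈ (S : Set G) ∨ x⁻¹ ∈ (S : Set G)} = (S : Set G) ∪ (S : Set G)⁻¹ := by
        ext x
        simp
      rw [h1]
      exact S.finite_toSet.union S.finite_toSet.inv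
    exact Set.Finite.preimage (Subtype.coe_injective.injOn) h0
  have hB : (insert (al 1) (Set.image2 (fun (x : H) (q : Q) => al (x * q.out)) U Set.univ)).Finite :=
    (hU.image2 _ Set.finite_univ).insert _
  let B : Finset K := hB.toFinset
  have hB1 : al 1 ∈ B := by simp [B]
  have hB2 : ∀ x ∈ U, ∀ q : Q, al (x * q.out) ∈ B := by
    intro x hx q
    rw [Set.Finite.mem_toFinset]
    exact Set.mem_insert_of_mem _ ⟨x, hx, q, Set.mem_univ _, rfl⟩
  have key : ∀ l : List H, (∀ x ∈ l, x ∈ U) → ∃ q : Q, ∃ l' : List K, (∀ x ∈ l', x ∈ B) ∧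
      l'.length ≤ l.length + 1 ∧ ((l.prod : H) : G) = (q.out : G) * ((l'.prod : K) : G) := by
    intro l
    induction l with
    | nil =>
      intro _
      exact ⟨_, [al 1], by simpa using hB1, by simp, by
        rw [List.prod_nil, List.prod_singleton]
        exact hal 1⟩
    | cons x l ih =>
      intro hl
      obtain ⟨q, l', i1, i2, i3⟩ := ih fun y hy => hl y (by simp [hy])
      have hx := hl x (by simp)
      refine ⟨(QuotientGroup.mk (x * q.out) : Q), al (x * q.out) :: l', ?_,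
        by simp only [List.length_cons]; omega, ?_⟩
      rotate_left
      · rw [List.prod_cons, List.prod_cons, Subgroup.coe_mul, i3, ← mul_assoc]
        have h1 := hal (x * q.out)
        rw [Subgroup.coe_mul] at h1
        rw [h1, mul_assoc]
        rfl
      · intro y hy
        rcases List.mem_cons.1 hy with rfl | hy
        · exact hB2 x hx q
        · exact i1 y hy
  have hF : (Set.range (fun q : Q => (q.out : G))).Finite := Set.finite_range _
  refine ⟨B.image (fun x : K => (x : G)), hF.toFinset, ?_, ?_, ?_⟩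
  · intro b hb
    obtain ⟨x, -, rfl⟩ := Finset.mem_image.1 hb
    exact x.2
  · intro f hf
    rw [Set.Finite.mem_toFinset] at hf
    obtain ⟨q, rfl⟩ := hf
    exact q.out.2
  · intro n g hg
    obtain ⟨l, h1, h2, rfl⟩ := hg
    have hlift : ∃ l1 : List H, l1.map (fun x : H => (x : G)) = l ∧ ∀ x ∈ l1, x ∈ U := by
      clear h1
      induction l with
      | nil => exact ⟨[], rfl, by simp⟩
      | cons x l ih =>
        obtain ⟨l1, j1, j2⟩ := ih fun y hy => h2 y (by simp [hy])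
        have hx := h2 x (by simp)
        have hxH : x ∈ H := by
          rcases hx with hx | hx
          · exact Subgroup.subset_closure hx
          · exact (Subgroup.inv_mem_iff _).1 (Subgroup.subset_closure hx)
        refine ⟨⟨x, hxH⟩ :: l1, by simp [j1], ?_⟩
        intro y hy
        rcases List.mem_cons.1 hy with rfl | hy
        · exact hx
        · exact j2 y hy
    obtain ⟨l1, j1, j2⟩ := hlift
    obtain ⟨q, l', k1, k2, k3⟩ := key l1 j2
    have hlen : l1.length = l.length := by rw [← j1, List.length_map]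
    refine ⟨(q.out : G), ?_, ((l'.prod : K) : G), ⟨l'.map (fun x : K => (x : G)), ?_, ?_, ?_⟩, ?_⟩
    · rw [Set.Finite.mem_toFinset]
      exact ⟨q, rfl⟩
    · rw [List.length_map]
      omega
    · intro x hx
      obtain ⟨y, hy, rfl⟩ := List.mem_map.1 hx
      left
      rw [Finset.mem_coe]
      exact Finset.mem_image_of_mem _ (k1 y hy)
    · exact (Subgroup.val_list_prod K l').symm
    · rw [← k3, ← j1]
      exact (Subgroup.val_list_prod H l1).symm
-- END fi1

-- BEGIN fi2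
/-- Coset growth: from a subgroup of finite index to the group. -/
theorem polyQ_of_fi (S B F : Finset G) (V : Subgroup G)
    (h : ∀ n : ℕ, ∀ g ∈ ball (S : Set G) n, ∃ f ∈ F, ∃ k ∈ ball (B : Set G) (n + 1), g = f * k)
    (hB : PolyQ (B : Set G) V) : PolyQ (S : Set G) V := by
  classical
  obtain ⟨C, d, hC⟩ := hB
  refine ⟨F.card * C * 2 ^ d, d, fun n hn => ?_⟩
  have hfin : ((QuotientGroup.mk : G → G ⧸ V) '' ball (B : Set G) (n + 1)).Finite :=
    (ball_finite B.finite_toSet (n + 1)).image _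
  have hsub : (QuotientGroup.mk : G → G ⧸ V) '' ball (S : Set G) n ⊆
      ((fun p : G × (G ⧸ V) => p.1 • p.2) ''
        ((F : Set G) ×ˢ ((QuotientGroup.mk : G → G ⧸ V) '' ball (B : Set G) (n + 1)))) := by
    rintro _ ⟨g, hg, rfl⟩
    obtain ⟨f, hf, k, hk, rfl⟩ := h n g hg
    exact ⟨(f, QuotientGroup.mk k), ⟨hf, ⟨k, hk, rfl⟩⟩, rfl⟩
  have hfin2 : ((F : Set G) ×ˢ ((QuotientGroup.mk : G → G ⧸ V) '' ball (B : Set G) (n + 1))).Finite :=
    F.finite_toSet.prod hfin
  have h1 := Set.ncard_le_ncard hsub (hfin2.image _)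
  have h2 := Set.ncard_image_le (f := fun p : G × (G ⧸ V) => p.1 • p.2) hfin2
  rw [Set.ncard_prod, Set.ncard_coe_finset] at h2
  have h3 := hC (n + 1) (by omega)
  have h4 : (n + 1) ^ d ≤ 2 ^ d * n ^ d := by
    rw [← mul_pow]
    exact Nat.pow_le_pow_left (by omega) d
  calc _ ≤ _ := h1.trans h2
    _ ≤ F.card * (C * (n + 1) ^ d) := Nat.mul_le_mul_left _ h3
    _ ≤ F.card * (C * (2 ^ d * n ^ d)) := Nat.mul_le_mul_left _ (Nat.mul_le_mul_left _ h4)
    _ = F.card * C * 2 ^ d * n ^ d := by ring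
-- END fi2

-- BEGIN fi3
/-- Coset growth of an intersection. -/
theorem polyQ_inf (S : Finset G) {V W : Subgroup G} (hV : PolyQ (S : Set G) V)
    (hW : PolyQ (S : Set G) W) : PolyQ (S : Set G) (V ⊓ W) := by
  obtain ⟨C, d, hC⟩ := hV
  obtain ⟨C', d', hC'⟩ := hW
  refine ⟨C * C', d + d', fun n hn => ?_⟩
  let φ : G ⧸ (V ⊓ W) → (G ⧸ V) × (G ⧸ W) := fun x =>
    (Subgroup.quotientMapOfLE inf_le_left x, Subgroup.quotientMapOfLE inf_le_right x)
  have hφ : Function.Injective φ := by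
    intro x y
    refine QuotientGroup.induction_on x fun g => QuotientGroup.induction_on y fun k => ?_
    intro h
    have h1 : (QuotientGroup.mk g : G ⧸ V) = QuotientGroup.mk k := congrArg Prod.fst h
    have h2 : (QuotientGroup.mk g : G ⧸ W) = QuotientGroup.mk k := congrArg Prod.snd h
    rw [QuotientGroup.eq] at h1 h2 ⊢
    exact ⟨h1, h2⟩
  have hfV : ((QuotientGroup.mk : G → G ⧸ V) '' ball (S : Set G) n).Finite :=
    (ball_finite S.finite_toSet n).image _
  have hfW : ((QuotientGroup.mk : G → G ⧸ W) '' ball (S : Set G) n).Finite :=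
    (ball_finite S.finite_toSet n).image _
  have hsub : φ '' ((QuotientGroup.mk : G → G ⧸ (V ⊓ W)) '' ball (S : Set G) n) ⊆
      ((QuotientGroup.mk : G → G ⧸ V) '' ball (S : Set G) n) ×ˢ
        ((QuotientGroup.mk : G → G ⧸ W) '' ball (S : Set G) n) := by
    rintro _ ⟨_, ⟨g, hg, rfl⟩, rfl⟩
    exact ⟨⟨g, hg, rfl⟩, ⟨g, hg, rfl⟩⟩
  have h1 := Set.ncard_le_ncard hsub (hfV.prod hfW)
  rw [Set.ncard_image_of_injective _ hφ, Set.ncard_prod] at h1
  calc _ ≤ _ := h1
    _ ≤ (C * n ^ d) * (C' * n ^ d') := Nat.mul_le_mul (hC n hn) (hC' n hn)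
    _ = C * C' * n ^ (d + d') := by ring

/-- Coset growth of a conjugate. -/
theorem polyQ_conj (S : Finset G) {V W : Subgroup G} {a : G} (ha : a ∈ Subgroup.closure (S : Set G))
    (hW : ∀ g, g ∈ W ↔ a⁻¹ * g * a ∈ V) (hV : PolyQ (S : Set G) V) : PolyQ (S : Set G) W := by
  obtain ⟨C, d, hC⟩ := hV
  obtain ⟨l, hl⟩ := mem_ball_of_closure ha
  refine ⟨C * (l + 1) ^ d, d, fun n hn => ?_⟩
  have hwd : ∀ g k : G, QuotientGroup.leftRel W g k →
      (QuotientGroup.mk (g * a) : G ⧸ V) = QuotientGroup.mk (k * a) := by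
    intro g k h
    rw [QuotientGroup.leftRel_apply, hW] at h
    rw [QuotientGroup.eq]
    have h2 : (g * a)⁻¹ * (k * a) = a⁻¹ * (g⁻¹ * k) * a := by group
    rw [h2]
    exact h
  let φ : G ⧸ W → G ⧸ V := Quotient.lift (fun g => (QuotientGroup.mk (g * a) : G ⧸ V)) hwd
  have hφm : ∀ g : G, φ (QuotientGroup.mk g) = QuotientGroup.mk (g * a) := fun g => rfl
  have hφ : Function.Injective φ := by
    intro x y
    refine QuotientGroup.induction_on x fun g => QuotientGroup.induction_on y fun k => ?_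
    intro h
    rw [hφm, hφm, QuotientGroup.eq] at h
    rw [QuotientGroup.eq, hW]
    have h2 : (g * a)⁻¹ * (k * a) = a⁻¹ * (g⁻¹ * k) * a := by group
    rw [h2] at h
    exact h
  have hsub : φ '' ((QuotientGroup.mk : G → G ⧸ W) '' ball (S : Set G) n) ⊆
      ((QuotientGroup.mk : G → G ⧸ V) '' ball (S : Set G) (n + l)) := by
    rintro _ ⟨_, ⟨g, hg, rfl⟩, rfl⟩
    rw [hφm]
    exact ⟨g * a, ball_mul hg hl, rfl⟩
  have h1 := Set.ncard_le_ncard hsub ((ball_finite S.finite_toSet (n + l)).image _)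
  rw [Set.ncard_image_of_injective _ hφ] at h1
  have h4 : (n + l) ^ d ≤ (l + 1) ^ d * n ^ d := by
    rw [← mul_pow]
    refine Nat.pow_le_pow_left ?_ d
    nlinarith
  calc _ ≤ _ := h1
    _ ≤ C * (n + l) ^ d := hC (n + l) (by omega)
    _ ≤ C * ((l + 1) ^ d * n ^ d) := Nat.mul_le_mul_left _ h4
    _ = C * (l + 1) ^ d * n ^ d := by ring

/-- Coset growth is monotone. -/
theorem polyQ_mono (S : Finset G) {V W : Subgroup G} (hVW : V ≤ W) (hV : PolyQ (S : Set G) V) :
    PolyQ (S : Set G) W := by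
  obtain ⟨C, d, hC⟩ := hV
  refine ⟨C, d, fun n hn => (le_trans ?_ (hC n hn))⟩
  have h1 : (QuotientGroup.mk : G → G ⧸ W) '' ball (S : Set G) n =
      Subgroup.quotientMapOfLE hVW '' ((QuotientGroup.mk : G → G ⧸ V) '' ball (S : Set G) n) := by
    rw [Set.image_image]
    rfl
  rw [h1]
  exact Set.ncard_image_le ((ball_finite S.finite_toSet n).image _)

/-- The trivial subgroup. -/
theorem growth_of_polyQ_bot (S : Finset G) (h : PolyQ (S : Set G) (⊥ : Subgroup G)) :
    ∃ C d : ℕ, ∀ n : ℕ, 1 ≤ n → growth (S : Set G) n ≤ C * n ^ d := by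
  obtain ⟨C, d, hC⟩ := h
  refine ⟨C, d, fun n hn => le_trans (le_of_eq ?_) (hC n hn)⟩
  have hinj : Function.Injective (QuotientGroup.mk : G → G ⧸ (⊥ : Subgroup G)) := by
    intro g k hgk
    rw [QuotientGroup.eq, Subgroup.mem_bot] at hgk
    exact (inv_mul_eq_one.1 hgk)
  exact (Set.ncard_image_of_injective _ hinj).symm
-- END fi3

-- BEGIN fi4
/-- If the growth of a finite subset of `closure S` is exponential then so is the growth of `S`. -/
theorem exp_of_sub (S B : Finset G) (hB : ∀ b ∈ B, b ∈ Subgroup.closure (S : Set G))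
    (h : ∃ c : ℝ, 1 < c ∧ ∀ᶠ n : ℕ in atTop, c ^ n ≤ growth (B : Set G) n) :
    ∃ c : ℝ, 1 < c ∧ ∀ᶠ n : ℕ in atTop, c ^ n ≤ growth (S : Set G) n := by
  classical
  obtain ⟨c, hc, hcn⟩ := h
  have hex : ∃ l : ℕ, ∀ b ∈ B, b ∈ ball (S : Set G) l := by
    choose! f hf using fun b (hb : b ∈ B) => mem_ball_of_closure (hB b hb)
    exact ⟨B.sup f, fun b hb => ball_mono (Finset.le_sup hb) (hf b hb)⟩
  obtain ⟨l', hl'⟩ := hex
  obtain ⟨l, hl0, hl⟩ : ∃ l : ℕ, 0 < l ∧ ∀ b ∈ B, b ∈ ball (S : Set G) l :=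
    ⟨l' + 1, by omega, fun b hb => ball_mono (by omega) (hl' b hb)⟩
  have hinv : ∀ x : G, x ∈ ball (S : Set G) l → x⁻¹ ∈ ball (S : Set G) l := by
    rintro x ⟨w, h1, h2, rfl⟩
    refine ⟨(w.map fun y => y⁻¹).reverse, by simpa using h1, ?_, ?_⟩
    · intro y hy
      rw [List.mem_reverse, List.mem_map] at hy
      obtain ⟨z, hz, rfl⟩ := hy
      rcases h2 z hz with h3 | h3
      · right
        rwa [inv_inv]
      · left
        exact h3
    · rw [List.prod_inv_reverse]
  have hlist : ∀ w : List G, (∀ x ∈ w, x ∈ (B : Set G) ∨ x⁻¹ ∈ (B : Set G)) →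
      w.prod ∈ ball (S : Set G) (l * w.length) := by
    intro w
    induction w with
    | nil =>
      intro _
      exact ⟨[], by simp, by simp, rfl⟩
    | cons x w ih =>
      intro hw
      have h1 := ih fun y hy => hw y (by simp [hy])
      have h2 : x ∈ ball (S : Set G) l := by
        rcases hw x (by simp) with hx | hx
        · exact hl x hx
        · have := hinv _ (hl _ hx)
          rwa [inv_inv] at this
      rw [List.prod_cons, List.length_cons, show l * (w.length + 1) = l + l * w.length by ring]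
      exact ball_mul h2 h1
  have hle : ∀ k : ℕ, growth (B : Set G) k ≤ growth (S : Set G) (l * k) := by
    intro k
    refine Set.ncard_le_ncard ?_ (ball_finite S.finite_toSet _)
    rintro g ⟨w, h1, h2, rfl⟩
    exact ball_mono (Nat.mul_le_mul_left l h1) (hlist w h2)
  have hl0' : (0 : ℝ) < 2 * l := by positivity
  have hc0 : (0 : ℝ) < c := by linarith
  have hc1 : (1 : ℝ) < c ^ ((1 : ℝ) / (2 * l)) := Real.one_lt_rpow hc (by positivity)
  have hc2 : (c ^ ((1 : ℝ) / (2 * l))) ^ (2 * l) = c := by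
    rw [← Real.rpow_natCast, ← Real.rpow_mul hc0.le]
    have : (1 : ℝ) / (2 * l) * ((2 * l : ℕ) : ℝ) = 1 := by
      push_cast
      field_simp
    rw [this, Real.rpow_one]
  refine ⟨_, hc1, ?_⟩
  have ht : Tendsto (fun n : ℕ => n / l) atTop atTop := Nat.tendsto_div_const_atTop hl0.ne'
  filter_upwards [eventually_ge_atTop l, ht.eventually hcn] with n hn hn2
  have h1 : 1 ≤ n / l := (Nat.one_le_div_iff hl0).2 hn
  have h2 : n ≤ 2 * l * (n / l) := by
    have h3 := Nat.div_add_mod n l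
    have h4 := Nat.mod_lt n hl0
    nlinarith
  have h3 : l * (n / l) ≤ n := Nat.mul_div_le n l
  calc (c ^ ((1 : ℝ) / (2 * l))) ^ n ≤ (c ^ ((1 : ℝ) / (2 * l))) ^ (2 * l * (n / l)) :=
        pow_le_pow_right₀ hc1.le h2
    _ = c ^ (n / l) := by rw [pow_mul, hc2]
    _ ≤ growth (B : Set G) (n / l) := hn2
    _ ≤ growth (S : Set G) (l * (n / l)) := by exact_mod_cast hle (n / l)
    _ ≤ growth (S : Set G) n := by exact_mod_cast growth_mono S.finite_toSet h3
-- END fi4

-- BEGIN fi5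
/-- Virtually abelian quotients have polynomial coset growth (from `CTm.poly_growth` for the quotient group, or its
proof). -/
theorem polyQ_of_virtAb (S : Finset G) {L V : Subgroup G}
    (hL : L ≤ Subgroup.closure (S : Set G)) (hfi : (L.subgroupOf (Subgroup.closure (S : Set G))).FiniteIndex)
    (hVL : V ≤ L) (hVn : ∀ g ∈ Subgroup.closure (S : Set G), ∀ v ∈ V, g * v * g⁻¹ ∈ V)
    (hc : ∀ a ∈ L, ∀ b ∈ L, a * b * a⁻¹ * b⁻¹ ∈ V) : PolyQ (S : Set G) V := by
  classical
  set H := Subgroup.closure (S : Set G) with hH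
  let V' : Subgroup H := V.subgroupOf H
  have hN : V'.Normal := ⟨fun v hv g => by
    have hv' : (v : G) ∈ V := Subgroup.mem_subgroupOf.1 hv
    exact Subgroup.mem_subgroupOf.2 (hVn g g.2 v hv')⟩
  let π : H →* H ⧸ V' := QuotientGroup.mk' V'
  have hSH : ∀ s ∈ S, s ∈ H := fun s hs => Subgroup.subset_closure hs
  let S' : Finset (H ⧸ V') := S.attach.image (fun s => π ⟨s.1, hSH s.1 s.2⟩)
  have hS' : ∀ (s : G) (hs : s ∈ S), π ⟨s, hSH s hs⟩ ∈ S' := fun s hs =>
    Finset.mem_image.2 ⟨⟨s, hs⟩, Finset.mem_attach _ _, rfl⟩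
  let A : Subgroup (H ⧸ V') := (L.subgroupOf H).map π
  have hA : A.FiniteIndex := by
    refine ⟨fun h0 => ?_⟩
    have h1 : A.index ∣ (L.subgroupOf H).index :=
      Subgroup.index_map_dvd _ (QuotientGroup.mk'_surjective V')
    rw [h0, zero_dvd_iff] at h1
    exact hfi.index_ne_zero h1
  have hcomm : ∀ a ∈ A, ∀ b ∈ A, a * b = b * a := by
    rintro _ ⟨a, ha, rfl⟩ _ ⟨b, hb, rfl⟩
    have ha' : (a : G) ∈ L := Subgroup.mem_subgroupOf.1 ha
    have hb' : (b : G) ∈ L := Subgroup.mem_subgroupOf.1 hb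
    have h1 : a * b * a⁻¹ * b⁻¹ ∈ V' := Subgroup.mem_subgroupOf.2 (hc a ha' b hb')
    have h2 : π (a * b * a⁻¹ * b⁻¹) = 1 := (QuotientGroup.eq_one_iff _).2 h1
    rw [map_mul, map_mul, map_mul, map_inv, map_inv] at h2
    have h3 : π a * π b * (π a)⁻¹ * (π b)⁻¹ * (π b * π a) = 1 * (π b * π a) := by rw [h2]
    have h4 : π a * π b * (π a)⁻¹ * (π b)⁻¹ * (π b * π a) = π a * π b := by group
    rw [h4, one_mul] at h3
    exact h3
  obtain ⟨C, d, hCd⟩ := poly_growth S' A inferInstance hcomm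
  refine ⟨C, d, fun n hn => ?_⟩
  let φ : H ⧸ V' → G ⧸ V := Quotient.lift (fun h : H => (QuotientGroup.mk (h : G) : G ⧸ V)) (by
    intro a b hab
    have h1 : a⁻¹ * b ∈ V' := QuotientGroup.leftRel_apply.1 hab
    exact QuotientGroup.eq.2 (Subgroup.mem_subgroupOf.1 h1))
  have hφ : ∀ h : H, φ (π h) = (QuotientGroup.mk (h : G) : G ⧸ V) := fun h => rfl
  have hlist : ∀ l : List G, (∀ x ∈ l, x ∈ (S : Set G) ∨ x⁻¹ ∈ (S : Set G)) →
      ∃ l' : List (H ⧸ V'), l'.length = l.length ∧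
        (∀ y ∈ l', y ∈ (S' : Set (H ⧸ V')) ∨ y⁻¹ ∈ (S' : Set (H ⧸ V'))) ∧
        ∃ h : H, (h : G) = l.prod ∧ l'.prod = π h := by
    intro l
    induction l with
    | nil => exact fun _ => ⟨[], rfl, by simp, 1, by simp, by simp⟩
    | cons x l ih =>
      intro hl
      obtain ⟨l', i1, i2, h, i3, i4⟩ := ih fun y hy => hl y (List.mem_cons_of_mem _ hy)
      have hx := hl x (List.mem_cons_self)
      rcases hx with hx | hx
      · refine ⟨π ⟨x, hSH x hx⟩ :: l', by simp [i1], ?_, ⟨x, hSH x hx⟩ * h, ?_, ?_⟩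
        · intro y hy
          rcases List.mem_cons.1 hy with rfl | hy
          · exact Or.inl (hS' x hx)
          · exact i2 y hy
        · rw [Subgroup.coe_mul, i3, List.prod_cons]
        · rw [List.prod_cons, i4, map_mul]
      · refine ⟨(π ⟨x⁻¹, hSH _ hx⟩)⁻¹ :: l', by simp [i1], ?_, (⟨x⁻¹, hSH _ hx⟩ : H)⁻¹ * h, ?_, ?_⟩
        · intro y hy
          rcases List.mem_cons.1 hy with rfl | hy
          · right
            rw [inv_inv]
            exact hS' x⁻¹ hx
          · exact i2 y hy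
        · rw [Subgroup.coe_mul, i3, List.prod_cons, Subgroup.coe_inv, inv_inv]
        · rw [List.prod_cons, i4, map_mul, map_inv]
  have hsub : (QuotientGroup.mk : G → G ⧸ V) '' ball (S : Set G) n ⊆
      φ '' ball (S' : Set (H ⧸ V')) n := by
    rintro _ ⟨g, ⟨l, hl1, hl2, rfl⟩, rfl⟩
    obtain ⟨l', i1, i2, h, i3, i4⟩ := hlist l hl2
    refine ⟨l'.prod, ⟨l', by omega, i2, rfl⟩, ?_⟩
    rw [i4, hφ, i3]
  have hfin : (ball (S' : Set (H ⧸ V')) n).Finite := ball_finite S'.finite_toSet n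
  calc ((QuotientGroup.mk : G → G ⧸ V) '' ball (S : Set G) n).ncard
      ≤ (φ '' ball (S' : Set (H ⧸ V')) n).ncard := Set.ncard_le_ncard hsub (hfin.image _)
    _ ≤ (ball (S' : Set (H ⧸ V')) n).ncard := Set.ncard_image_le hfin
    _ ≤ C * n ^ d := hCd n hn
-- END fi5

end Pool.Agent.Uhy
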