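import Pool.Agent.Uhy.End
import Pool.Agent.Uhy.Good

/-!
# Almost periodic points with a uniform germ stabiliser
-/

namespace Pool.Agent.Uhy

open Pool.Agent.CTm Pool.Agent.Grm Pool.Agent.Lgp Filter Nat

/-- `y` is almost periodic: for every class around `y` there are finitely many `t ∈ H` such that every point `g y` of
the orbit is moved into the class by one of them (equivalently: the closure of the orbit of `y` is a minimal set) -/
def AlmPer (H : Subgroup (Equiv.Perm ℤ)) (y : ℕ → ℤ) : Prop :=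
  ∀ j : ℕ, ∃ F : Finset (Equiv.Perm ℤ), (∀ t ∈ F, t ∈ H) ∧ ∀ g ∈ H, ∃ t ∈ F, ∃ i : ℕ, ∀ n : ℤ,
    ((i ! : ℕ) : ℤ) ∣ n - y i → ((j ! : ℕ) : ℤ) ∣ t (g n) - y j

/-- the elements of `H` which are the identity near `y` are the identity on one common class around `y` -/
def UniStab (H : Subgroup (Equiv.Perm ℤ)) (y : ℕ → ℤ) : Prop :=
  ∃ J : ℕ, ∀ f ∈ H, FixNear y f → ∀ n : ℤ, ((J ! : ℕ) : ℤ) ∣ n - y J → f n = n

/-- If every conjugate of `K` contains one of finitely many conjugates then no conjugate is properly contained in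
another one. -/
theorem conj_eq_of_le {G : Type*} [Group G] (P : G → G → Prop) (F : Finset G) (H : Subgroup G)
    (hF : ∀ t ∈ F, t ∈ H)
    (hrefl : ∀ g ∈ H, P g g) (htrans : ∀ a b c, P a b → P b c → P a c)
    (hmul : ∀ h ∈ H, ∀ a b, P a b → P (h * a) (h * b))
    (hcov : ∀ g ∈ H, ∃ t ∈ F, P t g) {a b : G} (ha : a ∈ H) (hb : b ∈ H) (hab : P a b) : P b a := by
  classical
  -- `P a b` : the conjugate of `a` is contained in the conjugate of `b`
  obtain ⟨t1, ht1, -⟩ := hcov 1 (one_mem _)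
  have hne : F.Nonempty := ⟨t1, ht1⟩
  obtain ⟨t0, ht0, hmin⟩ : ∃ t0 ∈ F, ∀ t ∈ F, P t t0 → P t0 t := by
    -- a minimal element of a finite preorder
    have key : ∀ n : ℕ, ∀ t ∈ F, (F.filter fun s => P s t ∧ ¬ P t s).card ≤ n →
        ∃ t0 ∈ F, ∀ s ∈ F, P s t0 → P t0 s := by
      intro n
      induction n with
      | zero =>
        intro t ht h0
        refine ⟨t, ht, fun s hs hst => ?_⟩
        by_contra h1
        have h2 : s ∈ F.filter fun s => P s t ∧ ¬ P t s := Finset.mem_filter.2 ⟨hs, hst, h1⟩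
        have h3 : 0 < (F.filter fun s => P s t ∧ ¬ P t s).card := Finset.card_pos.2 ⟨s, h2⟩
        omega
      | succ n ih =>
        intro t ht hn
        by_cases h1 : ∀ s ∈ F, P s t → P t s
        · exact ⟨t, ht, h1⟩
        · push Not at h1
          obtain ⟨s, hs, hst, hts⟩ := h1
          refine ih s hs ?_
          have hlt : (F.filter fun u => P u s ∧ ¬ P s u) ⊂ (F.filter fun u => P u t ∧ ¬ P t u) := by
            refine ⟨fun u hu => ?_, fun hsub => ?_⟩
            · obtain ⟨hu1, hu2, hu3⟩ := Finset.mem_filter.1 hu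
              refine Finset.mem_filter.2 ⟨hu1, htrans _ _ _ hu2 hst, fun h => ?_⟩
              exact hts (htrans _ _ _ h hu2)
            · have h2 : s ∈ F.filter fun u => P u s ∧ ¬ P s u :=
                hsub (Finset.mem_filter.2 ⟨hs, hst, hts⟩)
              exact (Finset.mem_filter.1 h2).2.2 (hrefl s (hF s hs))
          have := Finset.card_lt_card hlt
          omega
    exact key _ t1 ht1 le_rfl
  -- no conjugate below `t0`
  have h0 : ∀ g ∈ H, P g t0 → P t0 g := by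
    intro g hg hgt
    obtain ⟨t, ht, htg⟩ := hcov g hg
    exact htrans _ _ _ (hmin t ht (htrans _ _ _ htg hgt)) htg
  -- transport
  have h1 : P (t0 * b⁻¹ * a) t0 := by
    have := hmul (t0 * b⁻¹) (mul_mem (hF t0 ht0) (inv_mem hb)) a b hab
    rwa [inv_mul_cancel_right] at this
  have h2 := h0 _ (mul_mem (mul_mem (hF t0 ht0) (inv_mem hb)) ha) h1
  have h3 := hmul (b * t0⁻¹) (mul_mem hb (inv_mem (hF t0 ht0))) _ _ h2
  have e1 : b * t0⁻¹ * t0 = b := by group
  have e2 : b * t0⁻¹ * (t0 * b⁻¹ * a) = a := by group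
  rwa [e1, e2] at h3

/-- an almost periodic point with a uniform germ stabiliser is good -/
theorem gd_of_uni (S : Finset (Equiv.Perm ℤ)) (hS : ∀ s ∈ S, s ∈ CT)
    (hexp : NoExp (S : Set (Equiv.Perm ℤ))) {x y : ℕ → ℤ} (hy : Pro y)
    (hxy : Clo (Subgroup.closure (S : Set (Equiv.Perm ℤ))) x y)
    (hap : AlmPer (Subgroup.closure (S : Set (Equiv.Perm ℤ))) y)
    (hu : UniStab (Subgroup.closure (S : Set (Equiv.Perm ℤ))) y) : ∃ i : ℕ, Gd S (x i) i := by
  classical
  set H := Subgroup.closure (S : Set (Equiv.Perm ℤ)) with hH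
  obtain ⟨J, hJ⟩ := hu
  obtain ⟨F, hF1, hF2⟩ := hap J
  let P : Equiv.Perm ℤ → Equiv.Perm ℤ → Prop := fun a b =>
    ∀ f ∈ H, FixNear y (a⁻¹ * f * a) → FixNear y (b⁻¹ * f * b)
  have hcov : ∀ g ∈ H, ∃ t ∈ F.image (fun t => t⁻¹), P t g := by
    intro g hg
    obtain ⟨t, ht, i, hi⟩ := hF2 g hg
    refine ⟨t⁻¹, Finset.mem_image_of_mem _ ht, fun f hf hfix => ⟨i, fun n hn => ?_⟩⟩
    rw [inv_inv] at hfix
    have h1 : t * f * t⁻¹ ∈ H := mul_mem (mul_mem (hF1 t ht) hf) (inv_mem (hF1 t ht))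
    have h2 := hJ _ h1 hfix (t (g n)) (hi n hn)
    have h3 : (t * f * t⁻¹) (t (g n)) = t (f (g n)) := by simp [Equiv.Perm.mul_apply]
    rw [h3] at h2
    have h4 : f (g n) = g n := t.injective h2
    rw [Equiv.Perm.mul_apply, Equiv.Perm.mul_apply, h4]
    exact g.symm_apply_apply n
  have hPmul : ∀ h ∈ H, ∀ a b, P a b → P (h * a) (h * b) := by
    intro h hh a b hab f hf hfix
    have e1 : (h * a)⁻¹ * f * (h * a) = a⁻¹ * (h⁻¹ * f * h) * a := by group
    have e2 : (h * b)⁻¹ * f * (h * b) = b⁻¹ * (h⁻¹ * f * h) * b := by group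
    rw [e1] at hfix
    rw [e2]
    exact hab _ (mul_mem (mul_mem (inv_mem hh) hf) hh) hfix
  have hFH : ∀ t ∈ F.image (fun t => t⁻¹), t ∈ H := by
    intro t ht
    obtain ⟨s, hs, rfl⟩ := Finset.mem_image.1 ht
    exact inv_mem (hF1 s hs)
  have hPeq : ∀ a ∈ H, ∀ b ∈ H, P a b → P b a := fun a ha b hb hab =>
    conj_eq_of_le P (F.image fun t => t⁻¹) H hFH (fun g _ f _ h => h)
      (fun a b c h1 h2 f hf h => h2 f hf (h1 f hf h)) hPmul hcov ha hb hab
  have hex : ∀ g : Equiv.Perm ℤ, ∃ t : {t // t ∈ insert 1 (F.image fun t => t⁻¹)}, g ∈ H →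
      (P t g ∧ P g t) := by
    intro g
    by_cases hg : g ∈ H
    · obtain ⟨t, ht, h1⟩ := hcov g hg
      exact ⟨⟨t, Finset.mem_insert_of_mem ht⟩, fun _ => ⟨h1, hPeq _ (hFH t ht) _ hg h1⟩⟩
    · exact ⟨⟨1, Finset.mem_insert_self _ _⟩, fun h => absurd h hg⟩
  choose ρ hρ using hex
  obtain ⟨L, hL1, hL2, hL3⟩ := exists_normaliser S hy ρ (by
    intro g hg g' hg' hgg f hf hfix
    have h1 := (hρ g hg).2 f hf hfix
    rw [hgg] at h1
    exact (hρ g' hg').1 f hf h1)
  have hcore := polyQ_core S hS hexp hy hL1 hL2 hL3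
  refine gd_of_clo S hxy (j := J) ⟨germCore H hy, ?_, hcore, ?_⟩
  · rintro g hg v ⟨hv, hv'⟩
    refine ⟨mul_mem (mul_mem hg hv) (inv_mem hg), fun g' hg' => ?_⟩
    have e : g'⁻¹ * (g * v * g⁻¹) * g' = (g⁻¹ * g')⁻¹ * v * (g⁻¹ * g') := by group
    rw [e]
    exact hv' _ (mul_mem (inv_mem hg) hg')
  · rintro v ⟨hv, hv'⟩ n hn
    have h1 := hv' 1 (one_mem _)
    have e : (1 : Equiv.Perm ℤ)⁻¹ * v * 1 = v := by group
    rw [e] at h1
    exact hJ v hv h1 n hn

end Pool.Agent.Uhy
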