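import Pool.Agent.Uhy.Uni
import Pool.Agent.Uhy.Aff

/-!
# Ascending points: Milnor's argument along a path
-/

namespace Pool.Agent.Uhy

open Pool.Agent.CTm Pool.Agent.Grm Pool.Agent.Lgp Filter Nat

/-- from every point of the orbit of `y` one of finitely many elements of `H` contracts in all the directions of the
prime factors of `m`: its slope is an integer which is divisible by `m` -/
def AscPt (m : ℕ) (H : Subgroup (Equiv.Perm ℤ)) (y : ℕ → ℤ) : Prop :=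
  ∃ E : Finset (Equiv.Perm ℤ), (∀ t ∈ E, t ∈ H) ∧ ∀ g ∈ H, ∃ t ∈ E, ∃ u i : ℕ, m ∣ u ∧
    ∀ n : ℤ, ((i ! : ℕ) : ℤ) ∣ n - y i → SlopeAt t (g n) u 1

-- BEGIN pm1
private theorem pm1_exp {G : Type*} [Group G] {S : Set G} (hS : S.Finite) {l0 : ℕ} (hl0 : 0 < l0)
    (h : ∀ k, 2 ^ k ≤ growth S (l0 * k)) :
    ∃ c : ℝ, 1 < c ∧ ∀ᶠ n : ℕ in atTop, c ^ n ≤ growth S n := by
  have hl0' : (0 : ℝ) < 2 * l0 := by positivity
  have hc1 : (1 : ℝ) < (2 : ℝ) ^ ((1 : ℝ) / (2 * l0)) :=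
    Real.one_lt_rpow (by norm_num) (by positivity)
  have hc2 : ((2 : ℝ) ^ ((1 : ℝ) / (2 * l0))) ^ (2 * l0) = 2 := by
    rw [← Real.rpow_natCast, ← Real.rpow_mul (by norm_num)]
    have : (1 : ℝ) / (2 * l0) * ((2 * l0 : ℕ) : ℝ) = 1 := by
      push_cast
      field_simp
    rw [this, Real.rpow_one]
  refine ⟨_, hc1, ?_⟩
  filter_upwards [eventually_ge_atTop l0] with n hn
  have h1 : 1 ≤ n / l0 := (Nat.one_le_div_iff hl0).2 hn
  have h2 : n ≤ 2 * l0 * (n / l0) := by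
    have h3 := Nat.div_add_mod n l0
    have h4 := Nat.mod_lt n hl0
    nlinarith
  have h3 : l0 * (n / l0) ≤ n := Nat.mul_div_le n l0
  calc ((2 : ℝ) ^ ((1 : ℝ) / (2 * l0))) ^ n ≤
      ((2 : ℝ) ^ ((1 : ℝ) / (2 * l0))) ^ (2 * l0 * (n / l0)) :=
        pow_le_pow_right₀ hc1.le h2
    _ = 2 ^ (n / l0) := by rw [pow_mul, hc2]
    _ ≤ growth S (l0 * (n / l0)) := by
        have := h (n / l0)
        exact_mod_cast this
    _ ≤ growth S n := by
        have := growth_mono hS h3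
        exact_mod_cast this

/-- the product of the conjugates chosen by `e` -/
private def pm1_W {G : Type*} [Group G] (f : G) (P : ℕ → G) (e : ℕ → Bool) : ℕ → G
  | 0 => 1
  | n + 1 => pm1_W f P e n * (P n * (if e n then f else 1) * (P n)⁻¹)

private theorem pm1_mem {G : Type*} [Group G] (f : G) (P : ℕ → G) (e : ℕ → Bool) (n : ℕ) :
    pm1_W f P e n ∈ Subgroup.closure {x | ∃ j < n, x = P j * f * (P j)⁻¹} := by
  induction n with
  | zero => exact one_mem _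
  | succ n ih =>
    refine mul_mem ?_ ?_
    · refine Subgroup.closure_mono ?_ ih
      rintro x ⟨j, hj, rfl⟩
      exact ⟨j, by omega, rfl⟩
    · cases he : e n
      · simp
      · simp only [if_true]
        exact Subgroup.subset_closure ⟨n, by omega, rfl⟩

private theorem pm1_inj {G : Type*} [Group G] {f : G} {P : ℕ → G} (e e' : ℕ → Bool) (M : ℕ)
    (hP : ∀ i < M, P i * f * (P i)⁻¹ ∉ Subgroup.closure {x | ∃ j < i, x = P j * f * (P j)⁻¹})
    (h : pm1_W f P e M = pm1_W f P e' M) : ∀ i < M, e i = e' i := by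
  induction M with
  | zero => intro i hi; omega
  | succ M ih =>
    have hM := hP M (by omega)
    have key : ∀ a b : G, a ∈ Subgroup.closure {x | ∃ j < M, x = P j * f * (P j)⁻¹} →
        b ∈ Subgroup.closure {x | ∃ j < M, x = P j * f * (P j)⁻¹} →
        a * (P M * f * (P M)⁻¹) = b * (P M * 1 * (P M)⁻¹) → False := by
      intro a b ha hb hab
      apply hM
      have : P M * f * (P M)⁻¹ = a⁻¹ * b := by
        have h1 : b * (P M * 1 * (P M)⁻¹) = b := by group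
        rw [h1] at hab
        rw [← hab]
        group
      rw [this]
      exact mul_mem (inv_mem ha) hb
    have hstep : pm1_W f P e M * (P M * (if e M then f else 1) * (P M)⁻¹) =
        pm1_W f P e' M * (P M * (if e' M then f else 1) * (P M)⁻¹) := h
    have heq : e M = e' M := by
      cases he : e M <;> cases he' : e' M
      · rfl
      · rw [he, he'] at hstep
        simp only [if_true, Bool.false_eq_true, if_false] at hstep
        exact (key _ _ (pm1_mem f P e' M) (pm1_mem f P e M) hstep.symm).elim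
      · rw [he, he'] at hstep
        simp only [if_true, Bool.false_eq_true, if_false] at hstep
        exact (key _ _ (pm1_mem f P e M) (pm1_mem f P e' M) hstep).elim
      · rfl
    rw [heq] at hstep
    have h2 := mul_right_cancel hstep
    have h3 := ih (fun i hi => hP i (by omega)) h2
    intro i hi
    rcases Nat.lt_succ_iff_lt_or_eq.1 hi with hi | rfl
    · exact h3 i hi
    · exact heq

private theorem pm1_ball {G : Type*} [Group G] {S : Set G} {f : G} {P : ℕ → G} {a D : ℕ}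
    (hf : f ∈ ball S a) (hP0 : P 0 = 1) (e : ℕ → Bool) (M : ℕ)
    (hP : ∀ i < M, (P i)⁻¹ * P (i + 1) ∈ ball S D) :
    pm1_W f P e M * P M ∈ ball S ((a + D + 1) * M) := by
  induction M with
  | zero =>
    have : pm1_W f P e 0 * P 0 = 1 := by
      rw [hP0, mul_one]
      rfl
    rw [this]
    exact ⟨[], by simp, by simp, rfl⟩
  | succ M ih =>
    have h1 := ih (fun i hi => hP i (by omega))
    have h2 : (if e M then f else 1) ∈ ball S a := by
      cases e M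
      · simp only [Bool.false_eq_true, if_false]
        exact ⟨[], by simp, by simp, rfl⟩
      · simpa using hf
    have h3 := ball_mul (ball_mul h1 h2) (hP M (by omega))
    have h4 : pm1_W f P e (M + 1) * P (M + 1) =
        pm1_W f P e M * P M * (if e M then f else 1) * ((P M)⁻¹ * P (M + 1)) := by
      change pm1_W f P e M * (P M * (if e M then f else 1) * (P M)⁻¹) * P (M + 1) = _
      group
    rw [h4]
    refine ball_mono ?_ h3
    have : (a + D + 1) * (M + 1) = (a + D + 1) * M + (a + D + 1) := by ring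
    omega

/-- Milnor's argument for a path `G 0 = 1, G 1, .., G M` with bounded steps: if each conjugate `G i f (G i)⁻¹` is not in
the group generated by the previous ones, for paths of every length, then the growth is exponential.
(The `2 ^ M` products of the `G i f^(e i) (G i)⁻¹`, `i = 0, .., M - 1` in this order, are different and telescope to words of
length `O(M)`.) -/
theorem exp_of_path {G : Type*} [Group G] {S : Set G} (hS : S.Finite) {f : G}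
    (hf : f ∈ Subgroup.closure S) (D : ℕ)
    (h : ∀ M : ℕ, ∃ P : ℕ → G, P 0 = 1 ∧ (∀ i < M, (P i)⁻¹ * P (i + 1) ∈ ball S D) ∧
      ∀ i < M, P i * f * (P i)⁻¹ ∉ Subgroup.closure {x | ∃ j < i, x = P j * f * (P j)⁻¹}) :
    ∃ c : ℝ, 1 < c ∧ ∀ᶠ n : ℕ in atTop, c ^ n ≤ growth S n := by
  obtain ⟨a, ha⟩ := mem_ball_of_closure hf
  refine pm1_exp hS (l0 := a + D + 1) (by omega) fun M => ?_
  obtain ⟨P, hP0, hP1, hP2⟩ := h M
  let ext : (Fin M → Bool) → ℕ → Bool := fun v i => if hi : i < M then v ⟨i, hi⟩ else false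
  let F : (Fin M → Bool) → G := fun v => pm1_W f P (ext v) M * P M
  have hF : Function.Injective F := by
    intro v w hvw
    have h1 := mul_right_cancel (show pm1_W f P (ext v) M * P M = pm1_W f P (ext w) M * P M from hvw)
    have h2 := pm1_inj (ext v) (ext w) M hP2 h1
    funext i
    have h3 := h2 i i.2
    simpa [ext] using h3
  have h1 : Set.range F ⊆ ball S ((a + D + 1) * M) := by
    rintro _ ⟨v, rfl⟩
    exact pm1_ball ha hP0 (ext v) M hP1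
  have h2 := Set.ncard_le_ncard h1 (ball_finite hS _)
  rw [← Set.image_univ, Set.ncard_image_of_injective _ hF, Set.ncard_univ] at h2
  simpa [growth] using h2
-- END pm1

-- BEGIN as1
/-- the slope of the germ is the slope on the class -/
private theorem as1_one {N m k : ℕ} (hN : 0 < N) (hm : 0 < m) {t : Equiv.Perm ℤ} (ht : Aff N m k t) {x : ℤ}
    {u : ℕ} (hs : SlopeAt t x u 1) (s : ℤ) :
    t (x + ((N * m ^ k : ℕ) : ℤ) * s) = t x + u * (((N * m ^ k : ℕ) : ℤ) * s) := by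
  obtain ⟨u', v', hu', hv', h⟩ := ht x
  obtain ⟨M, hM, hs⟩ := hs
  have hv0 : 0 < v' := Nat.pos_of_dvd_of_pos hv' (pow_pos hm k)
  have hv1 : (v' : ℤ) ≠ 0 := by exact_mod_cast hv0.ne'
  have hc0 : (0 : ℤ) < ((N * m ^ k : ℕ) : ℤ) := by exact_mod_cast Nat.mul_pos hN (pow_pos hm k)
  generalize ((N * m ^ k : ℕ) : ℤ) = c at h hc0 ⊢
  have h1 := h M
  have h2 := hs c
  have e1 : x + M * c = x + c * M := by ring
  rw [e1] at h2
  have h4 : ((v' : ℤ) * u) * (M * c) = u' * (M * c) := by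
    have e2 : (u : ℤ) * (M * c) = t (x + c * M) - t x := by
      rw [← h2]
      push_cast
      ring
    calc ((v' : ℤ) * u) * (M * c) = v' * (u * (M * c)) := by ring
      _ = v' * (t (x + c * M) - t x) := by rw [e2]
      _ = u' * (c * M) := h1
      _ = u' * (M * c) := by ring
  have h3 : (v' : ℤ) * u = u' := mul_right_cancel₀ (mul_pos hM hc0).ne' h4
  have h5 := h s
  rw [← h3] at h5
  have h6 : (v' : ℤ) * (t (x + c * s) - t x) = v' * (u * (c * s)) := by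
    rw [h5]
    ring
  have h7 := mul_left_cancel₀ hv1 h6
  linarith

/-- several contracting steps -/
private theorem as1_asc {N m k1 : ℕ} (hN : 0 < N) (hm : 0 < m) {H : Subgroup (Equiv.Perm ℤ)}
    {S : Set (Equiv.Perm ℤ)} {y : ℕ → ℤ} {E : Finset (Equiv.Perm ℤ)} {DE : ℕ} (hEH : ∀ t ∈ E, t ∈ H)
    (hEb : ∀ t ∈ E, t ∈ ball S DE) (hEa : ∀ t ∈ E, Aff N m k1 t)
    (hasc : ∀ g ∈ H, ∃ t ∈ E, ∃ u i0 : ℕ, m ∣ u ∧ ∀ i, i0 ≤ i → SlopeAt t (g (y i)) u 1) (a : ℕ) :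
    ∀ g ∈ H, ∃ Ψ ∈ H, Ψ ∈ ball S (DE * a) ∧ ∃ U : ℤ, (m : ℤ) ^ a ∣ U ∧ ∃ i0 : ℕ, ∀ i, i0 ≤ i → ∀ s : ℤ,
      Ψ (g (y i) + ((N * m ^ k1 : ℕ) : ℤ) * s) = Ψ (g (y i)) + U * (((N * m ^ k1 : ℕ) : ℤ) * s) := by
  intro g hg
  induction a with
  | zero =>
    refine ⟨1, one_mem _, ⟨[], by simp, by simp, rfl⟩, 1, by simp, 0, fun i _ s => ?_⟩
    simp
  | succ a ih =>
    obtain ⟨Ψ, hΨH, hΨb, U, hU, i0, hi0⟩ := ih
    obtain ⟨t, ht, u, i1, hu, hi1⟩ := hasc (Ψ * g) (mul_mem hΨH hg)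
    refine ⟨t * Ψ, mul_mem (hEH t ht) hΨH, ?_, u * U, ?_, max i0 i1, fun i hi s => ?_⟩
    · refine ball_mono ?_ (ball_mul (hEb t ht) hΨb)
      have : DE * (a + 1) = DE + DE * a := by ring
      omega
    · rw [_root_.pow_succ']
      exact mul_dvd_mul (by exact_mod_cast hu) hU
    · have h1 := hi0 i (le_of_max_le_left hi) s
      have h2 := as1_one hN hm (hEa t ht) (hi1 i (le_of_max_le_right hi)) (U * s)
      rw [Equiv.Perm.mul_apply] at h2
      rw [Equiv.Perm.mul_apply, Equiv.Perm.mul_apply, h1]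
      have e1 : Ψ (g (y i)) + U * (((N * m ^ k1 : ℕ) : ℤ) * s) =
          Ψ (g (y i)) + ((N * m ^ k1 : ℕ) : ℤ) * (U * s) := by ring
      rw [e1, h2]
      ring

/-- contracting steps followed by a return -/
private theorem as1_step {N m k1 kap J DE DW j : ℕ} (hN : 0 < N) (hm : 0 < m) {H : Subgroup (Equiv.Perm ℤ)}
    {S : Set (Equiv.Perm ℤ)} {y : ℕ → ℤ} {E : Finset (Equiv.Perm ℤ)} (hEH : ∀ t ∈ E, t ∈ H)
    (hEb : ∀ t ∈ E, t ∈ ball S DE) (hEa : ∀ t ∈ E, Aff N m k1 t)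
    (hasc : ∀ g ∈ H, ∃ t ∈ E, ∃ u i0 : ℕ, m ∣ u ∧ ∀ i, i0 ≤ i → SlopeAt t (g (y i)) u 1)
    {W : Finset (Equiv.Perm ℤ)} (hWH : ∀ w ∈ W, w ∈ H) (hWb : ∀ w ∈ W, w ∈ ball S DW)
    (hWa : ∀ w ∈ W, Aff N m kap w)
    (hap : ∀ g ∈ H, ∃ w ∈ W, ∃ i0 : ℕ, ∀ i, i0 ≤ i → ((j ! : ℕ) : ℤ) ∣ w (g (y i)) - y j) :
    ∀ g ∈ H, ∃ Φ : Equiv.Perm ℤ, ∃ i0 : ℕ, Φ ∈ H ∧ Φ ∈ ball S (DW + DE * (kap + J)) ∧ ∀ i, i0 ≤ i →
      ((j ! : ℕ) : ℤ) ∣ Φ (g (y i)) - y j ∧ ∃ U : ℤ, (m : ℤ) ^ J ∣ U ∧ ∀ s : ℤ,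
        Φ (g (y i) + ((N * m ^ k1 : ℕ) : ℤ) * s) = Φ (g (y i)) + U * (((N * m ^ k1 : ℕ) : ℤ) * s) := by
  intro g hg
  obtain ⟨Ψ, hΨH, hΨb, U, hU, i0, hi0⟩ := as1_asc hN hm hEH hEb hEa hasc (kap + J) g hg
  obtain ⟨w, hw, i1, hi1⟩ := hap (Ψ * g) (mul_mem hΨH hg)
  refine ⟨w * Ψ, max i0 i1, mul_mem (hWH w hw) hΨH, ball_mul (hWb w hw) hΨb, fun i hi => ⟨?_, ?_⟩⟩
  · exact hi1 i (le_of_max_le_right hi)
  · obtain ⟨uw, vw, huw, hvw, haf⟩ := hWa w hw (Ψ (g (y i)))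
    have hv0 : 0 < vw := Nat.pos_of_dvd_of_pos hvw (pow_pos hm kap)
    have hv1 : (vw : ℤ) ≠ 0 := by exact_mod_cast hv0.ne'
    obtain ⟨cc, hcc⟩ := hvw
    obtain ⟨U', hU'⟩ := hU
    refine ⟨uw * cc * (m : ℤ) ^ J * U', ⟨uw * cc * U', by ring⟩, fun s => ?_⟩
    rw [Equiv.Perm.mul_apply, Equiv.Perm.mul_apply, hi0 i (le_of_max_le_left hi) s]
    have e1 : U * (((N * m ^ k1 : ℕ) : ℤ) * s) =
        ((N * m ^ kap : ℕ) : ℤ) * ((m : ℤ) ^ J * U' * (m : ℤ) ^ k1 * s) := by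
      rw [hU', pow_add]
      push_cast
      ring
    have h1 := haf ((m : ℤ) ^ J * U' * (m : ℤ) ^ k1 * s)
    rw [← e1] at h1
    have e2 : (uw : ℤ) * (U * (((N * m ^ k1 : ℕ) : ℤ) * s)) =
        vw * (uw * cc * (m : ℤ) ^ J * U' * (((N * m ^ k1 : ℕ) : ℤ) * s)) := by
      have e3 : (m : ℤ) ^ kap = vw * cc := by exact_mod_cast hcc
      rw [hU', pow_add, e3]
      ring
    rw [e2] at h1
    have h2 := mul_left_cancel₀ hv1 h1
    linarith

/-- all elements of a finite set are in one ball and have one level -/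
private theorem as1_bound {N m : ℕ} {S : Set (Equiv.Perm ℤ)} (E : Finset (Equiv.Perm ℤ))
    (hE : ∀ t ∈ E, t ∈ Subgroup.closure S)
    (haff : ∀ h ∈ Subgroup.closure S, ∃ k : ℕ, Aff N m k h) :
    ∃ D k : ℕ, (∀ t ∈ E, t ∈ ball S D) ∧ ∀ t ∈ E, Aff N m k t := by
  classical
  have h1 : ∀ t ∈ E, ∃ D, t ∈ ball S D := fun t ht => mem_ball_of_closure (hE t ht)
  have h2 : ∀ t ∈ E, ∃ k, Aff N m k t := fun t ht => haff t (hE t ht)
  choose! D hD using h1
  choose! k hk using h2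
  exact ⟨E.sup D, E.sup k, fun t ht => ball_mono (Finset.le_sup ht) (hD t ht),
    fun t ht => Aff.mono (Finset.le_sup ht) (hk t ht)⟩

/-- the final argument for one path -/
private theorem as1_path {N m k1 kf j D : ℕ} (hN : 0 < N) (hm : 0 < m) {H : Subgroup (Equiv.Perm ℤ)}
    {S : Set (Equiv.Perm ℤ)} {y : ℕ → ℤ} (hy : Pro y) (hj : N * m ^ kf ∣ j !) {f : Equiv.Perm ℤ}
    (hfa : Aff N m kf f) (hfix : ∀ x : ℤ, ((N * m ^ kf : ℕ) : ℤ) ∣ x - y j → f x = x)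
    {J' : ℕ} (hJ' : N * m ^ k1 ∣ J' !) {n1 : ℤ} (hn1 : ((J' ! : ℕ) : ℤ) ∣ n1 - y J') (hfn1 : f n1 ≠ n1)
    (hstep : ∀ g ∈ H, ∃ Φ : Equiv.Perm ℤ, ∃ i0 : ℕ, Φ ∈ H ∧ Φ ∈ ball S D ∧ ∀ i, i0 ≤ i →
      ((j ! : ℕ) : ℤ) ∣ Φ (g (y i)) - y j ∧ ∃ U : ℤ, (m : ℤ) ^ kf ∣ U ∧ ∀ s : ℤ,
        Φ (g (y i) + ((N * m ^ k1 : ℕ) : ℤ) * s) = Φ (g (y i)) + U * (((N * m ^ k1 : ℕ) : ℤ) * s))
    (M : ℕ) : ∃ P : ℕ → Equiv.Perm ℤ, P 0 = 1 ∧ (∀ i < M, (P i)⁻¹ * P (i + 1) ∈ ball S D) ∧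
      ∀ i < M, P i * f * (P i)⁻¹ ∉ Subgroup.closure {x | ∃ j < i, x = P j * f * (P j)⁻¹} := by
  classical
  choose! Φ I0 hΦ using hstep
  let γ : ℕ → Equiv.Perm ℤ := fun n => Nat.rec 1 (fun _ g => Φ g * g) n
  have hγ0 : γ 0 = 1 := rfl
  have hγs : ∀ s, γ (s + 1) = Φ (γ s) * γ s := fun s => rfl
  have hγH : ∀ s, γ s ∈ H := by
    intro s
    induction s with
    | zero => exact one_mem H
    | succ s ih =>
      rw [hγs]
      exact mul_mem (hΦ _ ih).1 ih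
  obtain ⟨i, hi1, hi2, hi3⟩ : ∃ i : ℕ, j ≤ i ∧ J' ≤ i ∧ ∀ s < M, I0 (γ s) ≤ i :=
    ⟨(Finset.range M).sup (fun s => I0 (γ s)) + J' + j, by omega, by omega, fun s hs => by
      have := Finset.le_sup (f := fun s => I0 (γ s)) (Finset.mem_range.2 hs)
      omega⟩
  have hcof : ∀ {a b : ℕ}, a ∣ b → ((a : ℕ) : ℤ) ∣ ((b : ℕ) : ℤ) := fun h => Int.natCast_dvd_natCast.2 h
  have hx : ∀ s ≤ M, ((N * m ^ kf : ℕ) : ℤ) ∣ γ s (y i) - y j := by
    intro s hs
    refine (hcof hj).trans ?_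
    cases s with
    | zero =>
      rw [hγ0]
      exact Pro.coh hy hi1
    | succ s =>
      rw [hγs, Equiv.Perm.mul_apply]
      exact ((hΦ _ (hγH s)).2.2 i (hi3 s (by omega))).1
  have hlong : ∀ s s' : ℕ, s ≤ s' → s' ≤ M → ∃ L : ℤ, (s < s' → (m : ℤ) ^ kf ∣ L) ∧ ∀ σ : ℤ,
      (γ s' * (γ s)⁻¹) (γ s (y i) + ((N * m ^ k1 : ℕ) : ℤ) * σ) =
        γ s' (y i) + L * (((N * m ^ k1 : ℕ) : ℤ) * σ) := by
    intro s s' hss
    induction s', hss using Nat.le_induction with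
    | base =>
      intro _
      refine ⟨1, fun h => absurd h (lt_irrefl _), fun σ => ?_⟩
      rw [mul_inv_cancel, Equiv.Perm.one_apply, one_mul]
    | succ s' hss ih =>
      intro hsM
      obtain ⟨L, hL1, hL2⟩ := ih (by omega)
      obtain ⟨U, hU1, hU2⟩ := ((hΦ _ (hγH s')).2.2 i (hi3 s' (by omega))).2
      refine ⟨U * L, fun _ => Dvd.dvd.mul_right hU1 L, fun σ => ?_⟩
      have e1 : γ (s' + 1) * (γ s)⁻¹ = Φ (γ s') * (γ s' * (γ s)⁻¹) := by
        rw [hγs, mul_assoc]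
      rw [e1, Equiv.Perm.mul_apply, hL2 σ]
      have e2 : L * (((N * m ^ k1 : ℕ) : ℤ) * σ) = ((N * m ^ k1 : ℕ) : ℤ) * (L * σ) := by ring
      rw [e2, hU2, hγs, Equiv.Perm.mul_apply]
      ring
  have hZ : ∀ s ≤ M, ∃ σ : ℤ, f (γ s (y i) + ((N * m ^ k1 : ℕ) : ℤ) * σ) ≠
      γ s (y i) + ((N * m ^ k1 : ℕ) : ℤ) * σ := by
    intro s hs
    by_contra hcon
    push Not at hcon
    have hc1 : (0 : ℤ) < ((N * m ^ k1 : ℕ) : ℤ) := by
      exact_mod_cast Nat.mul_pos hN (pow_pos hm k1)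
    -- `n1 = γ s (y i) + N m^k1 a + N m^kf b`
    have ha : ((N * m ^ k1 : ℕ) : ℤ) ∣ n1 - y i := by
      have h1 := (hcof hJ').trans hn1
      have h2 := (hcof hJ').trans (Pro.coh hy hi2)
      have e : n1 - y i = (n1 - y J') - (y i - y J') := by ring
      rw [e]
      exact dvd_sub h1 h2
    have hb : ((N * m ^ kf : ℕ) : ℤ) ∣ y i - γ s (y i) := by
      have h1 := hx s hs
      have h2 := (hcof hj).trans (Pro.coh hy hi1)
      have e : y i - γ s (y i) = (y i - y j) - (γ s (y i) - y j) := by ring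
      rw [e]
      exact dvd_sub h2 h1
    obtain ⟨a, ha⟩ := ha
    obtain ⟨b, hb⟩ := hb
    have h3 := Aff.id_class hN hm hfa (n := γ s (y i) + ((N * m ^ k1 : ℕ) : ℤ) * a) hc1 (by
      intro t
      have h4 := hcon (a + t)
      have e : γ s (y i) + ((N * m ^ k1 : ℕ) : ℤ) * a + ((N * m ^ k1 : ℕ) : ℤ) * t =
          γ s (y i) + ((N * m ^ k1 : ℕ) : ℤ) * (a + t) := by ring
      rw [e]
      exact h4) b
    have e : γ s (y i) + ((N * m ^ k1 : ℕ) : ℤ) * a + ((N * m ^ kf : ℕ) : ℤ) * b = n1 := by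
      rw [← ha, ← hb]
      ring
    rw [e] at h3
    exact hfn1 h3
  refine ⟨fun r => γ M * (γ (M - r))⁻¹, ?_, ?_, ?_⟩
  · simp
  · intro r hr
    have e1 : (γ M * (γ (M - r))⁻¹)⁻¹ * (γ M * (γ (M - (r + 1)))⁻¹) = Φ (γ (M - (r + 1))) := by
      have e2 : γ (M - r) = Φ (γ (M - (r + 1))) * γ (M - (r + 1)) := by
        have e3 : M - r = M - (r + 1) + 1 := by omega
        rw [e3, hγs]
      rw [e2]
      group
    simp only [e1]
    exact (hΦ _ (hγH _)).2.1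
  · intro r hr hmem
    obtain ⟨σ, hσ⟩ := hZ (M - r) (by omega)
    set z := γ (M - r) (y i) + ((N * m ^ k1 : ℕ) : ℤ) * σ with hz
    have hsub : Subgroup.closure {x | ∃ j < r, x = (γ M * (γ (M - j))⁻¹) * f * (γ M * (γ (M - j))⁻¹)⁻¹} ≤
        MulAction.stabilizer (Equiv.Perm ℤ) ((γ M * (γ (M - r))⁻¹) z) := by
      rw [Subgroup.closure_le]
      rintro _ ⟨q, hq, rfl⟩
      rw [SetLike.mem_coe, MulAction.mem_stabilizer_iff, Equiv.Perm.smul_def]
      have e1 : (γ M * (γ (M - q))⁻¹)⁻¹ * (γ M * (γ (M - r))⁻¹) = γ (M - q) * (γ (M - r))⁻¹ := by group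
      obtain ⟨L, hL1, hL2⟩ := hlong (M - r) (M - q) (by omega) (by omega)
      have h5 : (γ M * (γ (M - q))⁻¹)⁻¹ ((γ M * (γ (M - r))⁻¹) z) =
          γ (M - q) (y i) + L * (((N * m ^ k1 : ℕ) : ℤ) * σ) := by
        rw [← Equiv.Perm.mul_apply, e1, hz, hL2]
      have h6 : f (γ (M - q) (y i) + L * (((N * m ^ k1 : ℕ) : ℤ) * σ)) =
          γ (M - q) (y i) + L * (((N * m ^ k1 : ℕ) : ℤ) * σ) := by
        refine hfix _ ?_
        obtain ⟨L', hL'⟩ := hL1 (by omega)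
        have e2 : γ (M - q) (y i) + L * (((N * m ^ k1 : ℕ) : ℤ) * σ) - y j =
            (γ (M - q) (y i) - y j) + ((N * m ^ kf : ℕ) : ℤ) * (L' * (m : ℤ) ^ k1 * σ) := by
          rw [hL']
          push_cast
          ring
        rw [e2]
        exact dvd_add (hx _ (by omega)) (dvd_mul_right _ _)
      rw [Equiv.Perm.mul_apply, Equiv.Perm.mul_apply, h5, h6, ← h5]
      exact Equiv.apply_symm_apply _ _
    have h7 := hsub hmem
    rw [MulAction.mem_stabilizer_iff, Equiv.Perm.smul_def] at h7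
    have h8 : ((γ M * (γ (M - r))⁻¹) * f * (γ M * (γ (M - r))⁻¹)⁻¹) ((γ M * (γ (M - r))⁻¹) z) =
        (γ M * (γ (M - r))⁻¹) (f z) := by
      rw [Equiv.Perm.mul_apply, Equiv.Perm.mul_apply]
      congr 2
      exact Equiv.symm_apply_apply _ _
    have h9 := h8.symm.trans h7
    exact hσ ((γ M * (γ (M - r))⁻¹).injective h9)

/-- An almost periodic ascending point has a uniform germ stabiliser. -/
theorem uniStab_of_asc {N m : ℕ} (hN : 0 < N) (hm : 2 ≤ m) {S : Finset (Equiv.Perm ℤ)}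
    (hexp : NoExp (S : Set (Equiv.Perm ℤ)))
    (haff : ∀ h ∈ Subgroup.closure (S : Set (Equiv.Perm ℤ)), ∃ k : ℕ, Aff N m k h)
    {y : ℕ → ℤ} (hy : Pro y) (hap : AlmPer (Subgroup.closure (S : Set (Equiv.Perm ℤ))) y)
    (hasc : AscPt m (Subgroup.closure (S : Set (Equiv.Perm ℤ))) y) :
    UniStab (Subgroup.closure (S : Set (Equiv.Perm ℤ))) y := by
  classical
  have hm0 : 0 < m := by omega
  obtain ⟨E, hEH, hasc⟩ := hasc
  obtain ⟨DE, k1, hEb, hEa⟩ := as1_bound E hEH haff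
  have hasc' : ∀ g ∈ Subgroup.closure (S : Set (Equiv.Perm ℤ)), ∃ t ∈ E, ∃ u i0 : ℕ, m ∣ u ∧
      ∀ i, i0 ≤ i → SlopeAt t (g (y i)) u 1 := by
    intro g hg
    obtain ⟨t, ht, u, i0, hu, hi0⟩ := hasc g hg
    exact ⟨t, ht, u, i0, hu, fun i hi => hi0 _ (Pro.coh hy hi)⟩
  refine ⟨N * m ^ k1, fun f hf hfix n1 hn1 => ?_⟩
  by_contra hfn1
  apply hexp
  obtain ⟨kf, hfa⟩ := haff f hf
  obtain ⟨j0, hj0⟩ := hfix
  obtain ⟨W, hWH, hW⟩ := hap (N * m ^ kf)
  obtain ⟨DW, kap, hWb, hWa⟩ := as1_bound W hWH haff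
  have hW' : ∀ g ∈ Subgroup.closure (S : Set (Equiv.Perm ℤ)), ∃ w ∈ W, ∃ i0 : ℕ, ∀ i, i0 ≤ i →
      (((N * m ^ kf) ! : ℕ) : ℤ) ∣ w (g (y i)) - y (N * m ^ kf) := by
    intro g hg
    obtain ⟨w, hw, i0, hi0⟩ := hW g hg
    exact ⟨w, hw, i0, fun i hi => hi0 _ (Pro.coh hy hi)⟩
  have hpos : ∀ k : ℕ, 0 < N * m ^ k := fun k => Nat.mul_pos hN (pow_pos hm0 k)
  have hdvd : ∀ k : ℕ, N * m ^ k ∣ (N * m ^ k) ! := fun k => Nat.dvd_factorial (hpos k) le_rfl
  have hfix' : ∀ x : ℤ, ((N * m ^ kf : ℕ) : ℤ) ∣ x - y (N * m ^ kf) → f x = x := by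
    intro x hx
    set j := N * m ^ kf with hj
    set j3 := max j0 j with hj3
    have h1 : ((j : ℕ) : ℤ) ∣ x - y j3 := by
      have h2 : ((j : ℕ) : ℤ) ∣ y j3 - y j :=
        (Int.natCast_dvd_natCast.2 (hdvd kf)).trans (Pro.coh hy (le_max_right _ _))
      have e : x - y j3 = (x - y j) - (y j3 - y j) := by ring
      rw [e]
      exact dvd_sub hx h2
    obtain ⟨t, ht⟩ := h1
    have h3 := Aff.id_class hN hm0 hfa (n := y j3) (M := ((j3 ! : ℕ) : ℤ))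
      (by exact_mod_cast Nat.factorial_pos j3) (by
        intro s
        refine hj0 _ (pro_deep hy (le_max_left j0 j) ?_)
        exact ⟨s, by ring⟩) t
    have e : y j3 + ((N * m ^ kf : ℕ) : ℤ) * t = x := by
      rw [← hj, ← ht]
      ring
    rw [e] at h3
    exact h3
  refine exp_of_path S.finite_toSet hf (DW + DE * (kap + kf)) fun M => ?_
  exact as1_path hN hm0 hy (hdvd kf) hfa hfix' (hdvd k1) hn1 hfn1
    (as1_step hN hm0 hEH hEb hEa hasc' hWH hWb hWa hW') M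
-- END as1

end Pool.Agent.Uhy
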