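import Pool.Agent.Uhy.Defs

namespace Pool.Agent.Uhy

open Pool.Agent.CTm Pool.Agent.Grm Pool.Agent.Lgp Filter

variable {G : Type*} [Group G]

-- BEGIN cn1
/-- If the balls double when the radius grows by a constant, then the growth is exponential. -/
theorem exp_of_double {S : Set G} (hS : S.Finite) {L : ℕ}
    (h : ∀ n : ℕ, 2 * growth S n ≤ growth S (n + L)) :
    ∃ c : ℝ, 1 < c ∧ ∀ᶠ n : ℕ in atTop, c ^ n ≤ growth S n := by
  have h0 : 1 ≤ growth S 0 := by
    have h1 : (1 : G) ∈ ball S 0 := ⟨[], by simp, by simp, rfl⟩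
    exact (Set.ncard_pos (ball_finite hS 0)).2 ⟨1, h1⟩
  have hL : 0 < L := by
    rcases Nat.eq_zero_or_pos L with h1 | h1
    · have h2 := h 0
      rw [h1, Nat.add_zero] at h2
      omega
    · exact h1
  have hk : ∀ k, 2 ^ k ≤ growth S (L * k) := by
    intro k
    induction k with
    | zero => simpa using h0
    | succ k ih =>
      have h2 := h (L * k)
      have h3 : L * (k + 1) = L * k + L := Nat.mul_succ L k
      rw [pow_succ, h3]
      omega
  have hc1 : (1 : ℝ) < (2 : ℝ) ^ ((1 : ℝ) / (2 * L)) :=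
    Real.one_lt_rpow (by norm_num) (by positivity)
  have hc2 : ((2 : ℝ) ^ ((1 : ℝ) / (2 * L))) ^ (2 * L) = 2 := by
    rw [← Real.rpow_natCast, ← Real.rpow_mul (by norm_num)]
    have hL' : (L : ℝ) ≠ 0 := by positivity
    have : (1 : ℝ) / (2 * L) * ((2 * L : ℕ) : ℝ) = 1 := by
      push_cast
      field_simp
    rw [this, Real.rpow_one]
  refine ⟨_, hc1, ?_⟩
  filter_upwards [eventually_ge_atTop L] with n hn
  have h1 : 1 ≤ n / L := (Nat.one_le_div_iff hL).2 hn
  have h2 : n ≤ 2 * L * (n / L) := by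
    have h3 := Nat.div_add_mod n L
    have h4 := Nat.mod_lt n hL
    nlinarith
  have h3 : L * (n / L) ≤ n := Nat.mul_div_le n L
  calc ((2 : ℝ) ^ ((1 : ℝ) / (2 * L))) ^ n ≤
      ((2 : ℝ) ^ ((1 : ℝ) / (2 * L))) ^ (2 * L * (n / L)) :=
        pow_le_pow_right₀ hc1.le h2
    _ = 2 ^ (n / L) := by rw [pow_mul, hc2]
    _ ≤ growth S (L * (n / L)) := by
        have := hk (n / L)
        exact_mod_cast this
    _ ≤ growth S n := by
        have := growth_mono hS h3
        exact_mod_cast this
-- END cn1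

-- BEGIN cn2
private theorem cn2_mem {S : Set G} {n : ℕ} {g : G} (hg : g ∈ ball S n) : g ∈ Subgroup.closure S := by
  obtain ⟨l, -, h2, rfl⟩ := hg
  refine Subgroup.list_prod_mem _ fun x hx => ?_
  rcases h2 x hx with h | h
  · exact Subgroup.subset_closure h
  · have := inv_mem (Subgroup.subset_closure h : x⁻¹ ∈ Subgroup.closure S)
    rwa [inv_inv] at this

private theorem cn2_pow {S : Set G} {T : G} {t : ℕ} (ht : T ∈ ball S t) (i : ℕ) :
    T ^ i ∈ ball S (i * t) := by
  induction i with
  | zero => exact ⟨[], by simp, by simp, by simp⟩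
  | succ i ih =>
    rw [pow_succ, Nat.succ_mul]
    exact ball_mul ih ht

/-- If every element of the group is moved by a bounded element into one of finitely many sets which are wandering
for `T`, then the growth is exponential. -/
theorem exp_of_wandering {S : Set G} (hS : S.Finite) {T : G} (hT : T ∈ Subgroup.closure S)
    {ι : Type*} [Finite ι] (P : ι → Set G)
    (hw : ∀ c, ∀ g ∈ P c, ∀ q : ℕ, 1 ≤ q → T ^ q * g ∉ P c) (R : ℕ)
    (hcov : ∀ g ∈ Subgroup.closure S, ∃ h ∈ ball S R, ∃ c, h * g ∈ P c) :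
    ∃ c : ℝ, 1 < c ∧ ∀ᶠ n : ℕ in atTop, c ^ n ≤ growth S n := by
  classical
  have : Fintype ι := Fintype.ofFinite ι
  obtain ⟨t, ht⟩ := mem_ball_of_closure hT
  set E : Finset (G × ι) := (ball_finite hS R).toFinset ×ˢ Finset.univ with hE
  have hEne : E.Nonempty := by
    obtain ⟨h, hh, c, -⟩ := hcov 1 (one_mem _)
    exact ⟨(h, c), by simp [hE, hh]⟩
  refine exp_of_double hS (L := R + 2 * E.card * t) fun n => ?_
  set Bn : Finset G := (ball_finite hS n).toFinset with hBn
  have hBcard : growth S n = Bn.card := by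
    rw [growth, hBn, Set.ncard_eq_toFinset_card _ (ball_finite hS n)]
  let F : G × ι → Finset G := fun p => Bn.filter fun g => p.1 * g ∈ P p.2
  have hcovB : Bn ⊆ E.biUnion F := by
    intro g hg
    have hg' : g ∈ ball S n := by simpa [hBn] using hg
    obtain ⟨h, hh, c, hc⟩ := hcov g (cn2_mem hg')
    rw [Finset.mem_biUnion]
    exact ⟨(h, c), by simp [hE, hh], Finset.mem_filter.2 ⟨hg, hc⟩⟩
  have hsum : Bn.card ≤ ∑ p ∈ E, (F p).card :=
    (Finset.card_le_card hcovB).trans Finset.card_biUnion_le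
  obtain ⟨p, hp, hpc⟩ : ∃ p ∈ E, Bn.card ≤ E.card * (F p).card := by
    refine Finset.exists_le_of_sum_le hEne ?_
    rw [Finset.sum_const, smul_eq_mul, ← Finset.mul_sum]
    exact Nat.mul_le_mul_left _ hsum
  have hpR : p.1 ∈ ball S R := by
    have := (Finset.mem_product.1 hp).1
    simpa using this
  have hinj : Set.InjOn (fun q : ℕ × G => T ^ q.1 * (p.1 * q.2))
      ((Finset.range (2 * E.card) ×ˢ F p : Finset (ℕ × G)) : Set (ℕ × G)) := by
    have key : ∀ i j : ℕ, ∀ g ∈ F p, ∀ g' ∈ F p, i < j →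
        T ^ i * (p.1 * g) ≠ T ^ j * (p.1 * g') := by
      intro i j g hg g' hg' hij he
      have h1 : p.1 * g = T ^ (j - i) * (p.1 * g') := by
        have h2 : T ^ j = T ^ i * T ^ (j - i) := by
          rw [← pow_add]
          congr 1
          omega
        rw [h2, mul_assoc] at he
        exact mul_left_cancel he
      have h3 := hw p.2 _ (Finset.mem_filter.1 hg').2 (j - i) (by omega)
      rw [← h1] at h3
      exact h3 (Finset.mem_filter.1 hg).2
    rintro ⟨i, g⟩ hig ⟨j, g'⟩ hjg he
    have hg : g ∈ F p := (Finset.mem_product.1 (Finset.mem_coe.1 hig)).2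
    have hg' : g' ∈ F p := (Finset.mem_product.1 (Finset.mem_coe.1 hjg)).2
    simp only at he
    rcases lt_trichotomy i j with h | h | h
    · exact absurd he (key i j g hg g' hg' h)
    · subst h
      have h1 := mul_left_cancel (mul_left_cancel he)
      rw [h1]
    · exact absurd he.symm (key j i g' hg' g hg h)
  have himg : (fun q : ℕ × G => T ^ q.1 * (p.1 * q.2)) ''
      ((Finset.range (2 * E.card) ×ˢ F p : Finset (ℕ × G)) : Set (ℕ × G)) ⊆
      ball S (n + (R + 2 * E.card * t)) := by
    rintro _ ⟨⟨i, g⟩, hig, rfl⟩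
    have hi : i < 2 * E.card :=
      Finset.mem_range.1 (Finset.mem_product.1 (Finset.mem_coe.1 hig)).1
    have hg : g ∈ F p := (Finset.mem_product.1 (Finset.mem_coe.1 hig)).2
    have hg' : g ∈ ball S n := by
      have := (Finset.mem_filter.1 hg).1
      simpa [hBn] using this
    refine ball_mono ?_ (ball_mul (cn2_pow ht i) (ball_mul hpR hg'))
    have : i * t ≤ 2 * E.card * t := Nat.mul_le_mul_right _ hi.le
    omega
  have hle := Set.ncard_le_ncard himg (ball_finite hS _)
  rw [hinj.ncard_image, Set.ncard_coe_finset, Finset.card_product,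
    Finset.card_range] at hle
  calc 2 * growth S n = 2 * Bn.card := by rw [hBcard]
    _ ≤ 2 * (E.card * (F p).card) := Nat.mul_le_mul_left _ hpc
    _ = 2 * E.card * (F p).card := by ring
    _ ≤ _ := hle
-- END cn2

end Pool.Agent.Uhy
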