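import Pool.Agent.Lgp.Core

/-!
# Hyperbolic elements: definitions
-/

namespace Pool.Agent.Uhy

open Pool.Agent.CTm Pool.Agent.Grm Pool.Agent.Lgp Filter Nat

/-- on some residue class around `n` the map `T` is affine with slope `u / v` -/
def SlopeAt (T : Equiv.Perm ℤ) (n : ℤ) (u v : ℕ) : Prop :=
  ∃ M : ℤ, 0 < M ∧ ∀ k : ℤ, (v : ℤ) * (T (n + M * k) - T n) = u * (M * k)

/-- along the whole orbit of `n` the slopes of `T` are `u / v` where `u` has the same prime factors as `a` and `v`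
the same prime factors as `b` -/
def Pat (T : Equiv.Perm ℤ) (a b : ℕ) (n : ℤ) : Prop :=
  ∀ i : ℤ, ∃ u v e : ℕ, a ∣ u ∧ u ∣ a ^ e ∧ b ∣ v ∧ v ∣ b ^ e ∧ SlopeAt T ((T ^ i) n) u v

/-- `T` is hyperbolic at `n`: every prime factor of `m` divides exactly one of the numerator and the denominator of
the slope, in the same way along the whole orbit of `n` (`m` is squarefree) -/
def HypAt (m : ℕ) (T : Equiv.Perm ℤ) (n : ℤ) : Prop :=
  ∃ a b : ℕ, a * b = m ∧ Pat T a b n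

/-- `h` is affine on the classes modulo `N m^k`, with slopes which are quotients of divisors of `m^k` -/
def Aff (N m k : ℕ) (h : Equiv.Perm ℤ) : Prop :=
  ∀ n : ℤ, ∃ u v : ℕ, u ∣ m ^ k ∧ v ∣ m ^ k ∧ ∀ t : ℤ,
    (v : ℤ) * (h (n + ((N * m ^ k : ℕ) : ℤ) * t) - h n) = u * (((N * m ^ k : ℕ) : ℤ) * t)

/-- the class of `r` modulo `N m^k` is wandering for `T` -/
def Wand (N m k : ℕ) (T : Equiv.Perm ℤ) (r : ℤ) : Prop :=
  ∀ x : ℤ, ((N * m ^ k : ℕ) : ℤ) ∣ x - r → ∀ q : ℕ, 1 ≤ q → ¬ ((N * m ^ k : ℕ) : ℤ) ∣ (T ^ q) x - r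

/-- the cosets of `V` which meet the balls: polynomial growth -/
def PolyQ {G : Type*} [Group G] (S : Set G) (V : Subgroup G) : Prop :=
  ∃ C d : ℕ, ∀ n : ℕ, 1 ≤ n → ((QuotientGroup.mk : G → G ⧸ V) '' ball S n).ncard ≤ C * n ^ d

end Pool.Agent.Uhy
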