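import Pool.Agent.Uhy.Uni
import Pool.Agent.Lgp.Cont

/-!
# Points at which the denominators of the slopes are bounded
-/

namespace Pool.Agent.Uhy

open Pool.Agent.CTm Pool.Agent.Grm Pool.Agent.Lgp Filter Nat

/-- the denominators of the slopes at `y` of the elements of `H` divide one number -/
def BddDen (H : Subgroup (Equiv.Perm ℤ)) (y : ℕ → ℤ) : Prop :=
  ∃ D : ℕ, 0 < D ∧ ∀ h ∈ H, ∀ a : ℚ × ℚ, Germ y h a → a.1.den ∣ D

/-- all elements of `H` are affine on one class around `y` -/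
theorem aff_common {S : Set (Equiv.Perm ℤ)} {M : ℕ} {A : Finset (ℚ × ℚ)} (hd : Data S M A)
    {y : ℕ → ℤ} (hy : Pro y) {D : ℕ}
    (hden : ∀ h ∈ Subgroup.closure S, ∀ a : ℚ × ℚ, Germ y h a → a.1.den ∣ D)
    {h : Equiv.Perm ℤ} (hh : h ∈ Subgroup.closure S) :
    ∃ (a : ℚ × ℚ) (i : ℕ), Germ y h a ∧ ∀ n : ℤ, ((i ! : ℕ) : ℤ) ∣ n - y i → ∀ t : ℤ,
      ((h (n + ((M * D : ℕ) : ℤ) * t) : ℤ) : ℚ) = h n + a.1 * (((M * D : ℕ) : ℤ) * t : ℤ) := by
  obtain ⟨l, hl, rfl⟩ := list_of_closure hh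
  clear hh
  induction l with
  | nil => exact ⟨(1, 0), 0, Germ.one, fun n _ t => by simp⟩
  | cons s l ih =>
    have hlS : l.prod ∈ Subgroup.closure S := list_mem fun x hx => hl x (by simp [hx])
    obtain ⟨a, i, ha, hi⟩ := ih fun x hx => hl x (by simp [hx])
    have hda := hden _ hlS a ha
    obtain ⟨i1, h1⟩ := germ_cont hy ha M hd.pos
    obtain ⟨i2, h2⟩ := ha.deep hy
    set I := max i (max i1 i2) with hI
    have hI0 : i ≤ I := le_max_left _ _
    have hI1 : i1 ≤ I := (le_max_left _ _).trans (le_max_right _ _)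
    have hI2 : i2 ≤ I := (le_max_right _ _).trans (le_max_right _ _)
    obtain ⟨c, _, hc⟩ := hd.aff s (hl s (by simp)) (l.prod (y I))
    rw [List.prod_cons]
    refine ⟨(c.1 * a.1, c.1 * a.2 + c.2), I, ⟨I, fun n hn => ?_⟩, fun n hn t => ?_⟩
    · have e1 := hc (l.prod n) (h1 I hI1 n hn)
      have e2 := h2 I hI2 n hn
      rw [Equiv.Perm.mul_apply, e1, e2]
      ring
    · -- the increment is divisible by `M`
      obtain ⟨q, hq⟩ := hda
      have h3 : a.1 * (a.1.den : ℚ) = a.1.num := Rat.mul_den_eq_num a.1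
      have h4 := hi n (pro_deep hy hI0 hn) t
      have hinc : (M : ℤ) ∣ l.prod (n + ((M * D : ℕ) : ℤ) * t) - l.prod n := by
        refine ⟨a.1.num * q * t, ?_⟩
        have h5 : ((l.prod (n + ((M * D : ℕ) : ℤ) * t) - l.prod n : ℤ) : ℚ) =
            ((M * (a.1.num * q * t) : ℤ) : ℚ) := by
          push_cast at h4 ⊢
          rw [h4, hq]
          push_cast
          linear_combination (M : ℚ) * q * t * h3
        exact_mod_cast h5
      have e1 := hc (l.prod n) (h1 I hI1 n hn)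
      have e2 := hc (l.prod (n + ((M * D : ℕ) : ℤ) * t)) (by
        have e : l.prod (n + ((M * D : ℕ) : ℤ) * t) - l.prod (y I) =
          (l.prod (n + ((M * D : ℕ) : ℤ) * t) - l.prod n) + (l.prod n - l.prod (y I)) := by ring
        rw [e]
        exact dvd_add hinc (h1 I hI1 n hn))
      show ((s (l.prod (n + ((M * D : ℕ) : ℤ) * t)) : ℤ) : ℚ) = (s (l.prod n) : ℤ) +
        c.1 * a.1 * (((M * D : ℕ) : ℤ) * t : ℤ)
      rw [e2, e1, h4]
      ring

/-- bounded denominators: the germ stabiliser is uniform -/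
theorem uniStab_of_bddDen (S : Finset (Equiv.Perm ℤ)) (hS : ∀ s ∈ S, s ∈ CT) {y : ℕ → ℤ}
    (hy : Pro y) (h : BddDen (Subgroup.closure (S : Set (Equiv.Perm ℤ))) y) :
    UniStab (Subgroup.closure (S : Set (Equiv.Perm ℤ))) y := by
  obtain ⟨D, hD, hden⟩ := h
  obtain ⟨M, A, hd⟩ := exists_data S hS
  have hMD : 0 < M * D := Nat.mul_pos hd.pos hD
  refine ⟨M * D, fun f hf hfix n hn => ?_⟩
  obtain ⟨a, i, ha, hi⟩ := aff_common hd hy hden hf
  obtain ⟨j, hj⟩ := hfix
  -- the slope is one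
  have ha1 : a = (1, 0) := Germ.unique hy ha ⟨j, fun n hn => by rw [hj n hn]; simp⟩
  set I := max (M * D) (max i j) with hI
  have h0 : ((I ! : ℕ) : ℤ) ∣ y I - y I := by rw [sub_self]; exact dvd_zero _
  have h1 := hi (y I) (pro_deep hy ((le_max_left i j).trans (le_max_right _ _)) h0)
  have h2 := hj (y I) (pro_deep hy ((le_max_right i j).trans (le_max_right _ _)) h0)
  have h3 : (((M * D) ! : ℕ) : ℤ) ∣ y I - y (M * D) := pro_deep hy (le_max_left _ _) h0
  have h4 : ((M * D : ℕ) : ℤ) ∣ n - y I := by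
    have e : n - y I = (n - y (M * D)) - (y I - y (M * D)) := by ring
    rw [e]
    exact (Int.natCast_dvd_natCast.2 (Nat.dvd_factorial hMD le_rfl)).trans (dvd_sub hn h3)
  obtain ⟨t, ht⟩ := h4
  have h5 := h1 t
  rw [← ht, add_sub_cancel, h2, ha1] at h5
  have h6 : ((f n : ℤ) : ℚ) = ((n : ℤ) : ℚ) := by
    rw [h5]
    push_cast
    ring
  exact_mod_cast h6

end Pool.Agent.Uhy
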