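import Pool.Agent.Uhy.Quot
import Pool.Agent.Uhy.Fin

/-!
# The general ending: a germ stabiliser with finitely many conjugates
-/

namespace Pool.Agent.Uhy

open Pool.Agent.CTm Pool.Agent.Grm Pool.Agent.Lgp Filter Nat

/-- the stabiliser of the germ at `z` -/
def germStab (H : Subgroup (Equiv.Perm ℤ)) {z : ℕ → ℤ} (hz : Pro z) : Subgroup (Equiv.Perm ℤ) where
  carrier := {f | f ∈ H ∧ FixNear z f}
  one_mem' := ⟨one_mem _, 0, fun _ _ => rfl⟩
  mul_mem' := by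
    rintro a b ⟨ha, i, hi⟩ ⟨hb, j, hj⟩
    refine ⟨mul_mem ha hb, max i j, fun n hn => ?_⟩
    show a (b n) = n
    rw [hj n (pro_deep hz (le_max_right _ _) hn), hi n (pro_deep hz (le_max_left _ _) hn)]
  inv_mem' := by
    rintro a ⟨ha, i, hi⟩
    refine ⟨inv_mem ha, i, fun n hn => ?_⟩
    calc a⁻¹ n = a⁻¹ (a n) := by rw [hi n hn]
      _ = n := a.symm_apply_apply _

theorem mem_germStab {H : Subgroup (Equiv.Perm ℤ)} {z : ℕ → ℤ} {hz : Pro z} {f : Equiv.Perm ℤ} :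
    f ∈ germStab H hz ↔ f ∈ H ∧ FixNear z f := Iff.rfl

/-- the elements which are the identity near every point of the orbit of `z` -/
def germCore (H : Subgroup (Equiv.Perm ℤ)) {z : ℕ → ℤ} (hz : Pro z) : Subgroup (Equiv.Perm ℤ) where
  carrier := {f | f ∈ H ∧ ∀ g ∈ H, FixNear z (g⁻¹ * f * g)}
  one_mem' := ⟨one_mem _, fun g _ => ⟨0, fun n _ => by simp⟩⟩
  mul_mem' := by
    rintro a b ⟨ha, ha'⟩ ⟨hb, hb'⟩
    refine ⟨mul_mem ha hb, fun g hg => ?_⟩
    have h1 : g⁻¹ * (a * b) * g = (g⁻¹ * a * g) * (g⁻¹ * b * g) := by group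
    rw [h1]
    have h2 : g⁻¹ * a * g ∈ germStab H hz :=
      ⟨mul_mem (mul_mem (inv_mem hg) ha) hg, ha' g hg⟩
    have h3 : g⁻¹ * b * g ∈ germStab H hz :=
      ⟨mul_mem (mul_mem (inv_mem hg) hb) hg, hb' g hg⟩
    exact (mul_mem h2 h3).2
  inv_mem' := by
    rintro a ⟨ha, ha'⟩
    refine ⟨inv_mem ha, fun g hg => ?_⟩
    have h1 : g⁻¹ * a⁻¹ * g = (g⁻¹ * a * g)⁻¹ := by group
    rw [h1]
    have h2 : g⁻¹ * a * g ∈ germStab H hz :=
      ⟨mul_mem (mul_mem (inv_mem hg) ha) hg, ha' g hg⟩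
    exact (inv_mem h2).2

theorem mem_germCore {H : Subgroup (Equiv.Perm ℤ)} {z : ℕ → ℤ} {hz : Pro z} {f : Equiv.Perm ℤ} :
    f ∈ germCore H hz ↔ f ∈ H ∧ ∀ g ∈ H, FixNear z (g⁻¹ * f * g) := Iff.rfl

-- BEGIN en1
/-- If a subgroup `L` of finite index normalises the germ stabiliser at `z` then the coset growth of the germ
stabiliser is polynomial (no exponential growth). -/
theorem polyQ_stab (S : Finset (Equiv.Perm ℤ)) (hS : ∀ s ∈ S, s ∈ CT)
    (hexp : NoExp (S : Set (Equiv.Perm ℤ))) {z : ℕ → ℤ} (hz : Pro z)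
    {L : Subgroup (Equiv.Perm ℤ)} (hL : L ≤ Subgroup.closure (S : Set (Equiv.Perm ℤ)))
    (hfi : (L.subgroupOf (Subgroup.closure (S : Set (Equiv.Perm ℤ)))).FiniteIndex)
    (hn : ∀ g ∈ L, ∀ f ∈ germStab (Subgroup.closure (S : Set (Equiv.Perm ℤ))) hz,
      g * f * g⁻¹ ∈ germStab (Subgroup.closure (S : Set (Equiv.Perm ℤ))) hz) :
    PolyQ (S : Set (Equiv.Perm ℤ)) (germStab (Subgroup.closure (S : Set (Equiv.Perm ℤ))) hz) := by
  obtain ⟨B, F, hB, hF, hball⟩ := exists_schreier S L hL hfi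
  have hBL : Subgroup.closure (B : Set (Equiv.Perm ℤ)) ≤ L := (Subgroup.closure_le L).2 hB
  have hSCT : Subgroup.closure (S : Set (Equiv.Perm ℤ)) ≤ CT := (Subgroup.closure_le CT).2 hS
  rcases quot_alt B (fun b hb => hSCT (hL (hB b hb))) hz
    (K := germStab (Subgroup.closure (S : Set (Equiv.Perm ℤ))) hz)
    (fun g hg => ⟨fun h => h.2, fun h => ⟨hL (hBL hg), h⟩⟩)
    (fun g hg f hf => hn g (hBL hg) f hf) with h | h
  · exact polyQ_of_fi S B F _ hball h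
  · exact absurd (exp_of_sub S B (fun b hb => hL (hB b hb)) h) hexp
-- END en1

-- BEGIN en2
/-- The same for the core. -/
theorem polyQ_core (S : Finset (Equiv.Perm ℤ)) (hS : ∀ s ∈ S, s ∈ CT)
    (hexp : NoExp (S : Set (Equiv.Perm ℤ))) {z : ℕ → ℤ} (hz : Pro z)
    {L : Subgroup (Equiv.Perm ℤ)} (hL : L ≤ Subgroup.closure (S : Set (Equiv.Perm ℤ)))
    (hfi : (L.subgroupOf (Subgroup.closure (S : Set (Equiv.Perm ℤ)))).FiniteIndex)
    (hn : ∀ g ∈ L, ∀ f ∈ germStab (Subgroup.closure (S : Set (Equiv.Perm ℤ))) hz,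
      g * f * g⁻¹ ∈ germStab (Subgroup.closure (S : Set (Equiv.Perm ℤ))) hz) :
    PolyQ (S : Set (Equiv.Perm ℤ)) (germCore (Subgroup.closure (S : Set (Equiv.Perm ℤ))) hz) := by
  classical
  have hK := polyQ_stab S hS hexp hz hL hfi hn
  set H := Subgroup.closure (S : Set (Equiv.Perm ℤ)) with hH
  set K := germStab H hz with hKdef
  have : Finite (H ⧸ L.subgroupOf H) := Subgroup.finite_quotient_of_finiteIndex
  have : Fintype (H ⧸ L.subgroupOf H) := Fintype.ofFinite _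
  let W : Equiv.Perm ℤ → Subgroup (Equiv.Perm ℤ) := fun g =>
    K.comap (MulAut.conj g⁻¹).toMonoidHom
  have hW : ∀ g f : Equiv.Perm ℤ, f ∈ W g ↔ g⁻¹ * f * g ∈ K := by
    intro g f
    show (MulAut.conj g⁻¹) f ∈ K ↔ _
    rw [MulAut.conj_apply, inv_inv]
  have hWQ : ∀ g ∈ H, PolyQ (S : Set (Equiv.Perm ℤ)) (W g) := fun g hg =>
    polyQ_conj S hg (hW g) hK
  have hKH : K ≤ H := fun f hf => (mem_germStab.1 hf).1
  have hHQ : PolyQ (S : Set (Equiv.Perm ℤ)) H := polyQ_mono S hKH hK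
  have hT : ∀ T : Finset (H ⧸ L.subgroupOf H), PolyQ (S : Set (Equiv.Perm ℤ))
      (H ⊓ T.inf fun q => W ((q.out : H) : Equiv.Perm ℤ)) := by
    intro T
    induction T using Finset.induction_on with
    | empty => rwa [Finset.inf_empty, inf_top_eq]
    | insert q T _ ih =>
      rw [Finset.inf_insert, inf_left_comm]
      exact polyQ_inf S (hWQ _ (q.out : H).2) ih
  refine polyQ_mono S ?_ (hT Finset.univ)
  intro f hf
  obtain ⟨hfH, hfW⟩ := Subgroup.mem_inf.1 hf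
  have hfW' : ∀ q : H ⧸ L.subgroupOf H, ((q.out : H) : Equiv.Perm ℤ)⁻¹ * f * ((q.out : H) : Equiv.Perm ℤ) ∈ K := by
    intro q
    have h1 : (Finset.univ.inf fun q : H ⧸ L.subgroupOf H => W ((q.out : H) : Equiv.Perm ℤ)) ≤
        W ((q.out : H) : Equiv.Perm ℤ) := Finset.inf_le (Finset.mem_univ q)
    exact (hW _ f).1 (h1 hfW)
  rw [mem_germCore]
  refine ⟨hfH, fun g hg => ?_⟩
  let q : H ⧸ L.subgroupOf H := QuotientGroup.mk (⟨g, hg⟩ : H)
  have h2 : (q.out)⁻¹ * (⟨g, hg⟩ : H) ∈ L.subgroupOf H := by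
    rw [← QuotientGroup.eq]
    exact Quotient.out_eq _
  have h3 : ((q.out : H) : Equiv.Perm ℤ)⁻¹ * g ∈ L := by
    have h4 := Subgroup.mem_subgroupOf.1 h2
    rwa [Subgroup.coe_mul, Subgroup.coe_inv] at h4
  have h5 := hn _ (inv_mem h3) _ (hfW' q)
  have h6 : (((q.out : H) : Equiv.Perm ℤ)⁻¹ * g)⁻¹ *
      (((q.out : H) : Equiv.Perm ℤ)⁻¹ * f * ((q.out : H) : Equiv.Perm ℤ)) *
      ((((q.out : H) : Equiv.Perm ℤ)⁻¹ * g)⁻¹)⁻¹ = g⁻¹ * f * g := by group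
  rw [h6] at h5
  exact h5.2
-- END en2

-- BEGIN en3
/-- Finitely many conjugates: a map `ρ` to a finite type such that elements with the same value give the same
conjugate of the germ stabiliser. -/
theorem exists_normaliser (S : Finset (Equiv.Perm ℤ)) {z : ℕ → ℤ} (hz : Pro z) {ι : Type*} [Finite ι]
    (ρ : Equiv.Perm ℤ → ι)
    (hρ : ∀ g ∈ Subgroup.closure (S : Set (Equiv.Perm ℤ)), ∀ g' ∈ Subgroup.closure (S : Set (Equiv.Perm ℤ)),
      ρ g = ρ g' → ∀ f ∈ Subgroup.closure (S : Set (Equiv.Perm ℤ)),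
        FixNear z (g⁻¹ * f * g) → FixNear z (g'⁻¹ * f * g')) :
    ∃ L : Subgroup (Equiv.Perm ℤ), L ≤ Subgroup.closure (S : Set (Equiv.Perm ℤ)) ∧
      (L.subgroupOf (Subgroup.closure (S : Set (Equiv.Perm ℤ)))).FiniteIndex ∧
      ∀ g ∈ L, ∀ f ∈ germStab (Subgroup.closure (S : Set (Equiv.Perm ℤ))) hz,
        g * f * g⁻¹ ∈ germStab (Subgroup.closure (S : Set (Equiv.Perm ℤ))) hz := by
  set H : Subgroup (Equiv.Perm ℤ) := Subgroup.closure (S : Set (Equiv.Perm ℤ)) with hH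
  let L : Subgroup (Equiv.Perm ℤ) :=
    { carrier := {g | g ∈ H ∧ ∀ f ∈ H, FixNear z (g⁻¹ * f * g) ↔ FixNear z f}
      one_mem' := ⟨one_mem _, fun f _ => by simp⟩
      mul_mem' := by
        rintro a b ⟨ha, ha'⟩ ⟨hb, hb'⟩
        refine ⟨mul_mem ha hb, fun f hf => ?_⟩
        have h1 : (a * b)⁻¹ * f * (a * b) = b⁻¹ * (a⁻¹ * f * a) * b := by group
        rw [h1, hb' _ (mul_mem (mul_mem (inv_mem ha) hf) ha), ha' f hf]
      inv_mem' := by
        rintro a ⟨ha, ha'⟩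
        refine ⟨inv_mem ha, fun f hf => ?_⟩
        have h1 := ha' (a⁻¹⁻¹ * f * a⁻¹)
          (mul_mem (mul_mem (inv_mem (inv_mem ha)) hf) (inv_mem ha))
        have h2 : a⁻¹ * (a⁻¹⁻¹ * f * a⁻¹) * a = f := by group
        rw [h2] at h1
        exact h1.symm }
  have hmem : ∀ g, g ∈ L ↔ g ∈ H ∧ ∀ f ∈ H, FixNear z (g⁻¹ * f * g) ↔ FixNear z f := fun g => Iff.rfl
  refine ⟨L, fun g hg => ((hmem g).1 hg).1, ?_, ?_⟩
  · have hinj : Function.Injective
        (fun q : H ⧸ L.subgroupOf H => ρ ((q.out : H) : Equiv.Perm ℤ)) := by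
      intro q q' hqq
      have h1 : ((q.out : H)⁻¹ * (q'.out : H)) ∈ L.subgroupOf H := by
        rw [Subgroup.mem_subgroupOf, hmem]
        refine ⟨SetLike.coe_mem _, fun f hf => ?_⟩
        have hf' : (q.out : Equiv.Perm ℤ) * f * (q.out : Equiv.Perm ℤ)⁻¹ ∈ H :=
          mul_mem (mul_mem (SetLike.coe_mem _) hf) (inv_mem (SetLike.coe_mem _))
        have h2 := hρ _ (SetLike.coe_mem q.out) _ (SetLike.coe_mem q'.out) hqq _ hf'
        have h3 := hρ _ (SetLike.coe_mem q'.out) _ (SetLike.coe_mem q.out) hqq.symm _ hf'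
        have h4 : (q.out : Equiv.Perm ℤ)⁻¹ * ((q.out : Equiv.Perm ℤ) * f *
            (q.out : Equiv.Perm ℤ)⁻¹) * (q.out : Equiv.Perm ℤ) = f := by group
        have h5 : (((q.out : H)⁻¹ * (q'.out : H) : H) : Equiv.Perm ℤ)⁻¹ * f *
            (((q.out : H)⁻¹ * (q'.out : H) : H) : Equiv.Perm ℤ) =
            (q'.out : Equiv.Perm ℤ)⁻¹ * ((q.out : Equiv.Perm ℤ) * f *
              (q.out : Equiv.Perm ℤ)⁻¹) * (q'.out : Equiv.Perm ℤ) := by
          rw [Subgroup.coe_mul, Subgroup.coe_inv]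
          group
        rw [h4] at h2 h3
        rw [h5]
        exact ⟨h3, h2⟩
      rw [← QuotientGroup.eq] at h1
      rwa [QuotientGroup.out_eq', QuotientGroup.out_eq'] at h1
    have : Finite (H ⧸ L.subgroupOf H) := Finite.of_injective _ hinj
    exact Subgroup.finiteIndex_of_finite_quotient
  · intro g hg f hf
    obtain ⟨hgH, hg'⟩ := (hmem g).1 hg
    have h1 : g * f * g⁻¹ ∈ H := mul_mem (mul_mem hgH hf.1) (inv_mem hgH)
    refine ⟨h1, (hg' _ h1).1 ?_⟩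
    have h2 : g⁻¹ * (g * f * g⁻¹) * g = f := by group
    rw [h2]
    exact hf.2
-- END en3

end Pool.Agent.Uhy
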