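import Pool.Agent.Uhy.Aff

namespace Pool.Agent.Uhy

open Pool.Agent.CTm Pool.Agent.Grm Pool.Agent.Lgp Filter Nat

variable {N m c : ℕ}

-- BEGIN st1
private theorem st1_cop {a b e : ℕ} (hcop : Nat.Coprime a b) {u v : ℕ} (hu : u ∣ a ^ e) (hv : v ∣ b ^ e) :
    Nat.Coprime u v :=
  Nat.Coprime.coprime_dvd_left hu (Nat.Coprime.coprime_dvd_right hv (Nat.Coprime.pow e e hcop))

/-- the slopes along the orbit, on the classes modulo `N m^c` -/
theorem exists_pat (hN : 0 < N) (hm : 0 < m) {T : Equiv.Perm ℤ} (hT : Aff N m c T)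
    {a b : ℕ} (hab : a * b = m) (hcop : Nat.Coprime a b) {n : ℤ} (hp : Pat T a b n) (i : ℤ) :
    ∃ u v : ℕ, a ∣ u ∧ u ∣ a ^ c ∧ b ∣ v ∧ v ∣ b ^ c ∧ ∀ t : ℤ,
      (v : ℤ) * (T ((T ^ i) n + ((N * m ^ c : ℕ) : ℤ) * t) - T ((T ^ i) n)) =
        u * (((N * m ^ c : ℕ) : ℤ) * t) := by
  obtain ⟨u0, v0, hu0, hv0, h0⟩ := hT ((T ^ i) n)
  obtain ⟨u, v, e, hau, hue, hbv, hve, M, hM, h1⟩ := hp i
  have ha : 0 < a := Nat.pos_of_ne_zero fun h => by rw [h, Nat.zero_mul] at hab; omega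
  have hb : 0 < b := Nat.pos_of_ne_zero fun h => by rw [h, Nat.mul_zero] at hab; omega
  have hQ : (0 : ℤ) < ((N * m ^ c : ℕ) : ℤ) := by exact_mod_cast Nat.mul_pos hN (Nat.pow_pos hm)
  have hv0p : 0 < v0 := Nat.pos_of_dvd_of_pos hv0 (Nat.pow_pos hm)
  have e0 := h0 M
  have e1 := h1 ((N * m ^ c : ℕ) : ℤ)
  have hcomm : M * ((N * m ^ c : ℕ) : ℤ) = ((N * m ^ c : ℕ) : ℤ) * M := mul_comm _ _
  rw [hcomm] at e1
  generalize hQ' : ((N * m ^ c : ℕ) : ℤ) = Q at *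
  have hQM : Q * M ≠ 0 := (mul_pos hQ hM).ne'
  have hkey : (u : ℤ) * v0 = u0 * v := by
    have h3 : (Q * M) * ((u : ℤ) * v0) = (Q * M) * (u0 * v) := by
      linear_combination (-(v0 : ℤ)) * e1 + (v : ℤ) * e0
    exact mul_left_cancel₀ hQM h3
  have hkeyN : u * v0 = u0 * v := by exact_mod_cast hkey
  have huv : Nat.Coprime u v := st1_cop hcop hue hve
  have hdu : u ∣ u0 := huv.dvd_of_dvd_mul_right (hkeyN ▸ Dvd.intro v0 rfl)
  have hdv : v ∣ v0 := huv.symm.dvd_of_dvd_mul_left (hkeyN.symm ▸ Dvd.intro_left u0 rfl)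
  refine ⟨u, v, hau, ?_, hbv, ?_, ?_⟩
  · have h4 : u ∣ a ^ c * b ^ c := by
      rw [← Nat.mul_pow, hab]
      exact hdu.trans hu0
    exact (Nat.Coprime.coprime_dvd_left hue (Nat.Coprime.pow e c hcop)).dvd_of_dvd_mul_right h4
  · have h4 : v ∣ a ^ c * b ^ c := by
      rw [← Nat.mul_pow, hab]
      exact hdv.trans hv0
    exact (Nat.Coprime.coprime_dvd_left hve (Nat.Coprime.pow e c hcop.symm)).dvd_of_dvd_mul_left h4
  · intro t
    have e2 := h0 t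
    have hv0z : (v0 : ℤ) ≠ 0 := by exact_mod_cast hv0p.ne'
    refine mul_left_cancel₀ hv0z ?_
    linear_combination (v : ℤ) * e2 - (Q * t) * hkey

private theorem st1_sq {a a' u c : ℕ} (hsq : Squarefree a) (hau : a ∣ u) (hu : u ∣ a' ^ c) : a ∣ a' := by
  have h1 : a ∣ a' ^ (c + 1) := (hau.trans hu).trans (pow_dvd_pow a' (Nat.le_succ c))
  exact (hsq.dvd_pow_iff_dvd (Nat.succ_ne_zero c)).1 h1

/-- the pattern is the same at congruent points -/
theorem pat_congr (hN : 0 < N) (hm : 0 < m) (hsq : Squarefree m) {T : Equiv.Perm ℤ} (hT : Aff N m c T)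
    {a b : ℕ} (hab : a * b = m) {n n' : ℤ} (hp : Pat T a b n) (hn' : HypAt m T n')
    (hnn : ((N * m ^ c : ℕ) : ℤ) ∣ n' - n) : Pat T a b n' := by
  obtain ⟨a', b', hab', hp'⟩ := hn'
  have hcop : Nat.Coprime a b := Nat.coprime_of_squarefree_mul (hab.symm ▸ hsq)
  have hcop' : Nat.Coprime a' b' := Nat.coprime_of_squarefree_mul (hab'.symm ▸ hsq)
  obtain ⟨u, v, hau, hua, hbv, hvb, h⟩ := exists_pat hN hm hT hab hcop hp 0
  obtain ⟨u', v', hau', hua', hbv', hvb', h'⟩ := exists_pat hN hm hT hab' hcop' hp' 0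
  have hQ : (0 : ℤ) < ((N * m ^ c : ℕ) : ℤ) := by exact_mod_cast Nat.mul_pos hN (Nat.pow_pos hm)
  simp only [zpow_zero, Equiv.Perm.coe_one, id_eq] at h h'
  obtain ⟨s, hs⟩ := hnn
  generalize hQ' : ((N * m ^ c : ℕ) : ℤ) = Q at *
  have hn : n' = n + Q * s := by linarith
  have e1 := h s
  have e2 := h (s + 1)
  have e3 := h' 1
  have hn2 : n + Q * (s + 1) = n' + Q * 1 := by rw [hn]; ring
  rw [← hn] at e1
  rw [hn2] at e2
  have hkey : (u : ℤ) * v' = u' * v := by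
    have h3 : Q * ((u : ℤ) * v') = Q * (u' * v) := by
      linear_combination (-(v' : ℤ)) * e2 + (v' : ℤ) * e1 + (v : ℤ) * e3
    exact mul_left_cancel₀ hQ.ne' h3
  have hkeyN : u * v' = u' * v := by exact_mod_cast hkey
  have huv : Nat.Coprime u v := st1_cop hcop hua hvb
  have huv' : Nat.Coprime u' v' := st1_cop hcop' hua' hvb'
  have h1 : u ∣ u' := huv.dvd_of_dvd_mul_right (hkeyN ▸ Dvd.intro v' rfl)
  have h2 : u' ∣ u := huv'.dvd_of_dvd_mul_right (hkeyN.symm ▸ Dvd.intro v rfl)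
  have h3 : v ∣ v' := huv.symm.dvd_of_dvd_mul_left (hkeyN.symm ▸ Dvd.intro_left u' rfl)
  have h4 : v' ∣ v := huv'.symm.dvd_of_dvd_mul_left (hkeyN ▸ Dvd.intro_left u rfl)
  have ha : a = a' := Nat.dvd_antisymm
    (st1_sq (hsq.squarefree_of_dvd (hab ▸ Dvd.intro b rfl)) hau (h1.trans hua'))
    (st1_sq (hsq.squarefree_of_dvd (hab' ▸ Dvd.intro b' rfl)) hau' (h2.trans hua))
  have hb : b = b' := Nat.dvd_antisymm
    (st1_sq (hsq.squarefree_of_dvd (hab ▸ Dvd.intro_left a rfl)) hbv (h3.trans hvb'))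
    (st1_sq (hsq.squarefree_of_dvd (hab' ▸ Dvd.intro_left a' rfl)) hbv' (h4.trans hvb))
  rw [ha, hb]
  exact hp'

theorem Pat.inv {T : Equiv.Perm ℤ} {a b : ℕ} (ha : 0 < a) (hb : 0 < b) {n : ℤ} (hp : Pat T a b n) :
    Pat T⁻¹ b a n := by
  intro i
  obtain ⟨u, v, e, hau, hua, hbv, hvb, M, hM, h⟩ := hp (-i - 1)
  have hu : 0 < u := Nat.pos_of_dvd_of_pos hua (Nat.pow_pos ha)
  have hv : 0 < v := Nat.pos_of_dvd_of_pos hvb (Nat.pow_pos hb)
  have hv' : (v : ℤ) ≠ 0 := by exact_mod_cast hv.ne'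
  have hy : (T⁻¹ ^ i) n = T ((T ^ (-i - 1)) n) := by
    rw [← Equiv.Perm.mul_apply, ← zpow_one_add, inv_zpow']
    congr 2
    ring
  refine ⟨v, u, e, hbv, hvb, hau, hua, u * M, mul_pos (by exact_mod_cast hu) hM, fun k => ?_⟩
  rw [hy]
  generalize (T ^ (-i - 1)) n = z at *
  have h1 : T (z + M * (v * k)) = T z + u * M * k := by
    have h2 := h (v * k)
    have h3 : (v : ℤ) * (T (z + M * (v * k)) - T z) = v * (u * M * k) := by rw [h2]; ring
    have h4 := mul_left_cancel₀ hv' h3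
    linarith
  have hinv : ∀ x, T⁻¹ (T x) = x := fun x => T.symm_apply_apply x
  have h5 : T⁻¹ (T z + u * M * k) = z + M * (v * k) := by
    rw [← h1, hinv]
  rw [h5, hinv]
  ring
-- END st1

-- BEGIN st2
/-- shadowing: the contracted primes are those of `a` -/
theorem shadow (hN : 0 < N) (hm : 0 < m) {T : Equiv.Perm ℤ} (hT : Aff N m c T)
    {a b : ℕ} (hab : a * b = m) (hcop : Nat.Coprime a b) {n w : ℤ} (hp : Pat T a b n) (i : ℕ) (k : ℕ)
    (hw : ((N * a ^ c * b ^ (c * (i + 1) + k) : ℕ) : ℤ) ∣ w - n) :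
    ((N * a ^ (c + i) * b ^ (c + k) : ℕ) : ℤ) ∣ (T ^ i) w - (T ^ i) n := by
  induction i generalizing k with
  | zero => simpa using hw
  | succ i ih =>
    have hw' : ((N * a ^ c * b ^ (c * (i + 1) + (c + k)) : ℕ) : ℤ) ∣ w - n := by
      have he : c * (i + 1) + (c + k) = c * (i + 1 + 1) + k := by ring
      rw [he]
      exact hw
    obtain ⟨t, ht⟩ := ih (c + k) hw'
    obtain ⟨u, v, hau, -, -, hvb, h⟩ := exists_pat hN hm hT hab hcop hp (i : ℤ)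
    obtain ⟨u', rfl⟩ := hau
    obtain ⟨v', hv'⟩ := hvb
    have hb : 0 < b := by
      rcases Nat.eq_zero_or_pos b with hb | hb
      · rw [hb, mul_zero] at hab
        omega
      · exact hb
    have hv0 : (v : ℤ) ≠ 0 := by
      intro hv
      have hv1 : v = 0 := by exact_mod_cast hv
      rw [hv1, zero_mul] at hv'
      exact (_root_.pow_pos hb c).ne' hv'
    have hbz : (b : ℤ) ^ c = v * v' := by exact_mod_cast hv'
    have hmz : (m : ℤ) = a * b := by exact_mod_cast hab.symm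
    have hTi : ∀ z : ℤ, (T ^ (i + 1)) z = T ((T ^ i) z) := fun z => by
      rw [_root_.pow_succ', Equiv.Perm.mul_apply]
    have h1 := h ((a : ℤ) ^ i * (b : ℤ) ^ (c + k) * t)
    have h2 : (T ^ (i : ℤ)) n + ((N * m ^ c : ℕ) : ℤ) * ((a : ℤ) ^ i * (b : ℤ) ^ (c + k) * t) =
        (T ^ i) w := by
      have h3 : (T ^ i) w = (T ^ i) n + ((N * a ^ (c + i) * b ^ (c + (c + k)) : ℕ) : ℤ) * t := by
        linarith
      rw [h3, zpow_natCast]
      push_cast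
      rw [hmz]
      ring
    rw [h2, zpow_natCast] at h1
    refine ⟨(u' : ℤ) * v' * t, ?_⟩
    rw [hTi, hTi]
    refine mul_left_cancel₀ hv0 ?_
    rw [h1]
    push_cast
    rw [hmz, mul_pow, hbz]
    have e1 : (a : ℤ) ^ (c + (i + 1)) = a ^ c * a ^ i * a := by ring
    rw [e1]
    ring
-- END st2

-- BEGIN st3
private theorem st3_iter {T : Equiv.Perm ℤ} {A : Set ℤ} {q : ℕ} (hAT : ∀ n, (T ^ q) n ∈ A ↔ n ∈ A) :
    ∀ (k : ℕ) (n : ℤ), (T ^ (q * k)) n ∈ A ↔ n ∈ A := by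
  intro k
  induction k with
  | zero => intro n; simp
  | succ k ih =>
      intro n
      have h1 : (T ^ (q * (k + 1))) n = (T ^ q) ((T ^ (q * k)) n) := by
        rw [Nat.mul_succ, Nat.add_comm, pow_add]
        rfl
      rw [h1, hAT, ih]

private theorem st3_inv {T : Equiv.Perm ℤ} {A : Set ℤ} {q : ℕ} (hAT : ∀ n, (T ^ q) n ∈ A ↔ n ∈ A) :
    ∀ n, (T⁻¹ ^ q) n ∈ A ↔ n ∈ A := by
  intro n
  have h1 := hAT ((T⁻¹ ^ q) n)
  have h2 : (T ^ q) ((T⁻¹ ^ q) n) = n := by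
    rw [inv_pow]
    exact (T ^ q).apply_symm_apply n
  rw [h2] at h1
  exact h1.symm

private theorem st3_mem {N m k : ℕ} {A : Set ℤ}
    (hA : ∀ n ∈ A, ∀ n' : ℤ, ((N * m ^ k : ℕ) : ℤ) ∣ n' - n → n' ∈ A) {x y : ℤ} {P : ℕ}
    (hP : N * m ^ k ∣ P) (h : (P : ℤ) ∣ x - y) : x ∈ A ↔ y ∈ A := by
  have h1 : ((N * m ^ k : ℕ) : ℤ) ∣ x - y := dvd_trans (Int.natCast_dvd_natCast.mpr hP) h
  constructor
  · intro hx
    refine hA x hx y ?_
    have h2 : y - x = -(x - y) := by ring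
    rw [h2]
    exact (dvd_neg).mpr h1
  · intro hy
    exact hA y hy x h1

/-- SATURATION: an invariant periodic set is a union of classes modulo `N m^c` inside the hyperbolic set `Y`. -/
theorem saturation (hN : 0 < N) (hm : 2 ≤ m) (hsq : Squarefree m) {T : Equiv.Perm ℤ}
    (hT : Aff N m c T) (hT' : Aff N m c T⁻¹) {Y : Set ℤ}
    (hY : ∀ n ∈ Y, ∀ n' : ℤ, ((N * m ^ c : ℕ) : ℤ) ∣ n' - n → n' ∈ Y)
    (hyp : ∀ n ∈ Y, HypAt m T n) {A : Set ℤ} {k : ℕ}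
    (hA : ∀ n ∈ A, ∀ n' : ℤ, ((N * m ^ k : ℕ) : ℤ) ∣ n' - n → n' ∈ A) {q : ℕ} (hq : 0 < q)
    (hAT : ∀ n, (T ^ q) n ∈ A ↔ n ∈ A) {n n' : ℤ} (hn : n ∈ Y)
    (hnn : ((N * m ^ c : ℕ) : ℤ) ∣ n' - n) (hnA : n ∈ A) : n' ∈ A := by
  obtain ⟨a, b, hab, hp⟩ := hyp n hn
  have hm0 : 0 < m := by omega
  have hcop : Nat.Coprime a b := by
    have h1 : Squarefree (a * b) := by rw [hab]; exact hsq
    exact (Nat.squarefree_mul_iff.mp h1).1
  have ha0 : 0 < a := by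
    rcases Nat.eq_zero_or_pos a with h | h
    · rw [h, Nat.zero_mul] at hab; omega
    · exact h
  have hb0 : 0 < b := by
    rcases Nat.eq_zero_or_pos b with h | h
    · rw [h, Nat.mul_zero] at hab; omega
    · exact h
  have hn' : n' ∈ Y := hY n hn n' hnn
  have hp' : Pat T a b n' := pat_congr hN hm0 hsq hT hab hp (hyp n' hn') hnn
  have hpi : Pat T⁻¹ b a n' := Pat.inv ha0 hb0 hp'
  have hba : b * a = m := by rw [Nat.mul_comm]; exact hab
  -- the time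
  set i : ℕ := q * k with hi
  have hik : k ≤ i := by
    rw [hi]
    exact Nat.le_mul_of_pos_left k hq
  -- the common point
  obtain ⟨t, ht⟩ := hnn
  set e : ℕ := c * i + k with he
  have hce : IsCoprime ((b ^ e : ℕ) : ℤ) ((a ^ e : ℕ) : ℤ) := by
    rw [Nat.isCoprime_iff_coprime]
    exact Nat.Coprime.pow e e hcop.symm
  obtain ⟨s, s', hss⟩ := hce
  set w : ℤ := n + ((N * a ^ c * b ^ c : ℕ) : ℤ) * (t * (s * ((b ^ e : ℕ) : ℤ))) with hw
  have hmc : ((N * m ^ c : ℕ) : ℤ) = ((N * a ^ c * b ^ c : ℕ) : ℤ) := by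
    rw [← hab, Nat.mul_pow]
    push_cast
    ring
  have hw1 : ((N * a ^ c * b ^ (c * (i + 1) + k) : ℕ) : ℤ) ∣ w - n := by
    have h1 : c * (i + 1) + k = c + e := by rw [he]; ring
    refine ⟨t * s, ?_⟩
    rw [h1, hw, pow_add]
    push_cast
    ring
  have hw2 : ((N * b ^ c * a ^ (c * (i + 1) + k) : ℕ) : ℤ) ∣ w - n' := by
    have h1 : c * (i + 1) + k = c + e := by rw [he]; ring
    refine ⟨-(t * s'), ?_⟩
    have h2 : n' = n + ((N * a ^ c * b ^ c : ℕ) : ℤ) * t := by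
      rw [← hmc]
      linarith [ht]
    have h3 : w - n' = ((N * a ^ c * b ^ c : ℕ) : ℤ) * t * (s * ((b ^ e : ℕ) : ℤ) - 1) := by
      rw [h2, hw]
      ring
    have h4 : s * ((b ^ e : ℕ) : ℤ) - 1 = -(s' * ((a ^ e : ℕ) : ℤ)) := by linarith [hss]
    rw [h1, h3, h4, pow_add]
    push_cast
    ring
  -- the two shadows
  have h1 := shadow hN hm0 hT hab hcop hp i k hw1
  have h2 := shadow hN hm0 hT' hba hcop.symm hpi i k hw2
  have hP1 : N * m ^ k ∣ N * a ^ (c + i) * b ^ (c + k) := by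
    rw [← hab, Nat.mul_pow, ← Nat.mul_assoc]
    exact Nat.mul_dvd_mul (Nat.mul_dvd_mul (dvd_refl N) (pow_dvd_pow a (by omega)))
      (pow_dvd_pow b (by omega))
  have hP2 : N * m ^ k ∣ N * b ^ (c + i) * a ^ (c + k) := by
    rw [← hba, Nat.mul_pow, ← Nat.mul_assoc]
    exact Nat.mul_dvd_mul (Nat.mul_dvd_mul (dvd_refl N) (pow_dvd_pow b (by omega)))
      (pow_dvd_pow a (by omega))
  have e1 := st3_mem hA hP1 h1
  have e2 := st3_mem hA hP2 h2
  have f1 := st3_iter hAT k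
  have f2 := st3_iter (st3_inv hAT) k
  have g1 : w ∈ A := (f1 w).mp (e1.mpr ((f1 n).mpr hnA))
  exact (f2 n').mp (e2.mp ((f2 w).mpr g1))
-- END st3

end Pool.Agent.Uhy
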